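import Mathlib

/-!
Valuation lemmas for weighted-nondegenerate plane models.
-/

set_option autoImplicit false

open Finset

namespace Pool.Agent.Y68.Grd

variable {k L Γ : Type*} [Field k] [Field L] [Algebra k L] [LinearOrderedCommGroupWithZero Γ]
variable (ν : Valuation L Γ)

/-- congruence modulo the maximal ideal -/
def Cg (x y : L) : Prop := ν (x - y) < 1

variable {ν}

omit [Algebra k L]
theorem Cg.rfl' (x : L) : Cg ν x x := by
  unfold Cg
  rw [sub_self, map_zero]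
  exact zero_lt_one

theorem Cg.symm {x y : L} (h : Cg ν x y) : Cg ν y x := by
  unfold Cg at *
  rwa [Valuation.map_sub_swap]

theorem Cg.trans {x y z : L} (h : Cg ν x y) (h' : Cg ν y z) : Cg ν x z := by
  unfold Cg at *
  have : x - z = (x - y) + (y - z) := by ring
  rw [this]
  exact Valuation.map_add_lt _ h h'

theorem Cg.add {x y x' y' : L} (h : Cg ν x y) (h' : Cg ν x' y') : Cg ν (x + x') (y + y') := by
  unfold Cg at *
  have : x + x' - (y + y') = (x - y) + (x' - y') := by ring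
  rw [this]
  exact Valuation.map_add_lt _ h h'

theorem Cg.sub {x y x' y' : L} (h : Cg ν x y) (h' : Cg ν x' y') : Cg ν (x - x') (y - y') := by
  unfold Cg at *
  have : x - x' - (y - y') = (x - y) - (x' - y') := by ring
  rw [this]
  exact lt_of_le_of_lt (Valuation.map_sub _ _ _) (max_lt h h')

theorem Cg.mul_left {x y : L} (h : Cg ν x y) {z : L} (hz : ν z ≤ 1) : Cg ν (z * x) (z * y) := by
  unfold Cg at *
  rw [← mul_sub, map_mul]
  exact (mul_le_of_le_one_left' hz).trans_lt h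

theorem Cg.mul {x y x' y' : L} (h : Cg ν x y) (h' : Cg ν x' y') (hx : ν x' ≤ 1) (hy : ν y ≤ 1) :
    Cg ν (x * x') (y * y') := by
  have h1 : Cg ν (x' * x) (x' * y) := h.mul_left hx
  have h2 : Cg ν (y * x') (y * y') := h'.mul_left hy
  rw [mul_comm x x']
  refine h1.trans ?_
  rw [mul_comm x' y]
  exact h2

theorem Cg.le_one {x y : L} (h : Cg ν x y) (hy : ν y ≤ 1) : ν x ≤ 1 := by
  have : x = (x - y) + y := by ring
  rw [this]
  exact (Valuation.map_add _ _ _).trans (max_le h.le hy)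

theorem Cg.eq_one {x y : L} (h : Cg ν x y) (hy : ν y = 1) : ν x = 1 := by
  have : x = (x - y) + y := by ring
  rw [this, Valuation.map_add_eq_of_lt_right _ (by rw [hy]; exact h), hy]

theorem Cg.lt_one {x y : L} (h : Cg ν x y) (hy : ν y < 1) : ν x < 1 := by
  have : x = (x - y) + y := by ring
  rw [this]
  exact Valuation.map_add_lt _ h hy

theorem Cg.pow {x y : L} (h : Cg ν x y) (hy : ν y ≤ 1) (n : ℕ) : Cg ν (x ^ n) (y ^ n) := by
  induction n with
  | zero => rw [pow_zero, pow_zero]; exact Cg.rfl' _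
  | succ n ih =>
    rw [pow_succ, pow_succ]
    apply ih.mul h (h.le_one hy)
    rw [map_pow]
    exact pow_le_one₀ zero_le hy

theorem cg_zero {x : L} : Cg ν x 0 ↔ ν x < 1 := by
  unfold Cg
  rw [sub_zero]

variable [Algebra k L]

theorem val_le (hk : ∀ x : k, x ≠ 0 → ν (algebraMap k L x) = 1) (x : k) :
    ν (algebraMap k L x) ≤ 1 := by
  by_cases hx : x = 0
  · rw [hx, map_zero, map_zero]; exact zero_le
  · exact (hk x hx).le

theorem aeval_le (hk : ∀ x : k, x ≠ 0 → ν (algebraMap k L x) = 1) {t : L} (ht : ν t ≤ 1)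
    (p : Polynomial k) : ν (Polynomial.aeval t p) ≤ 1 := by
  rw [Polynomial.aeval_eq_sum_range]
  apply Valuation.map_sum_le
  intro i _
  rw [Algebra.smul_def, map_mul, map_pow]
  exact mul_le_one' (val_le hk _) (pow_le_one₀ zero_le ht)

theorem aeval_eq_one (hk : ∀ x : k, x ≠ 0 → ν (algebraMap k L x) = 1) {g : Polynomial k} {t : L}
    (ht : ν t ≤ 1) (hgi : Irreducible g) (hg : ν (Polynomial.aeval t g) < 1)
    {p : Polynomial k} (hnd : ¬ g ∣ p) : ν (Polynomial.aeval t p) = 1 := by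
  apply le_antisymm (aeval_le hk ht p)
  obtain ⟨x, y, hxy⟩ := (EuclideanDomain.dvd_or_coprime g p hgi).resolve_left hnd
  by_contra hlt
  rw [not_le] at hlt
  have h1 := congrArg (Polynomial.aeval t) hxy
  rw [map_add, map_mul, map_mul, map_one] at h1
  have h2 : ν (Polynomial.aeval t x * Polynomial.aeval t g +
      Polynomial.aeval t y * Polynomial.aeval t p) < 1 := by
    apply Valuation.map_add_lt
    · rw [map_mul]
      exact (mul_le_of_le_one_left' (aeval_le hk ht x)).trans_lt hg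
    · rw [map_mul]
      exact (mul_le_of_le_one_left' (aeval_le hk ht y)).trans_lt hlt
  rw [h1, map_one] at h2
  exact lt_irrefl _ h2

theorem not_dvd_of_natDegree {g p : Polynomial k} (hp : p ≠ 0) (h : p.natDegree < g.natDegree) :
    ¬ g ∣ p := fun hd => absurd (Polynomial.natDegree_le_of_dvd hd hp) (not_le.2 h)

theorem aeval_cg (hk : ∀ x : k, x ≠ 0 → ν (algebraMap k L x) = 1) {t t' : L} (h : Cg ν t t')
    (ht : ν t' ≤ 1) (p : Polynomial k) :
    Cg ν (Polynomial.aeval t p) (Polynomial.aeval t' p) := by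
  rw [Polynomial.aeval_eq_sum_range, Polynomial.aeval_eq_sum_range]
  unfold Cg
  rw [← sum_sub_distrib]
  apply Valuation.map_sum_lt' _ zero_lt_one
  intro i _
  rw [← smul_sub, Algebra.smul_def, map_mul]
  exact (mul_le_of_le_one_left' (val_le hk _)).trans_lt (h.pow ht i)

omit [Algebra k L]

theorem wt_lemma {N i j i₁ j₁ : ℕ} (hN : 1 ≤ N)
    (h : N * i + (N + 1) * j = N * i₁ + (N + 1) * j₁) (hj : j₁ ≤ j) :
    ∃ l, j = j₁ + N * l ∧ i₁ = i + (N + 1) * l := by
  obtain ⟨d, rfl⟩ := Nat.exists_eq_add_of_le hj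
  have h1 : N * i₁ = N * i + (N + 1) * d := by
    have : (N + 1) * (j₁ + d) = (N + 1) * j₁ + (N + 1) * d := by ring
    omega
  have hdvd : N ∣ (N + 1) * d := by
    have : (N + 1) * d = N * i₁ - N * i := by omega
    rw [this]
    exact Nat.dvd_sub (Dvd.intro _ rfl) (Dvd.intro _ rfl)
  have hcop : Nat.Coprime N (N + 1) := by simp
  obtain ⟨l, rfl⟩ := hcop.dvd_of_dvd_mul_left hdvd
  refine ⟨l, rfl, ?_⟩
  have h2 : N * i₁ = N * (i + (N + 1) * l) := by rw [h1]; ring
  exact Nat.eq_of_mul_eq_mul_left hN h2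

theorem mono_div {u v : L} {N : ℕ} (hv : v ≠ 0) (i j : ℕ) :
    u ^ i * v ^ j / (v / u) ^ (N * i + (N + 1) * j) = (u ^ (N + 1) / v ^ N) ^ (i + j) := by
  rw [div_pow, div_pow, div_div_eq_mul_div, div_eq_div_iff (pow_ne_zero _ hv)
    (pow_ne_zero _ (pow_ne_zero _ hv))]
  ring

theorem one_lt_s {u v : L} {N : ℕ} (h1u : 1 < ν u) (hpow : ν v ^ N = ν u ^ (N + 1)) :
    1 < ν (v / u) := by
  have hvu : ν u ≠ 0 := (zero_lt_one.trans h1u).ne'
  by_contra hcon
  rw [not_lt] at hcon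
  have h1 : ν (v / u) ^ N ≤ 1 := pow_le_one₀ zero_le hcon
  have h2 : ν (v / u) ^ N = ν u := by
    rw [map_div₀, div_pow, hpow, pow_succ, mul_comm, mul_div_cancel_right₀ _ (pow_ne_zero _ hvu)]
  rw [h2] at h1
  exact absurd h1u (not_lt.2 h1)

theorem val_t {u v : L} {N : ℕ} (h1u : 1 < ν u) (hpow : ν v ^ N = ν u ^ (N + 1)) :
    ν (v ^ N / u ^ (N + 1)) = 1 := by
  have hvu : ν u ≠ 0 := (zero_lt_one.trans h1u).ne'
  rw [map_div₀, map_pow, map_pow, hpow, div_self (pow_ne_zero _ hvu)]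

theorem val_t' {u v : L} {N : ℕ} (h1u : 1 < ν u) (hpow : ν v ^ N = ν u ^ (N + 1)) :
    ν (u ^ (N + 1) / v ^ N) = 1 := by
  have hvu : ν u ≠ 0 := (zero_lt_one.trans h1u).ne'
  rw [map_div₀, map_pow, map_pow, hpow, div_self (pow_ne_zero _ hvu)]

variable [Algebra k L]

/-- Leading term of a nonzero combination of the monomials `u ^ i * v ^ j` with `j < N * r`. -/
theorem lead_sum (hk : ∀ x : k, x ≠ 0 → ν (algebraMap k L x) = 1) {u v : L} {N r : ℕ}
    (hu : u ≠ 0) (hv : v ≠ 0) (hN : 1 ≤ N) (hr : 1 ≤ r) (h1u : 1 < ν u)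
    (hpow : ν v ^ N = ν u ^ (N + 1)) (T : Finset (ℕ × ℕ)) (hT : T.Nonempty) (c : ℕ × ℕ → k)
    (hc : ∀ p ∈ T, p.2 < N * r ∧ c p ≠ 0) :
    ∃ (W n : ℕ) (P : Polynomial k), P ≠ 0 ∧ P.natDegree < r ∧
      (∃ p ∈ T, N * p.1 + (N + 1) * p.2 = W) ∧ (∀ p ∈ T, N * p.1 + (N + 1) * p.2 ≤ W) ∧
      Cg ν ((∑ p ∈ T, algebraMap k L (c p) * (u ^ p.1 * v ^ p.2)) / (v / u) ^ W)
        ((u ^ (N + 1) / v ^ N) ^ n * Polynomial.aeval (v ^ N / u ^ (N + 1)) P) := by
  classical
  let wt : ℕ × ℕ → ℕ := fun p => N * p.1 + (N + 1) * p.2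
  obtain ⟨p0, hp0, hmax⟩ := Finset.exists_max_image T wt hT
  have hSne : (T.filter (fun p => wt p = wt p0)).Nonempty := ⟨p0, mem_filter.2 ⟨hp0, rfl⟩⟩
  obtain ⟨p1, hp1, hmin⟩ := Finset.exists_min_image _ (fun p : ℕ × ℕ => p.2) hSne
  have hS : ∀ p ∈ T.filter (fun p => wt p = wt p0),
      ∃ l, p.2 = p1.2 + N * l ∧ p1.1 = p.1 + (N + 1) * l := by
    intro p hp
    apply wt_lemma hN _ (hmin p hp)
    have h1 := (mem_filter.1 hp).2
    have h2 := (mem_filter.1 hp1).2
    exact h1.trans h2.symm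
  refine ⟨wt p0, p1.1 + p1.2, ∑ p ∈ T.filter (fun p => wt p = wt p0),
    Polynomial.monomial ((p.2 - p1.2) / N) (c p), ?_, ?_, ⟨p0, hp0, rfl⟩, hmax, ?_⟩
  · intro h0
    have h1 := congrArg (fun q : Polynomial k => q.coeff 0) h0
    simp only [Polynomial.finsetSum_coeff, Polynomial.coeff_monomial, Polynomial.coeff_zero] at h1
    rw [Finset.sum_eq_single p1] at h1
    · rw [Nat.sub_self, Nat.zero_div, if_pos rfl] at h1
      exact (hc p1 (mem_filter.1 hp1).1).2 h1
    · intro p hp hne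
      rw [if_neg]
      intro h2
      apply hne
      obtain ⟨l, hl1, hl2⟩ := hS p hp
      rw [hl1, Nat.add_sub_cancel_left, Nat.mul_div_cancel_left _ hN] at h2
      rw [h2, Nat.mul_zero, Nat.add_zero] at hl1 hl2
      exact Prod.ext hl2.symm hl1
    · intro hp
      exact absurd hp1 hp
  · have h1 : ∑ p ∈ T.filter (fun p => wt p = wt p0),
        Polynomial.monomial ((p.2 - p1.2) / N) (c p) ∈ Polynomial.degreeLT k r := by
      apply Submodule.sum_mem
      intro p hp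
      rw [Polynomial.mem_degreeLT]
      refine lt_of_le_of_lt (Polynomial.degree_monomial_le _ _) ?_
      rw [Nat.cast_lt]
      apply Nat.div_lt_of_lt_mul
      exact lt_of_le_of_lt (Nat.sub_le _ _) (hc p (mem_filter.1 hp).1).1
    rw [Polynomial.mem_degreeLT] at h1
    by_cases h0 : ∑ p ∈ T.filter (fun p => wt p = wt p0),
        Polynomial.monomial ((p.2 - p1.2) / N) (c p) = 0
    · rw [h0, Polynomial.natDegree_zero]
      exact hr
    · exact (Polynomial.natDegree_lt_iff_degree_lt h0).2 h1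
  · have hs := one_lt_s h1u hpow
    have ht := val_t' h1u hpow
    unfold Cg
    have key : (∑ p ∈ T, algebraMap k L (c p) * (u ^ p.1 * v ^ p.2)) / (v / u) ^ (wt p0) -
        (u ^ (N + 1) / v ^ N) ^ (p1.1 + p1.2) *
        Polynomial.aeval (v ^ N / u ^ (N + 1)) (∑ p ∈ T.filter (fun p => wt p = wt p0),
        Polynomial.monomial ((p.2 - p1.2) / N) (c p)) =
        ∑ p ∈ T.filter (fun p => ¬ wt p = wt p0),
          algebraMap k L (c p) * (u ^ p.1 * v ^ p.2) / (v / u) ^ (wt p0) := by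
      rw [sum_div, ← sum_filter_add_sum_filter_not T (fun p => wt p = wt p0),
        map_sum, mul_sum]
      rw [add_sub_right_comm, ← sum_sub_distrib, sum_eq_zero, zero_add]
      intro p hp
      obtain ⟨l, hl1, hl2⟩ := hS p hp
      have hw := (mem_filter.1 hp).2
      rw [← hw, Polynomial.aeval_monomial, mul_div_assoc]
      have e1 : u ^ p.1 * v ^ p.2 / (v / u) ^ (wt p) =
          (u ^ (N + 1) / v ^ N) ^ (p.1 + p.2) := mono_div hv _ _
      rw [e1, hl1, Nat.add_sub_cancel_left, Nat.mul_div_cancel_left _ hN, hl2]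
      have e2 : (u ^ (N + 1) / v ^ N) ^ (p.1 + (N + 1) * l + p1.2) =
          (u ^ (N + 1) / v ^ N) ^ (p.1 + (p1.2 + N * l)) * (u ^ (N + 1) / v ^ N) ^ l := by
        rw [← pow_add]; congr 1; ring
      rw [e2]
      have e3 : (u ^ (N + 1) / v ^ N) ^ l * (v ^ N / u ^ (N + 1)) ^ l = 1 := by
        rw [← mul_pow, div_mul_div_comm, mul_comm, div_self, one_pow]
        exact mul_ne_zero (pow_ne_zero _ hv) (pow_ne_zero _ hu)
      linear_combination (-(algebraMap k L (c p) *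
        (u ^ (N + 1) / v ^ N) ^ (p.1 + (p1.2 + N * l)))) * e3
    rw [key]
    apply Valuation.map_sum_lt' _ zero_lt_one
    intro p hp
    obtain ⟨hp1, hp2⟩ := mem_filter.1 hp
    have hlt : wt p < wt p0 := lt_of_le_of_ne (hmax p hp1) hp2
    have e1 : u ^ p.1 * v ^ p.2 =
        (u ^ (N + 1) / v ^ N) ^ (p.1 + p.2) * (v / u) ^ (wt p) := by
      have := mono_div (N := N) (u := u) hv p.1 p.2
      rw [div_eq_iff (pow_ne_zero _ (div_ne_zero hv hu))] at this
      exact this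
    rw [e1, map_div₀, map_mul, map_mul, map_pow, ht, one_pow, one_mul,
      hk _ (hc p hp1).2, one_mul, map_pow, map_pow]
    rw [div_lt_one₀ (pow_pos (zero_lt_one.trans hs) _)]
    exact pow_lt_pow_right₀ hs hlt

/-- value of a combination of monomials -/
theorem val_sum (hk : ∀ x : k, x ≠ 0 → ν (algebraMap k L x) = 1) {u v : L} {N r : ℕ}
    (hu : u ≠ 0) (hv : v ≠ 0) (hN : 1 ≤ N) (hr : 1 ≤ r) (h1u : 1 < ν u)
    (hpow : ν v ^ N = ν u ^ (N + 1)) {g : Polynomial k} (hgi : Irreducible g)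
    (hgr : g.natDegree = r) (hgs : ν (Polynomial.aeval (v ^ N / u ^ (N + 1)) g) < 1)
    (T : Finset (ℕ × ℕ)) (hT : T.Nonempty) (c : ℕ × ℕ → k)
    (hc : ∀ p ∈ T, p.2 < N * r ∧ c p ≠ 0) :
    ∃ W : ℕ, (∃ p ∈ T, N * p.1 + (N + 1) * p.2 = W) ∧ (∀ p ∈ T, N * p.1 + (N + 1) * p.2 ≤ W) ∧
      ν (∑ p ∈ T, algebraMap k L (c p) * (u ^ p.1 * v ^ p.2)) = ν (v / u) ^ W := by
  obtain ⟨W, n, P, hP, hPd, h1, h2, h3⟩ := lead_sum hk hu hv hN hr h1u hpow T hT c hc
  refine ⟨W, h1, h2, ?_⟩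
  have h4 : ν ((u ^ (N + 1) / v ^ N) ^ n * Polynomial.aeval (v ^ N / u ^ (N + 1)) P) = 1 := by
    rw [map_mul, map_pow, val_t' h1u hpow, one_pow, one_mul]
    exact aeval_eq_one hk (val_t h1u hpow).le hgi hgs
      (not_dvd_of_natDegree hP (by rw [hgr]; exact hPd))
  have h5 := h3.eq_one h4
  rw [map_div₀, map_pow] at h5
  exact eq_of_div_eq_one h5

end Pool.Agent.Y68.Grd
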