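import Pool.Agent.Y68.Grd

/-!
From graded data to a weighted-nondegenerate plane model.
-/

set_option autoImplicit false

open Finset Polynomial

namespace Pool.Agent.Y68.Grd

variable {k L Γ : Type*} [Field k] [Field L] [Algebra k L] [LinearOrderedCommGroupWithZero Γ]
variable {ν : Valuation L Γ}

/-- the graded data -/
structure Data (ν : Valuation L Γ) (R : Subalgebra k L) (s τ : L) (r : ℕ) (g : k[X])
    (W0 : ℕ) : Prop where
  hk : ∀ x : k, x ≠ 0 → ν (algebraMap k L x) = 1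
  hs0 : s ≠ 0
  hs : ν s < 1
  hτ : ν τ ≤ 1
  hr : 1 ≤ r
  hgm : g.Monic
  hgr : g.natDegree = r
  hgi : Irreducible g
  hg0 : g.coeff 0 ≠ 0
  hgτ : ν (aeval τ g) < 1
  h1 : ∀ f ∈ R, f ≠ 0 → ∃ (W : ℕ) (p : k[X]), p ≠ 0 ∧ p.natDegree < r ∧
    Cg ν (f * s ^ W) (aeval τ p)
  h2 : ∀ W ≥ W0, ∀ p : k[X], p.natDegree < r → ∃ f ∈ R, Cg ν (f * s ^ W) (aeval τ p)

section

variable {R : Subalgebra k L} {s τ : L} {r : ℕ} {g : k[X]} {W0 : ℕ}

theorem Data.not_dvd_X (d : Data ν R s τ r g W0) : ¬ g ∣ X := by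
  rintro ⟨q, hq⟩
  have h0 : q.coeff 0 = 0 := by
    have := congrArg (fun p : k[X] => p.coeff 0) hq
    simp only [coeff_X_zero, mul_coeff_zero] at this
    exact (mul_eq_zero.1 this.symm).resolve_left d.hg0
  rcases (irreducible_X (R := k)).isUnit_or_isUnit hq with h | h
  · exact d.hgi.not_isUnit h
  · obtain ⟨c, hc, rfl⟩ := Polynomial.isUnit_iff.1 h
    rw [coeff_C_zero] at h0
    exact hc.ne_zero h0

theorem Data.val_tau (d : Data ν R s τ r g W0) : ν τ = 1 := by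
  have := aeval_eq_one d.hk d.hτ d.hgi d.hgτ d.not_dvd_X
  rwa [aeval_X] at this

theorem Data.mod (d : Data ν R s τ r g W0) (p : k[X]) :
    Cg ν (aeval τ (p %ₘ g)) (aeval τ p) := by
  have h1 : aeval τ p = aeval τ (p %ₘ g) + aeval τ g * aeval τ (p /ₘ g) := by
    conv_lhs => rw [← modByMonic_add_div p g, map_add, map_mul]
  unfold Cg
  rw [h1, sub_add_cancel_left, Valuation.map_neg, map_mul]
  exact (mul_le_of_le_one_right' (aeval_le d.hk d.hτ _)).trans_lt d.hgτ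

theorem Data.mod_lt (d : Data ν R s τ r g W0) (p : k[X]) : (p %ₘ g).natDegree < r := by
  rw [← d.hgr]
  apply natDegree_modByMonic_lt p d.hgm
  intro h
  have h1 := d.hr
  rw [← d.hgr, h, natDegree_one] at h1
  omega

theorem Data.inv_tau (d : Data ν R s τ r g W0) :
    ∃ q : k[X], q.natDegree < r ∧ Cg ν (aeval τ q) τ⁻¹ ∧ ν (aeval τ q) = 1 := by
  obtain ⟨x, y, hxy⟩ := (EuclideanDomain.dvd_or_coprime g X d.hgi).resolve_left d.not_dvd_X
  have h1 : Cg ν (aeval τ y * τ) 1 := by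
    have h2 := congrArg (aeval τ) hxy
    rw [map_add, map_mul, map_mul, map_one, aeval_X] at h2
    unfold Cg
    rw [← h2, sub_add_cancel_right, Valuation.map_neg, map_mul]
    exact (mul_le_of_le_one_left' (aeval_le d.hk d.hτ _)).trans_lt d.hgτ
  have hτ0 : τ ≠ 0 := by
    rintro h0
    have := d.val_tau
    rw [h0, map_zero] at this
    exact zero_ne_one this
  have hτi : ν τ⁻¹ = 1 := by rw [map_inv₀, d.val_tau, inv_one]
  have h3 : Cg ν (aeval τ y) τ⁻¹ := by
    have := h1.mul_left (z := τ⁻¹) hτi.le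
    have e : τ⁻¹ * (aeval τ y * τ) = aeval τ y := by
      field_simp
    rwa [e, mul_one] at this
  have h4 : Cg ν (aeval τ (y %ₘ g)) τ⁻¹ := (d.mod y).trans h3
  exact ⟨y %ₘ g, d.mod_lt y, h4, h4.eq_one hτi⟩

theorem Data.val_lead (d : Data ν R s τ r g W0) {f : L} {W : ℕ} {p : k[X]} (hp : p ≠ 0)
    (hpd : p.natDegree < r) (h : Cg ν (f * s ^ W) (aeval τ p)) : ν (f * s ^ W) = 1 :=
  h.eq_one (aeval_eq_one d.hk d.hτ d.hgi d.hgτ
    (not_dvd_of_natDegree hp (by rw [d.hgr]; exact hpd)))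

theorem Data.val_s_pos (d : Data ν R s τ r g W0) : 0 < ν s :=
  zero_lt_iff.2 ((Valuation.ne_zero_iff _).2 d.hs0)

/-- the elements `u`, `v` -/
structure UV (ν : Valuation L Γ) (R : Subalgebra k L) (s τ : L) (N : ℕ) (u v : L) : Prop where
  hu : u ∈ R
  hv : v ∈ R
  cu : Cg ν (u * s ^ N) τ⁻¹
  cv : Cg ν (v * s ^ (N + 1)) τ⁻¹

theorem Data.exists_uv (d : Data ν R s τ r g W0) (N : ℕ) (hN : W0 ≤ N) :
    ∃ u v : L, UV ν R s τ N u v := by
  obtain ⟨q, hq, h1, -⟩ := d.inv_tau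
  obtain ⟨u, hu, h2⟩ := d.h2 N hN q hq
  obtain ⟨v, hv, h3⟩ := d.h2 (N + 1) (hN.trans (Nat.le_succ N)) q hq
  exact ⟨u, v, hu, hv, h2.trans h1, h3.trans h1⟩

variable {N : ℕ} {u v : L}

theorem Data.val_tau_inv (d : Data ν R s τ r g W0) : ν τ⁻¹ = 1 := by
  rw [map_inv₀, d.val_tau, inv_one]

theorem Data.val_us (d : Data ν R s τ r g W0) (h : UV ν R s τ N u v) : ν (u * s ^ N) = 1 :=
  h.cu.eq_one d.val_tau_inv

theorem Data.val_vs (d : Data ν R s τ r g W0) (h : UV ν R s τ N u v) :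
    ν (v * s ^ (N + 1)) = 1 :=
  h.cv.eq_one d.val_tau_inv

theorem Data.u_ne (d : Data ν R s τ r g W0) (h : UV ν R s τ N u v) : u ≠ 0 := by
  rintro rfl
  have := d.val_us h
  rw [zero_mul, map_zero] at this
  exact zero_ne_one this

theorem Data.v_ne (d : Data ν R s τ r g W0) (h : UV ν R s τ N u v) : v ≠ 0 := by
  rintro rfl
  have := d.val_vs h
  rw [zero_mul, map_zero] at this
  exact zero_ne_one this

theorem Data.one_lt_u (d : Data ν R s τ r g W0) (h : UV ν R s τ N u v) (hN : 1 ≤ N) :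
    1 < ν u := by
  by_contra hcon
  rw [not_lt] at hcon
  have h1 := d.val_us h
  rw [map_mul, map_pow] at h1
  have h2 : ν s ^ N < 1 := pow_lt_one₀ zero_le d.hs (by omega)
  exact ((mul_le_of_le_one_left' hcon).trans_lt h2).ne h1

theorem Data.cg_t (d : Data ν R s τ r g W0) (h : UV ν R s τ N u v) :
    Cg ν (v ^ N / u ^ (N + 1)) τ := by
  have hτ0 : τ ≠ 0 := by
    rintro h0
    have := d.val_tau
    rw [h0, map_zero] at this
    exact zero_ne_one this
  have h1 : Cg ν ((v * s ^ (N + 1)) ^ N) (τ⁻¹ ^ N) := h.cv.pow d.val_tau_inv.le N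
  have h2 : Cg ν ((u * s ^ N) ^ (N + 1)) (τ⁻¹ ^ (N + 1)) := h.cu.pow d.val_tau_inv.le (N + 1)
  have h3 : Cg ν (τ * (u * s ^ N) ^ (N + 1)) (τ * τ⁻¹ ^ (N + 1)) := h2.mul_left d.hτ
  have e1 : τ * τ⁻¹ ^ (N + 1) = τ⁻¹ ^ N := by
    rw [pow_succ, mul_comm, mul_assoc, inv_mul_cancel₀ hτ0, mul_one]
  rw [e1] at h3
  have h4 := h1.trans h3.symm
  have h5 : ν ((u * s ^ N) ^ (N + 1)) = 1 := by rw [map_pow, d.val_us h, one_pow]
  unfold Cg at *
  have hu := d.u_ne h
  have hs := d.hs0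
  have e2 : v ^ N / u ^ (N + 1) - τ = ((v * s ^ (N + 1)) ^ N - τ * (u * s ^ N) ^ (N + 1)) /
      ((u * s ^ N) ^ (N + 1)) := by
    have e3 : (v * s ^ (N + 1)) ^ N = v ^ N * s ^ (N * (N + 1)) := by
      rw [mul_pow, ← pow_mul, mul_comm (N + 1)]
    have e4 : (u * s ^ N) ^ (N + 1) = u ^ (N + 1) * s ^ (N * (N + 1)) := by
      rw [mul_pow, ← pow_mul]
    rw [e3, e4, eq_div_iff (mul_ne_zero (pow_ne_zero _ hu) (pow_ne_zero _ hs)), sub_mul,
      ← mul_assoc, div_mul_cancel₀ _ (pow_ne_zero _ hu)]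
  rw [e2, map_div₀, h5, div_one]
  exact h4

theorem Data.val_t (d : Data ν R s τ r g W0) (h : UV ν R s τ N u v) :
    ν (v ^ N / u ^ (N + 1)) = 1 := (d.cg_t h).eq_one d.val_tau

theorem Data.hpow (d : Data ν R s τ r g W0) (h : UV ν R s τ N u v) :
    ν v ^ N = ν u ^ (N + 1) := by
  have := d.val_t h
  rw [map_div₀, map_pow, map_pow] at this
  exact eq_of_div_eq_one this

theorem Data.g_t (d : Data ν R s τ r g W0) (h : UV ν R s τ N u v) :
    ν (aeval (v ^ N / u ^ (N + 1)) g) < 1 :=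
  (aeval_cg d.hk (d.cg_t h) d.hτ g).lt_one d.hgτ

theorem Data.val_vu (d : Data ν R s τ r g W0) (h : UV ν R s τ N u v) :
    ν (v / u) = (ν s)⁻¹ := by
  have h1 := d.val_us h
  have h2 := d.val_vs h
  have hs := d.val_s_pos.ne'
  have hu : ν u ≠ 0 := (Valuation.ne_zero_iff _).2 (d.u_ne h)
  rw [map_mul, map_pow] at h1 h2
  have h3 : ν v = (ν s ^ (N + 1))⁻¹ := eq_inv_of_mul_eq_one_left h2
  have h4 : ν u = (ν s ^ N)⁻¹ := eq_inv_of_mul_eq_one_left h1
  rw [map_div₀, h3, h4, div_inv_eq_mul, pow_succ, mul_inv, mul_comm ((ν s ^ N)⁻¹), mul_assoc,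
    inv_mul_cancel₀ (pow_ne_zero _ hs), mul_one]

/-- monomials of the model -/
def S (k : Type*) {L : Type*} [Field k] [Field L] [Algebra k L] (u v : L) (n : ℕ) :
    Submodule k L :=
  Submodule.span k (Set.range fun p : {p : ℕ × ℕ // p.2 < n} => u ^ p.1.1 * v ^ p.1.2)

theorem mem_S {n : ℕ} (i j : ℕ) (hj : j < n) : u ^ i * v ^ j ∈ S k u v n :=
  Submodule.subset_span ⟨⟨(i, j), hj⟩, rfl⟩

theorem S_le {n : ℕ} (hu : u ∈ R) (hv : v ∈ R) : ∀ x ∈ S k u v n, x ∈ R := by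
  intro x hx
  have : S k u v n ≤ Subalgebra.toSubmodule R := by
    apply Submodule.span_le.2
    rintro _ ⟨p, rfl⟩
    exact R.mul_mem (R.pow_mem hu _) (R.pow_mem hv _)
  exact this hx

/-- lifting a leading residue of large weight -/
theorem Data.red (d : Data ν R s τ r g W0) (h : UV ν R s τ N u v) (hN : 1 ≤ N) {W : ℕ}
    (hW : N * (N + 1) * r ≤ W) (p : k[X]) :
    ∃ y ∈ S k u v (N * r), Cg ν (y * s ^ W) (aeval τ p) := by
  have hτ0 : τ ≠ 0 := by
    rintro h0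
    have := d.val_tau
    rw [h0, map_zero] at this
    exact zero_ne_one this
  have hr := d.hr
  obtain ⟨j0, hj0⟩ : ∃ j0, j0 = W % N := ⟨_, rfl⟩
  have hj0N : j0 < N := hj0 ▸ Nat.mod_lt _ hN
  have hWN : (N + 1) * r ≤ W / N := by
    rw [Nat.le_div_iff_mul_le hN]
    calc (N + 1) * r * N = N * (N + 1) * r := by ring
      _ ≤ W := hW
  obtain ⟨i0, hi0⟩ : ∃ i0, i0 + j0 = W / N := by
    refine ⟨W / N - j0, ?_⟩
    have : N + 1 ≤ (N + 1) * r := Nat.le_mul_of_pos_right _ hr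
    omega
  have hwt : N * i0 + (N + 1) * j0 = W := by
    have h1 := Nat.div_add_mod W N
    rw [← hi0, ← hj0] at h1
    rw [← h1]; ring
  have hi0' : (N + 1) * (r - 1) ≤ i0 := by
    obtain ⟨m, rfl⟩ := Nat.exists_eq_add_of_le hr
    have e1 : (N + 1) * (1 + m) = (N + 1) * m + (N + 1) := by ring
    have e2 : 1 + m - 1 = m := by omega
    rw [e2]
    omega
  obtain ⟨q, hq⟩ : ∃ q : k[X], q = (X ^ (i0 + j0) * p) %ₘ g := ⟨_, rfl⟩
  have hqd : q.natDegree < r := hq ▸ d.mod_lt _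
  refine ⟨∑ l ∈ range r, q.coeff l • (u ^ (i0 - (N + 1) * l) * v ^ (j0 + N * l)), ?_, ?_⟩
  · apply Submodule.sum_mem
    intro l hl
    apply Submodule.smul_mem
    apply mem_S
    rw [mem_range] at hl
    have h1 : N * (l + 1) ≤ N * r := Nat.mul_le_mul_left _ hl
    rw [Nat.mul_add, Nat.mul_one] at h1
    omega
  · have h1 : Cg ν ((∑ l ∈ range r, q.coeff l • (u ^ (i0 - (N + 1) * l) * v ^ (j0 + N * l))) *
        s ^ W) (∑ l ∈ range r, q.coeff l • (τ⁻¹ ^ (i0 + j0) * τ ^ l)) := by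
      unfold Cg
      rw [sum_mul, ← sum_sub_distrib]
      apply Valuation.map_sum_lt' _ zero_lt_one
      intro l hl
      rw [mem_range] at hl
      have hle : (N + 1) * l ≤ i0 := (Nat.mul_le_mul_left _ (by omega)).trans hi0'
      obtain ⟨i, hi⟩ : ∃ i, i0 = i + (N + 1) * l := ⟨i0 - (N + 1) * l, by omega⟩
      have e1 : i0 - (N + 1) * l = i := by omega
      have e2 : u ^ i * v ^ (j0 + N * l) * s ^ W =
          (u * s ^ N) ^ i * (v * s ^ (N + 1)) ^ (j0 + N * l) := by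
        rw [← hwt, hi, mul_pow, mul_pow, ← pow_mul, ← pow_mul]
        have : s ^ (N * (i + (N + 1) * l) + (N + 1) * j0) =
            s ^ (N * i) * s ^ ((N + 1) * (j0 + N * l)) := by
          rw [← pow_add]; congr 1; ring
        rw [this]
        ring
      have e3 : τ⁻¹ ^ (i0 + j0) * τ ^ l = τ⁻¹ ^ i * τ⁻¹ ^ (j0 + N * l) := by
        rw [hi]
        have : τ⁻¹ ^ (i + (N + 1) * l + j0) = τ⁻¹ ^ i * τ⁻¹ ^ (j0 + N * l) * τ⁻¹ ^ l := by
          rw [← pow_add, ← pow_add]; congr 1; ring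
        rw [this, mul_assoc, ← mul_pow, inv_mul_cancel₀ hτ0, one_pow, mul_one]
      rw [e1, smul_mul_assoc, e2, e3, ← smul_sub, Algebra.smul_def, map_mul]
      refine (mul_le_of_le_one_left' (val_le d.hk _)).trans_lt ?_
      apply Cg.mul (h.cu.pow d.val_tau_inv.le i) (h.cv.pow d.val_tau_inv.le _)
      · rw [map_pow, d.val_vs h, one_pow]
      · rw [map_pow, d.val_tau_inv, one_pow]
    refine h1.trans ?_
    have e1 : ∑ l ∈ range r, q.coeff l • (τ⁻¹ ^ (i0 + j0) * τ ^ l) =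
        τ⁻¹ ^ (i0 + j0) * aeval τ q := by
      rw [aeval_eq_sum_range' hqd, mul_sum]
      apply sum_congr rfl
      intro l _
      rw [mul_smul_comm]
    rw [e1]
    have h2 : Cg ν (aeval τ q) (aeval τ (X ^ (i0 + j0) * p)) := hq ▸ d.mod _
    have h3 := h2.mul_left (z := τ⁻¹ ^ (i0 + j0)) (by rw [map_pow, d.val_tau_inv, one_pow])
    rw [map_mul, map_pow, aeval_X, ← mul_assoc, ← mul_pow, inv_mul_cancel₀ hτ0, one_pow,
      one_mul] at h3
    exact h3

/-- elements of small weight -/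
def V (ν : Valuation L Γ) (R : Subalgebra k L) (hk : ∀ x : k, x ≠ 0 → ν (algebraMap k L x) = 1)
    (s : L) (n : ℕ) : Submodule k L where
  carrier := {f | f ∈ R ∧ ν (f * s ^ n) < 1}
  add_mem' := by
    rintro x y ⟨hx, hx'⟩ ⟨hy, hy'⟩
    refine ⟨R.add_mem hx hy, ?_⟩
    rw [add_mul]
    exact Valuation.map_add_lt _ hx' hy'
  zero_mem' := ⟨R.zero_mem, by rw [zero_mul, map_zero]; exact zero_lt_one⟩
  smul_mem' := by
    rintro c x ⟨hx, hx'⟩
    refine ⟨R.smul_mem hx c, ?_⟩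
    rw [smul_mul_assoc, Algebra.smul_def, map_mul]
    exact (mul_le_of_le_one_left' (val_le hk _)).trans_lt hx'

theorem mem_V {hk : ∀ x : k, x ≠ 0 → ν (algebraMap k L x) = 1} {n : ℕ} {f : L} :
    f ∈ V ν R hk s n ↔ f ∈ R ∧ ν (f * s ^ n) < 1 := Iff.rfl

/-- comparing weights -/
theorem Data.wt_le (d : Data ν R s τ r g W0) {f : L} {W n : ℕ} (h1 : ν (f * s ^ W) = 1)
    (h2 : ν (f * s ^ (n + 1)) < 1) : W ≤ n := by
  by_contra hcon
  rw [not_le] at hcon
  obtain ⟨m, rfl⟩ := Nat.exists_eq_add_of_lt hcon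
  have e : f * s ^ (n + m + 1) = f * s ^ (n + 1) * s ^ m := by ring
  rw [e, map_mul, map_pow] at h1
  have h3 : ν s ^ m ≤ 1 := pow_le_one₀ zero_le d.hs.le
  exact ((mul_le_of_le_one_right' h3).trans_lt h2).ne h1

theorem Data.lt_of_wt (d : Data ν R s τ r g W0) {f : L} {W n : ℕ} (h1 : ν (f * s ^ W) = 1)
    (h2 : W < n) : ν (f * s ^ n) < 1 := by
  obtain ⟨m, rfl⟩ := Nat.exists_eq_add_of_lt h2
  have e : f * s ^ (W + m + 1) = f * s ^ W * s ^ (m + 1) := by ring
  rw [e, map_mul, h1, one_mul, map_pow]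
  exact pow_lt_one₀ zero_le d.hs (Nat.succ_ne_zero m)

theorem Data.decomp (d : Data ν R s τ r g W0) (h : UV ν R s τ N u v) (hN : 1 ≤ N) (n : ℕ) :
    ∀ f ∈ R, ν (f * s ^ n) < 1 → f ∈ S k u v (N * r) ⊔ V ν R d.hk s (N * (N + 1) * r) := by
  induction n with
  | zero =>
    intro f hf hlt
    by_cases hf0 : f = 0
    · rw [hf0]; exact Submodule.zero_mem _
    obtain ⟨W, p, hp, hpd, hc⟩ := d.h1 f hf hf0
    have h1 := d.val_lead hp hpd hc
    rw [pow_zero, mul_one] at hlt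
    rw [map_mul, map_pow] at h1
    have h2 : ν s ^ W ≤ 1 := pow_le_one₀ zero_le d.hs.le
    exact absurd h1 ((mul_le_of_le_one_right' h2).trans_lt hlt).ne
  | succ n ih =>
    intro f hf hlt
    rcases Nat.lt_or_ge n (N * (N + 1) * r) with hn | hn
    · apply Submodule.mem_sup_right
      rw [mem_V]
      refine ⟨hf, ?_⟩
      obtain ⟨m, hm⟩ := Nat.exists_eq_add_of_lt hn
      rw [hm]
      have e : f * s ^ (n + m + 1) = f * s ^ (n + 1) * s ^ m := by ring
      rw [e, map_mul, map_pow]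
      have h3 : ν s ^ m ≤ 1 := pow_le_one₀ zero_le d.hs.le
      exact (mul_le_of_le_one_right' h3).trans_lt hlt
    · by_cases hf0 : f = 0
      · rw [hf0]; exact Submodule.zero_mem _
      obtain ⟨W, p, hp, hpd, hc⟩ := d.h1 f hf hf0
      have h1 := d.val_lead hp hpd hc
      rcases (d.wt_le h1 hlt).lt_or_eq with hW | hW
      · exact ih f hf (d.lt_of_wt h1 hW)
      · rw [hW] at hc
        obtain ⟨y, hy, hy'⟩ := d.red h hN hn p
        have h5 : f - y ∈ S k u v (N * r) ⊔ V ν R d.hk s (N * (N + 1) * r) := by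
          apply ih _ (R.sub_mem hf (S_le h.hu h.hv y hy))
          rw [sub_mul]
          exact hc.trans hy'.symm
        have h6 : f = (f - y) + y := by ring
        rw [h6]
        exact Submodule.add_mem _ h5 (Submodule.mem_sup_left hy)

theorem Data.mem_sup (d : Data ν R s τ r g W0) (h : UV ν R s τ N u v) (hN : 1 ≤ N) :
    ∀ f ∈ R, f ∈ S k u v (N * r) ⊔ V ν R d.hk s (N * (N + 1) * r) := by
  intro f hf
  by_cases hf0 : f = 0
  · rw [hf0]; exact Submodule.zero_mem _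
  obtain ⟨W, p, hp, hpd, hc⟩ := d.h1 f hf hf0
  exact d.decomp h hN (W + 1) f hf (d.lt_of_wt (d.val_lead hp hpd hc) (Nat.lt_succ_self W))

/-- the space used for finiteness -/
def DD (ν : Valuation L Γ) (R : Subalgebra k L)
    (hk : ∀ x : k, x ≠ 0 → ν (algebraMap k L x) = 1)
    (s τ : L) (r n : ℕ) : Submodule k (L × k[X]) where
  carrier := {x | x.1 ∈ R ∧ x.2 ∈ degreeLT k r ∧ ν (x.1 * s ^ n - aeval τ x.2) < 1}
  add_mem' := by
    rintro x y ⟨h1, h2, h3⟩ ⟨h1', h2', h3'⟩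
    refine ⟨R.add_mem h1 h1', Submodule.add_mem _ h2 h2', ?_⟩
    have e : (x + y).1 * s ^ n - aeval τ (x + y).2 =
        (x.1 * s ^ n - aeval τ x.2) + (y.1 * s ^ n - aeval τ y.2) := by
      rw [Prod.fst_add, Prod.snd_add, map_add]
      ring
    rw [e]
    exact Valuation.map_add_lt _ h3 h3'
  zero_mem' := by
    refine ⟨R.zero_mem, Submodule.zero_mem _, ?_⟩
    simp
  smul_mem' := by
    rintro c x ⟨h1, h2, h3⟩
    refine ⟨R.smul_mem h1 c, Submodule.smul_mem _ c h2, ?_⟩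
    have e : (c • x).1 * s ^ n - aeval τ (c • x).2 =
        algebraMap k L c * (x.1 * s ^ n - aeval τ x.2) := by
      rw [Prod.smul_fst, Prod.smul_snd, map_smul, Algebra.smul_def, Algebra.smul_def]
      ring
    rw [e, map_mul]
    exact (mul_le_of_le_one_left' (val_le hk _)).trans_lt h3

theorem Data.V_fg (d : Data ν R s τ r g W0) (n : ℕ) : (V ν R d.hk s n).FG := by
  induction n with
  | zero =>
    have : V ν R d.hk s 0 = ⊥ := by
      rw [eq_bot_iff]
      rintro f ⟨hf, hlt⟩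
      by_contra hf0
      rw [Submodule.mem_bot] at hf0
      obtain ⟨W, p, hp, hpd, hc⟩ := d.h1 f hf hf0
      have h1 := d.val_lead hp hpd hc
      rw [pow_zero, mul_one] at hlt
      rw [map_mul, map_pow] at h1
      have h2 : ν s ^ W ≤ 1 := pow_le_one₀ zero_le d.hs.le
      exact absurd h1 ((mul_le_of_le_one_right' h2).trans_lt hlt).ne
    rw [this]
    exact Submodule.fg_bot
  | succ n ih =>
    have h1 : (DD ν R d.hk s τ r n).FG := by
      apply Submodule.fg_of_fg_map_of_fg_inf_ker (LinearMap.snd k L k[X])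
      · have hfin : Module.Finite k (degreeLT k r) :=
          Module.Finite.equiv (degreeLTEquiv k r).symm
        have hle : (DD ν R d.hk s τ r n).map (LinearMap.snd k L k[X]) ≤ degreeLT k r := by
          rintro _ ⟨x, hx, rfl⟩
          exact hx.2.1
        have : IsNoetherian k (degreeLT k r) := inferInstance
        exact isNoetherian_submodule.1 this _ hle
      · have : DD ν R d.hk s τ r n ⊓ LinearMap.ker (LinearMap.snd k L k[X]) =
            (V ν R d.hk s n).map (LinearMap.inl k L k[X]) := by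
          ext ⟨x, y⟩
          constructor
          · rintro ⟨⟨h1, h2, h3⟩, h4⟩
            have hy : y = 0 := h4
            subst hy
            refine ⟨x, ⟨h1, ?_⟩, rfl⟩
            simpa using h3
          · rintro ⟨x', ⟨h1, h2⟩, h3⟩
            simp only [LinearMap.coe_inl, Prod.mk.injEq] at h3
            obtain ⟨rfl, rfl⟩ := h3
            refine ⟨⟨h1, Submodule.zero_mem _, ?_⟩, rfl⟩
            simpa using h2
        rw [this]
        exact ih.map _
    have h2 : V ν R d.hk s (n + 1) = (DD ν R d.hk s τ r n).map (LinearMap.fst k L k[X]) := by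
      ext f
      constructor
      · rintro ⟨hf, hlt⟩
        by_cases hf0 : f = 0
        · rw [hf0]; exact Submodule.zero_mem _
        obtain ⟨W, p, hp, hpd, hc⟩ := d.h1 f hf hf0
        have h1 := d.val_lead hp hpd hc
        rcases (d.wt_le h1 hlt).lt_or_eq with hW | hW
        · refine ⟨(f, 0), ⟨hf, Submodule.zero_mem _, ?_⟩, rfl⟩
          simpa using d.lt_of_wt h1 hW
        · refine ⟨(f, p), ⟨hf, ?_, ?_⟩, rfl⟩
          · rw [mem_degreeLT]
            exact (natDegree_lt_iff_degree_lt hp).1 hpd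
          · rw [← hW]
            exact hc
      · rintro ⟨⟨x, y⟩, ⟨h1, h2, h3⟩, rfl⟩
        refine ⟨h1, ?_⟩
        have e : x * s ^ (n + 1) = s * ((x * s ^ n - aeval τ y) + aeval τ y) := by ring
        show ν (x * s ^ (n + 1)) < 1
        rw [e, map_mul]
        have h4 : ν ((x * s ^ n - aeval τ y) + aeval τ y) ≤ 1 :=
          (Valuation.map_add _ _ _).trans (max_le h3.le (aeval_le d.hk d.hτ _))
        exact (mul_le_of_le_one_right' h4).trans_lt d.hs
    rw [h2]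
    exact h1.map _

end

end Pool.Agent.Y68.Grd
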