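import Pool.Agent.Y68.Grd2

/-!
From graded data to a weighted-nondegenerate plane model: integrality and the equation.
-/

set_option autoImplicit false

open Finset Polynomial

namespace Pool.Agent.Y68.Grd

variable {k L Γ : Type*} [Field k] [Field L] [Algebra k L] [LinearOrderedCommGroupWithZero Γ]
variable {ν : Valuation L Γ}

theorem aeval_ne_zero (hk : ∀ x : k, x ≠ 0 → ν (algebraMap k L x) = 1) {u : L} (hu : 1 < ν u)
    {p : k[X]} (hp : p ≠ 0) : aeval u p ≠ 0 := by
  have hu0 : ν u ≠ 0 := (zero_lt_one.trans hu).ne'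
  rw [aeval_eq_sum_range, sum_range_succ]
  have h1 : ν (∑ i ∈ range p.natDegree, p.coeff i • u ^ i) <
      ν (p.coeff p.natDegree • u ^ p.natDegree) := by
    rw [coeff_natDegree, Algebra.smul_def, map_mul, hk _ (leadingCoeff_ne_zero.2 hp), one_mul,
      map_pow]
    apply Valuation.map_sum_lt _ (pow_ne_zero _ hu0)
    intro i hi
    rw [Algebra.smul_def, map_mul, map_pow]
    exact (mul_le_of_le_one_left' (val_le hk _)).trans_lt (pow_lt_pow_right₀ hu (mem_range.1 hi))
  intro h0
  have h2 := Valuation.map_add_eq_of_lt_right _ h1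
  rw [h0, map_zero, coeff_natDegree, Algebra.smul_def, map_mul,
    hk _ (leadingCoeff_ne_zero.2 hp), one_mul, map_pow] at h2
  exact pow_ne_zero _ hu0 h2.symm

theorem ord3 {a b : Γ} {N r i j : ℕ} (ha : 1 < a) (hab : b ^ N = a ^ (N + 1))
    (hw : N * i + (N + 1) * j < N * (N + 1) * r) :
    a ^ i * b ^ j < a ^ ((N + 1) * r) := by
  by_contra hcon
  rw [not_lt] at hcon
  have h1 : (a ^ ((N + 1) * r)) ^ N ≤ (a ^ i * b ^ j) ^ N := pow_le_pow_left₀ zero_le hcon _
  have h2 : (a ^ i * b ^ j) ^ N = a ^ (N * i + (N + 1) * j) := by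
    have e1 : (a ^ i * b ^ j) ^ N = a ^ (N * i) * (b ^ N) ^ j := by
      rw [mul_pow, ← pow_mul, ← pow_mul, ← pow_mul, mul_comm i, mul_comm j]
    rw [e1, hab, ← pow_mul, ← pow_add]
  have h3 : a ^ (N * i + (N + 1) * j) < a ^ (N * (N + 1) * r) := pow_lt_pow_right₀ ha hw
  have h4 : (a ^ ((N + 1) * r)) ^ N = a ^ (N * (N + 1) * r) := by
    rw [← pow_mul]; congr 1; ring
  rw [h4, h2] at h1
  exact absurd h3 (not_lt.2 h1)

theorem q_small (hk : ∀ x : k, x ≠ 0 → ν (algebraMap k L x) = 1) {u v : L} {N r : ℕ}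
    (ha : 1 < ν u) (hN : 1 ≤ N) {c : ℕ → ℕ → k} {Q : k[X]}
    (hc : ∀ i j, c i j ≠ 0 → j < N * r ∧ N * i + (N + 1) * j ≤ N * (N + 1) * r)
    (hG : v ^ (N * r) + ∑ j ∈ range (N * r), ∑ i ∈ range ((N + 1) * r + 1),
        algebraMap k L (c i j) * u ^ i * v ^ j = 0)
    (hQm : Q.Monic) (hQr : Q.natDegree = r)
    (hQc : ∀ l < r, Q.coeff l = c ((N + 1) * (r - l)) (N * l))
    (hpow : ν v ^ N = ν u ^ (N + 1)) :
    ν (aeval (v ^ N / u ^ (N + 1)) Q) < 1 := by
  have ha0 : ν u ≠ 0 := (zero_lt_one.trans ha).ne'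
  have hu0 : u ≠ 0 := by
    rintro rfl
    exact ha0 (map_zero _)
  have key : u ^ ((N + 1) * r) * aeval (v ^ N / u ^ (N + 1)) Q =
      - ∑ x ∈ ((range (N * r)) ×ˢ (range ((N + 1) * r + 1))).filter
        (fun x => ¬ N * x.2 + (N + 1) * x.1 = N * (N + 1) * r),
        algebraMap k L (c x.2 x.1) * u ^ x.2 * v ^ x.1 := by
    rw [aeval_eq_sum_range, hQr, sum_range_succ, ← hQr, hQm.coeff_natDegree, hQr,
      one_smul, mul_add, mul_sum]
    have e1 : u ^ ((N + 1) * r) * (v ^ N / u ^ (N + 1)) ^ r = v ^ (N * r) := by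
      rw [div_pow, ← pow_mul, ← pow_mul, mul_div_cancel₀]
      exact pow_ne_zero _ hu0
    have e2 : ∑ l ∈ range r, u ^ ((N + 1) * r) * (Q.coeff l • (v ^ N / u ^ (N + 1)) ^ l) =
        ∑ x ∈ ((range (N * r)) ×ˢ (range ((N + 1) * r + 1))).filter
        (fun x => N * x.2 + (N + 1) * x.1 = N * (N + 1) * r),
        algebraMap k L (c x.2 x.1) * u ^ x.2 * v ^ x.1 := by
      apply sum_of_injOn (fun l => (N * l, (N + 1) * (r - l)))
      · intro l _ l' _ hll
        simp only [Prod.mk.injEq] at hll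
        exact Nat.eq_of_mul_eq_mul_left hN hll.1
      · intro l hl
        rw [mem_coe, mem_range] at hl
        rw [mem_coe, mem_filter, mem_product, mem_range, mem_range]
        refine ⟨⟨Nat.mul_lt_mul_of_pos_left hl hN, ?_⟩, ?_⟩
        · apply Nat.lt_succ_of_le
          exact Nat.mul_le_mul_left _ (Nat.sub_le _ _)
        · obtain ⟨m, rfl⟩ := Nat.exists_eq_add_of_lt hl
          have : l + m + 1 - l = m + 1 := by omega
          simp only
          rw [this]
          ring
      · rintro ⟨j, i⟩ hx hnot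
        rw [mem_filter, mem_product, mem_range, mem_range] at hx
        simp only
        by_contra hne
        have hcne : c i j ≠ 0 := by
          intro h0
          rw [h0, map_zero, zero_mul, zero_mul] at hne
          exact hne rfl
        apply hnot
        have hdvd : N ∣ (N + 1) * j := by
          have : (N + 1) * j = N * ((N + 1) * r) - N * i := by
            have := hx.2
            simp only at this
            rw [← mul_assoc]; omega
          rw [this]
          exact Nat.dvd_sub (Dvd.intro _ rfl) (Dvd.intro _ rfl)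
        have hcop : Nat.Coprime N (N + 1) := by simp
        obtain ⟨l, rfl⟩ := hcop.dvd_of_dvd_mul_left hdvd
        have hl : l < r := by
          have := (hc i _ hcne).1
          exact Nat.lt_of_mul_lt_mul_left this
        refine ⟨l, mem_coe.2 (mem_range.2 hl), ?_⟩
        have h5 := hx.2
        simp only at h5
        have h6 : N * i = N * ((N + 1) * (r - l)) := by
          obtain ⟨m, rfl⟩ := Nat.exists_eq_add_of_lt hl
          have : l + m + 1 - l = m + 1 := by omega
          rw [this]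
          have e : N * (N + 1) * (l + m + 1) = N * ((N + 1) * (m + 1)) + (N + 1) * (N * l) := by
            ring
          omega
        simp only [Prod.mk.injEq, true_and]
        exact (Nat.eq_of_mul_eq_mul_left hN h6).symm
      · intro l hl
        rw [mem_range] at hl
        simp only
        rw [hQc l hl, Algebra.smul_def, div_pow, ← pow_mul, ← pow_mul]
        have e3 : u ^ ((N + 1) * r) = u ^ ((N + 1) * (r - l)) * u ^ ((N + 1) * l) := by
          rw [← pow_add, ← Nat.mul_add, Nat.sub_add_cancel hl.le]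
        rw [e3]
        have : u ^ ((N + 1) * l) ≠ 0 := pow_ne_zero _ hu0
        field_simp
    rw [e1, e2]
    rw [← sum_product', ← sum_filter_add_sum_filter_not _
      (fun x => N * x.2 + (N + 1) * x.1 = N * (N + 1) * r)] at hG
    linear_combination hG
  have h1 : ν (u ^ ((N + 1) * r) * aeval (v ^ N / u ^ (N + 1)) Q) <
      ν u ^ ((N + 1) * r) := by
    rw [key, Valuation.map_neg]
    apply Valuation.map_sum_lt _ (pow_ne_zero _ ha0)
    rintro ⟨j, i⟩ hx
    rw [mem_filter] at hx
    by_cases hcz : c i j = 0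
    · simp only [hcz, map_zero, zero_mul]
      exact zero_lt_iff.2 (pow_ne_zero _ ha0)
    · simp only
      rw [map_mul, map_mul, hk _ hcz, one_mul, map_pow, map_pow]
      exact ord3 ha hpow (lt_of_le_of_ne (hc i j hcz).2 hx.2)
  rw [map_mul, map_pow] at h1
  have h2 : 0 < ν u ^ ((N + 1) * r) := zero_lt_iff.2 (pow_ne_zero _ ha0)
  exact (mul_lt_iff_lt_one_right h2).1 h1

section

variable {R : Subalgebra k L} {s τ : L} {r : ℕ} {g : k[X]} {W0 : ℕ} {N : ℕ} {u v : L}

/-- value of a combination of monomials in a box -/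
theorem Data.val_box (d : Data ν R s τ r g W0) (h : UV ν R s τ N u v) (hN : 1 ≤ N)
    (c : ℕ → ℕ → k) (I : ℕ) (hne : ∃ i < I, ∃ j < N * r, c i j ≠ 0) :
    ∃ W : ℕ, (∃ i j, c i j ≠ 0 ∧ N * i + (N + 1) * j = W) ∧
      (∀ i < I, ∀ j < N * r, c i j ≠ 0 → N * i + (N + 1) * j ≤ W) ∧
      ν (∑ j ∈ range (N * r), ∑ i ∈ range I, algebraMap k L (c i j) * u ^ i * v ^ j) =
        ν (v / u) ^ W := by
  classical
  obtain ⟨i, hi, j, hj, hij⟩ := hne
  obtain ⟨W, ⟨p, hp, hpW⟩, h2, h3⟩ := val_sum d.hk (d.u_ne h) (d.v_ne h) hN d.hr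
    (d.one_lt_u h hN) (d.hpow h) d.hgi d.hgr (d.g_t h)
    (((range I) ×ˢ (range (N * r))).filter (fun p => c p.1 p.2 ≠ 0))
    ⟨(i, j), mem_filter.2 ⟨mem_product.2 ⟨mem_range.2 hi, mem_range.2 hj⟩, hij⟩⟩
    (fun p => c p.1 p.2)
    (fun p hp => ⟨mem_range.1 (mem_product.1 (mem_filter.1 hp).1).2, (mem_filter.1 hp).2⟩)
  refine ⟨W, ⟨p.1, p.2, (mem_filter.1 hp).2, hpW⟩, ?_, ?_⟩
  · intro i hi j hj hij
    exact h2 (i, j) (mem_filter.2 ⟨mem_product.2 ⟨mem_range.2 hi, mem_range.2 hj⟩, hij⟩)
  · rw [← h3, sum_comm, ← sum_product', sum_filter]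
    congr 1
    apply sum_congr rfl
    intro p _
    by_cases h0 : c p.1 p.2 = 0
    · rw [if_neg (fun hh => hh h0), h0, map_zero, zero_mul, zero_mul]
    · rw [if_pos h0, mul_assoc]

theorem S_repr {n : ℕ} (y : L) (hy : y ∈ S k u v n) :
    ∃ A : ℕ → k[X], y = ∑ j ∈ range n, aeval u (A j) * v ^ j := by
  unfold S at hy
  induction hy using Submodule.span_induction with
  | mem x hx =>
    obtain ⟨⟨⟨i, j⟩, hj⟩, rfl⟩ := hx
    refine ⟨fun j' => if j' = j then X ^ i else 0, ?_⟩
    rw [sum_eq_single j]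
    · simp
    · intro j' _ hne
      simp only
      rw [if_neg hne, map_zero, zero_mul]
    · intro hnot
      exact absurd (mem_range.2 hj) hnot
  | zero => exact ⟨fun _ => 0, by simp⟩
  | add x y _ _ hx hy =>
    obtain ⟨A, hA⟩ := hx
    obtain ⟨B, hB⟩ := hy
    refine ⟨fun j => A j + B j, ?_⟩
    rw [hA, hB, ← sum_add_distrib]
    apply sum_congr rfl
    intro j _
    rw [map_add, add_mul]
  | smul a x _ hx =>
    obtain ⟨A, hA⟩ := hx
    refine ⟨fun j => a • A j, ?_⟩
    rw [hA, smul_sum]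
    apply sum_congr rfl
    intro j _
    rw [map_smul, smul_mul_assoc]

theorem S_mul {n : ℕ} (p : k[X]) (y : L) (hy : y ∈ S k u v n) : aeval u p * y ∈ S k u v n := by
  have h1 : ∀ i : ℕ, ∀ y ∈ S k u v n, u ^ i * y ∈ S k u v n := by
    intro i y hy
    unfold S at hy
    induction hy using Submodule.span_induction with
    | mem x hx =>
      obtain ⟨⟨⟨i', j⟩, hj⟩, rfl⟩ := hx
      have : u ^ i * (u ^ i' * v ^ j) = u ^ (i + i') * v ^ j := by rw [pow_add, mul_assoc]
      simp only
      rw [this]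
      exact mem_S _ _ hj
    | zero => rw [mul_zero]; exact Submodule.zero_mem _
    | add x y _ _ hx hy => rw [mul_add]; exact Submodule.add_mem _ hx hy
    | smul a x _ hx => rw [mul_smul_comm]; exact Submodule.smul_mem _ _ hx
  rw [aeval_eq_sum_range, sum_mul]
  apply Submodule.sum_mem
  intro i _
  rw [smul_mul_assoc]
  exact Submodule.smul_mem _ _ (h1 i y hy)

/-- every element of `R` is killed by a polynomial in `u`, modulo the monomials -/
theorem Data.exists_kill (d : Data ν R s τ r g W0) (h : UV ν R s τ N u v) (hN : 1 ≤ N) (x : L)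
    (hx : x ∈ R) : ∃ p : k[X], p ≠ 0 ∧ aeval u p * x ∈ S k u v (N * r) := by
  by_contra hcon
  push Not at hcon
  let Φ : k[X] →ₗ[k] L ⧸ S k u v (N * r) :=
    (S k u v (N * r)).mkQ ∘ₗ (LinearMap.mulRight k x) ∘ₗ (aeval u).toLinearMap
  have hΦ : ∀ p, Φ p = (S k u v (N * r)).mkQ (aeval u p * x) := fun p => rfl
  have hinj : Function.Injective Φ := by
    rw [injective_iff_map_eq_zero]
    intro p hp
    by_contra hp0
    rw [hΦ, Submodule.mkQ_apply, Submodule.Quotient.mk_eq_zero] at hp
    exact hcon p hp0 hp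
  have hfg : ((V ν R d.hk s (N * (N + 1) * r)).map (S k u v (N * r)).mkQ).FG :=
    (d.V_fg _).map _
  have hmem : ∀ p, Φ p ∈ (V ν R d.hk s (N * (N + 1) * r)).map (S k u v (N * r)).mkQ := by
    intro p
    have h1 : aeval u p * x ∈ R := by
      apply R.mul_mem _ hx
      have : Algebra.adjoin k {u} ≤ R := Algebra.adjoin_le (by
        rintro _ rfl
        exact h.hu)
      exact this (aeval_mem_adjoin_singleton k u)
    obtain ⟨y, hy, z, hz, hyz⟩ := Submodule.mem_sup.1 (d.mem_sup h hN _ h1)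
    refine ⟨z, hz, ?_⟩
    rw [hΦ, ← hyz, map_add, Submodule.mkQ_apply _ y, (Submodule.Quotient.mk_eq_zero _).2 hy,
      zero_add]
  have hfin : Module.Finite k ((V ν R d.hk s (N * (N + 1) * r)).map (S k u v (N * r)).mkQ) :=
    Module.Finite.iff_fg.2 hfg
  have hinj' : Function.Injective (Φ.codRestrict _ hmem) := by
    intro p q hpq
    exact hinj (congrArg Subtype.val hpq)
  have := Module.Finite.of_injective (Φ.codRestrict _ hmem) hinj'
  exact Polynomial.not_finite this

/-- integrality over the polynomial ring in `u` -/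
theorem Data.integral (d : Data ν R s τ r g W0) (h : UV ν R s τ N u v) (hN : 1 ≤ N) (x : L)
    (hx : x ∈ R) : (aeval u : k[X] →ₐ[k] L).toRingHom.IsIntegralElem x := by
  let _ : Algebra k[X] L := (aeval u : k[X] →ₐ[k] L).toRingHom.toAlgebra
  have hsmul : ∀ (p : k[X]) (y : L), p • y = aeval u p * y := fun p y => rfl
  have hRu : ∀ p : k[X], aeval u p ∈ R := by
    intro p
    have : Algebra.adjoin k {u} ≤ R := Algebra.adjoin_le (by
      rintro _ rfl
      exact h.hu)
    exact this (aeval_mem_adjoin_singleton k u)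
  obtain ⟨G, hG⟩ := d.V_fg (N * (N + 1) * r)
  let M : Submodule k[X] L := Submodule.span k[X] (↑G ∪ Set.range (fun j : Fin (N * r) =>
    v ^ (j : ℕ)))
  have hMfg : M.FG := Submodule.fg_span (G.finite_toSet.union (Set.finite_range _))
  have hkM : ∀ (c : k) (y : L), y ∈ M → c • y ∈ M := by
    intro c y hy
    have : c • y = (C c : k[X]) • y := by
      rw [hsmul, aeval_C, Algebra.smul_def]
    rw [this]
    exact M.smul_mem _ hy
  have hRM : ∀ y ∈ R, y ∈ M := by
    intro y hy
    obtain ⟨a, ha, b, hb, hab⟩ := Submodule.mem_sup.1 (d.mem_sup h hN _ hy)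
    rw [← hab]
    clear hab
    apply M.add_mem
    · unfold S at ha
      induction ha using Submodule.span_induction with
      | mem x hx =>
        obtain ⟨⟨⟨i, j⟩, hj⟩, rfl⟩ := hx
        have e : u ^ i * v ^ j = (X ^ i : k[X]) • v ^ j := by
          rw [hsmul, map_pow, aeval_X]
        simp only
        rw [e]
        apply M.smul_mem
        exact Submodule.subset_span (Or.inr ⟨⟨j, hj⟩, rfl⟩)
      | zero => exact M.zero_mem
      | add x y _ _ hx hy => exact M.add_mem hx hy
      | smul a x _ hx => exact hkM _ _ hx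
    · rw [← hG] at hb
      induction hb using Submodule.span_induction with
      | mem x hx => exact Submodule.subset_span (Or.inl hx)
      | zero => exact M.zero_mem
      | add x y _ _ hx hy => exact M.add_mem hx hy
      | smul a x _ hx => exact hkM _ _ hx
  have hMR : ∀ y ∈ M, y ∈ R := by
    intro y hy
    induction hy using Submodule.span_induction with
    | mem x hx =>
      rcases hx with hx | ⟨j, rfl⟩
      · have : x ∈ V ν R d.hk s (N * (N + 1) * r) := by
          rw [← hG]; exact Submodule.subset_span hx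
        exact this.1
      · exact R.pow_mem h.hv _
    | zero => exact R.zero_mem
    | add x y _ _ hx hy => exact R.add_mem hx hy
    | smul a x _ hx =>
      rw [hsmul]
      exact R.mul_mem (hRu a) hx
  have hM0 : M ≠ ⊥ := by
    intro h0
    have : (1 : L) ∈ M := hRM 1 R.one_mem
    rw [h0, Submodule.mem_bot] at this
    exact one_ne_zero this
  have : IsIntegral k[X] x := isIntegral_of_smul_mem_submodule M hM0 hMfg x (by
    intro n hn
    rw [smul_eq_mul]
    exact hRM _ (R.mul_mem hx (hMR n hn)))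
  exact this

/-- the equation of the model -/
theorem Data.equation (d : Data ν R s τ r g W0) (h : UV ν R s τ N u v) (hN : 1 ≤ N) :
    ∃ c : ℕ → ℕ → k, (∀ i j, c i j ≠ 0 → j < N * r ∧ N * i + (N + 1) * j ≤ N * (N + 1) * r) ∧
      v ^ (N * r) + ∑ j ∈ range (N * r), ∑ i ∈ range ((N + 1) * r + 1),
        algebraMap k L (c i j) * u ^ i * v ^ j = 0 ∧
      (∀ l < r, g.coeff l = c ((N + 1) * (r - l)) (N * l)) := by
  classical
  have hr := d.hr
  have hNr : 0 < N * r := Nat.mul_pos hN hr
  have hu1 := d.one_lt_u h hN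
  have hvu : 1 < ν (v / u) := one_lt_s hu1 (d.hpow h)
  have hvv : ν v = ν (v / u) ^ (N + 1) := by
    have h2 := d.val_vs h
    rw [map_mul, map_pow] at h2
    rw [d.val_vu h, inv_pow]
    exact eq_inv_of_mul_eq_one_left h2
  let _ : Algebra k[X] L := (aeval u : k[X] →ₐ[k] L).toRingHom.toAlgebra
  have halg : ∀ (p : k[X]), algebraMap k[X] L p = aeval u p := fun p => rfl
  have hsmul : ∀ (p : k[X]) (y : L), p • y = aeval u p * y := fun p y => rfl
  have hint : IsIntegral k[X] v := d.integral h hN v h.hv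
  have htf : Module.IsTorsionFree k[X] L := by
    apply Module.IsTorsionFree.of_smul_eq_zero
    intro p y hpy
    rw [hsmul, mul_eq_zero] at hpy
    rcases hpy with h1 | h1
    · left
      by_contra hp
      exact aeval_ne_zero d.hk hu1 hp h1
    · exact Or.inr h1
  obtain ⟨μ, hμ⟩ : ∃ μ, μ = minpoly k[X] v := ⟨_, rfl⟩
  have hμm : μ.Monic := hμ ▸ minpoly.monic hint
  have hμ0 : aeval v μ = 0 := hμ ▸ minpoly.aeval k[X] v
  -- independence
  have hindep : ∀ q : k[X][X], q ≠ 0 → q.natDegree < N * r → aeval v q ≠ 0 := by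
    intro q hq hqd h0
    rw [aeval_eq_sum_range' hqd] at h0
    obtain ⟨I, hI⟩ : ∃ I, ∀ j < N * r, (q.coeff j).natDegree < I := by
      refine ⟨(range (N * r)).sup (fun j => (q.coeff j).natDegree) + 1, fun j hj => ?_⟩
      apply Nat.lt_succ_of_le
      exact Finset.le_sup (f := fun j => (q.coeff j).natDegree) (mem_range.2 hj)
    have h1 : ∑ j ∈ range (N * r), ∑ i ∈ range I,
        algebraMap k L ((q.coeff j).coeff i) * u ^ i * v ^ j = 0 := by
      rw [← h0]
      apply sum_congr rfl
      intro j hj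
      rw [hsmul, aeval_eq_sum_range' (hI j (mem_range.1 hj)), sum_mul]
      apply sum_congr rfl
      intro i _
      rw [Algebra.smul_def]
    have hlc : (q.coeff q.natDegree).coeff (q.coeff q.natDegree).natDegree ≠ 0 :=
      leadingCoeff_ne_zero.2 (leadingCoeff_ne_zero.2 hq)
    obtain ⟨W, -, -, hW⟩ := d.val_box h hN (fun i j => (q.coeff j).coeff i) I
      ⟨_, hI _ hqd, _, hqd, hlc⟩
    rw [h1, map_zero] at hW
    exact pow_ne_zero _ (zero_lt_one.trans hvu).ne' hW.symm
  have hge : N * r ≤ μ.natDegree := by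
    by_contra hcon
    rw [not_le] at hcon
    exact hindep μ hμm.ne_zero hcon hμ0
  have hle : μ.natDegree ≤ N * r := by
    obtain ⟨p, hp, hpS⟩ := d.exists_kill h hN (v ^ (N * r)) (R.pow_mem h.hv _)
    obtain ⟨A, hA⟩ := S_repr _ hpS
    obtain ⟨P, hP⟩ : ∃ P : k[X][X], P = C p * X ^ (N * r) - ∑ j ∈ range (N * r), C (A j) * X ^ j :=
      ⟨_, rfl⟩
    have hP0 : aeval v P = 0 := by
      rw [hP, map_sub, map_mul, aeval_C, map_pow, aeval_X, halg, hA, map_sum, sub_eq_zero]
      apply sum_congr rfl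
      intro j _
      rw [map_mul, aeval_C, map_pow, aeval_X, halg]
    have hsum : (∑ j ∈ range (N * r), C (A j) * X ^ j : k[X][X]).coeff (N * r) = 0 := by
      rw [finsetSum_coeff]
      apply sum_eq_zero
      intro j hj
      rw [coeff_C_mul, coeff_X_pow, if_neg (mem_range.1 hj).ne', mul_zero]
    have hPne : P ≠ 0 := by
      intro h0
      have h1 := congrArg (fun q : k[X][X] => q.coeff (N * r)) h0
      simp only [coeff_zero] at h1
      rw [hP, coeff_sub, hsum, sub_zero, coeff_C_mul, coeff_X_pow, if_pos rfl, mul_one] at h1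
      exact hp h1
    have hPd : P.natDegree ≤ N * r := by
      rw [hP]
      refine (natDegree_sub_le _ _).trans (max_le (natDegree_C_mul_X_pow_le _ _) ?_)
      apply natDegree_sum_le_of_forall_le
      intro j hj
      exact (natDegree_C_mul_X_pow_le _ _).trans (mem_range.1 hj).le
    have hdvd : μ ∣ P := hμ ▸ minpoly.isIntegrallyClosed_dvd hint hP0
    exact (natDegree_le_of_dvd hdvd hPne).trans hPd
  have hμd : μ.natDegree = N * r := le_antisymm hle hge
  obtain ⟨c, hcdef⟩ : ∃ c : ℕ → ℕ → k, c = fun i j => if j < N * r then (μ.coeff j).coeff i else 0 :=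
    ⟨_, rfl⟩
  have hc1 : ∀ i j, j < N * r → c i j = (μ.coeff j).coeff i := by
    intro i j hj
    rw [hcdef]
    exact if_pos hj
  have hc2 : ∀ i j, c i j ≠ 0 → j < N * r := by
    intro i j hij
    by_contra hj
    rw [hcdef] at hij
    exact hij (if_neg hj)
  have hrel : v ^ (N * r) + ∑ j ∈ range (N * r), aeval u (μ.coeff j) * v ^ j = 0 := by
    rw [aeval_eq_sum_range, hμd, sum_range_succ, ← hμd, hμm.coeff_natDegree, hμd, one_smul] at hμ0
    rw [add_comm]
    exact hμ0
  have hwt : ∀ i j, c i j ≠ 0 → N * i + (N + 1) * j ≤ N * (N + 1) * r := by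
    intro i j hij
    obtain ⟨I, hI⟩ : ∃ I, ∀ j < N * r, (μ.coeff j).natDegree < I := by
      refine ⟨(range (N * r)).sup (fun j => (μ.coeff j).natDegree) + 1, fun j hj => ?_⟩
      apply Nat.lt_succ_of_le
      exact Finset.le_sup (f := fun j => (μ.coeff j).natDegree) (mem_range.2 hj)
    have hj := hc2 i j hij
    have hi : i < I := by
      by_contra hcon
      rw [hc1 i j hj] at hij
      exact hij (coeff_eq_zero_of_natDegree_lt ((hI j hj).trans_le (not_lt.1 hcon)))
    obtain ⟨W, -, hW2, hW3⟩ := d.val_box h hN c I ⟨i, hi, j, hj, hij⟩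
    have h1 : ∑ j ∈ range (N * r), ∑ i ∈ range I, algebraMap k L (c i j) * u ^ i * v ^ j =
        - v ^ (N * r) := by
      have e : ∑ j ∈ range (N * r), ∑ i ∈ range I, algebraMap k L (c i j) * u ^ i * v ^ j =
          ∑ j ∈ range (N * r), aeval u (μ.coeff j) * v ^ j := by
        apply sum_congr rfl
        intro j hj
        rw [aeval_eq_sum_range' (hI j (mem_range.1 hj)), sum_mul]
        apply sum_congr rfl
        intro i _
        rw [hc1 i j (mem_range.1 hj), Algebra.smul_def]
      rw [e]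
      linear_combination hrel
    rw [h1, Valuation.map_neg, map_pow, hvv, ← pow_mul] at hW3
    have h2 : (N + 1) * (N * r) = W :=
      pow_right_injective₀ (zero_lt_one.trans hvu) hvu.ne' hW3
    have h3 := hW2 i hi j hj hij
    rw [← h2] at h3
    exact h3.trans (le_of_eq (by ring))
  have hdeg : ∀ j < N * r, (μ.coeff j).natDegree < (N + 1) * r + 1 := by
    intro j hj
    by_cases h0 : μ.coeff j = 0
    · rw [h0, natDegree_zero]; exact Nat.succ_pos _
    · have h1 : c (μ.coeff j).natDegree j ≠ 0 := by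
        rw [hc1 _ _ hj]
        exact leadingCoeff_ne_zero.2 h0
      have h2 := hwt _ _ h1
      have h3 : N * (μ.coeff j).natDegree ≤ N * ((N + 1) * r) := by
        rw [← mul_assoc]
        exact (Nat.le_add_right _ _).trans h2
      exact Nat.lt_succ_of_le (Nat.le_of_mul_le_mul_left h3 hN)
  have hfinal : v ^ (N * r) + ∑ j ∈ range (N * r), ∑ i ∈ range ((N + 1) * r + 1),
        algebraMap k L (c i j) * u ^ i * v ^ j = 0 := by
    rw [← hrel]
    congr 1
    apply sum_congr rfl
    intro j hj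
    rw [aeval_eq_sum_range' (hdeg j (mem_range.1 hj)), sum_mul]
    apply sum_congr rfl
    intro i _
    rw [hc1 i j (mem_range.1 hj), Algebra.smul_def]
  have hcc : ∀ i j, c i j ≠ 0 → j < N * r ∧ N * i + (N + 1) * j ≤ N * (N + 1) * r :=
    fun i j hij => ⟨hc2 i j hij, hwt i j hij⟩
  refine ⟨c, hcc, hfinal, ?_⟩
  obtain ⟨Q0, hQ0⟩ : ∃ Q0 : k[X], Q0 = ∑ l ∈ range r, C (c ((N + 1) * (r - l)) (N * l)) * X ^ l :=
    ⟨_, rfl⟩
  have hQ0d : Q0.degree < r := by
    have : Q0 ∈ degreeLT k r := by
      rw [hQ0]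
      apply Submodule.sum_mem
      intro l hl
      rw [mem_degreeLT]
      refine lt_of_le_of_lt (degree_C_mul_X_pow_le _ _) ?_
      rw [Nat.cast_lt]
      exact mem_range.1 hl
    exact mem_degreeLT.1 this
  have hQm : (X ^ r + Q0).Monic := monic_X_pow_add hQ0d
  have hQd : (X ^ r + Q0).natDegree = r := by
    rw [natDegree_eq_of_degree_eq_some]
    rw [degree_add_eq_left_of_degree_lt, degree_X_pow]
    rw [degree_X_pow]
    exact hQ0d
  have hQc : ∀ l < r, (X ^ r + Q0).coeff l = c ((N + 1) * (r - l)) (N * l) := by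
    intro l hl
    rw [coeff_add, coeff_X_pow, if_neg hl.ne, zero_add, hQ0, finsetSum_coeff, sum_eq_single l]
    · rw [coeff_C_mul, coeff_X_pow, if_pos rfl, mul_one]
    · intro l' _ hne
      rw [coeff_C_mul, coeff_X_pow, if_neg hne.symm, mul_zero]
    · intro hnot
      exact absurd (mem_range.2 hl) hnot
  have hsmall := q_small d.hk hu1 hN hcc hfinal hQm hQd hQc (d.hpow h)
  have hgs := d.g_t h
  have hdiff : ν (aeval (v ^ N / u ^ (N + 1)) (X ^ r + Q0 - g)) < 1 := by
    rw [map_sub]
    exact lt_of_le_of_lt (Valuation.map_sub _ _ _) (max_lt hsmall hgs)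
  have heq : X ^ r + Q0 = g := by
    by_contra hne
    have hne' : X ^ r + Q0 - g ≠ 0 := sub_ne_zero.2 hne
    have hlt : (X ^ r + Q0 - g).degree < (X ^ r + Q0).degree := by
      apply degree_sub_lt_left
      · rw [degree_eq_natDegree hQm.ne_zero, degree_eq_natDegree d.hgm.ne_zero, hQd, d.hgr]
      · exact hQm.ne_zero
      · rw [hQm.leadingCoeff, d.hgm.leadingCoeff]
    have hlt' : (X ^ r + Q0 - g).natDegree < g.natDegree := by
      have h7 := natDegree_lt_natDegree hne' hlt
      rw [hQd] at h7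
      rw [d.hgr]
      exact h7
    have := aeval_eq_one d.hk (d.val_t h).le d.hgi hgs (not_dvd_of_natDegree hne' hlt')
    exact hdiff.ne this
  intro l hl
  rw [← hQc l hl, heq]

end

end Pool.Agent.Y68.Grd
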