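import Pool.Agent.Y68.Lat709A
import Pool.Agent.Y709.Stm

/-!
Saturated lattices for `q`-th powers.
-/

set_option autoImplicit false

open Polynomial

namespace Pool.Agent.Y68

theorem lat (k : Type) [Field k] [Fintype k] (q : ℕ) (hq : Fintype.card k = q) :
    Pool.Agent.Y709.LatProp k q := by
  intro v₁ v₂ h
  have hq0 : 0 < q := hq ▸ Fintype.card_pos
  exact Lat.main hq0 v₁ v₂ h

end Pool.Agent.Y68
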