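import Mathlib
import Pool.Agent.Y709.Cart

/-!
Saturated lattices for `q`-th powers: reduced bases.
-/

set_option autoImplicit false

open Polynomial

namespace Pool.Agent.Y68.Lat

open Pool.Agent.Y709

variable {k : Type} [Field k]

/-- `g` lies in the saturated lattice spanned by `v₁`, `v₂`. -/
def InS (q : ℕ) (v₁ v₂ g : k[X]) : Prop :=
  ∃ b a₁ a₂ : k[X], b ≠ 0 ∧ expand k q b * g = expand k q a₁ * v₁ + expand k q a₂ * v₂

/-- `g` is proportional to `n`. -/
def Rel (q : ℕ) (g n : k[X]) : Prop :=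
  ∃ b a : k[X], b ≠ 0 ∧ expand k q b * g = expand k q a * n

theorem expand_ne_zero' {q : ℕ} (hq : 0 < q) {a : k[X]} (ha : a ≠ 0) : expand k q a ≠ 0 := by
  intro h
  exact ha ((expand_eq_zero hq).1 h)

theorem natDegree_term {q : ℕ} (hq : 0 < q) {a n : k[X]} (ha : a ≠ 0) (hn : n ≠ 0) :
    (expand k q a * n).natDegree = q * a.natDegree + n.natDegree := by
  rw [natDegree_mul (expand_ne_zero' hq ha) hn, natDegree_expand, mul_comm]

theorem InS.sub {q : ℕ} {v₁ v₂ g h : k[X]} (hg : InS q v₁ v₂ g) (hh : InS q v₁ v₂ h) :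
    InS q v₁ v₂ (g - h) := by
  obtain ⟨b, a₁, a₂, hb, e⟩ := hg
  obtain ⟨b', a₁', a₂', hb', e'⟩ := hh
  refine ⟨b * b', b' * a₁ - b * a₁', b' * a₂ - b * a₂', mul_ne_zero hb hb', ?_⟩
  simp only [map_mul, map_sub]
  linear_combination (expand k q b') * e - (expand k q b) * e'

theorem InS.add {q : ℕ} {v₁ v₂ g h : k[X]} (hg : InS q v₁ v₂ g) (hh : InS q v₁ v₂ h) :
    InS q v₁ v₂ (g + h) := by
  obtain ⟨b, a₁, a₂, hb, e⟩ := hg
  obtain ⟨b', a₁', a₂', hb', e'⟩ := hh
  refine ⟨b * b', b' * a₁ + b * a₁', b' * a₂ + b * a₂', mul_ne_zero hb hb', ?_⟩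
  simp only [map_mul, map_add]
  linear_combination (expand k q b') * e + (expand k q b) * e'

theorem InS.expand_mul {q : ℕ} {v₁ v₂ g : k[X]} (hg : InS q v₁ v₂ g) (h : k[X]) :
    InS q v₁ v₂ (expand k q h * g) := by
  obtain ⟨b, a₁, a₂, hb, e⟩ := hg
  refine ⟨b, h * a₁, h * a₂, hb, ?_⟩
  simp only [map_mul]
  linear_combination (expand k q h) * e

theorem InS.of_expand_mul {q : ℕ} {v₁ v₂ g h : k[X]} (hh : h ≠ 0)
    (hg : InS q v₁ v₂ (expand k q h * g)) : InS q v₁ v₂ g := by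
  obtain ⟨b, a₁, a₂, hb, e⟩ := hg
  refine ⟨b * h, a₁, a₂, mul_ne_zero hb hh, ?_⟩
  simp only [map_mul]
  linear_combination e

theorem inS_left {q : ℕ} (v₁ v₂ : k[X]) : InS q v₁ v₂ v₁ :=
  ⟨1, 1, 0, one_ne_zero, by simp⟩

theorem inS_right {q : ℕ} (v₁ v₂ : k[X]) : InS q v₁ v₂ v₂ :=
  ⟨1, 0, 1, one_ne_zero, by simp⟩

/-- three elements of the lattice are dependent -/
theorem exists_relation {q : ℕ} (hq : 0 < q) {v₁ v₂ g n₁ n₂ : k[X]} (hg : InS q v₁ v₂ g)
    (h₁ : InS q v₁ v₂ n₁) (h₂ : InS q v₁ v₂ n₂) (hn₁ : n₁ ≠ 0) (hn : ¬ Rel q n₂ n₁) :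
    ∃ b a₁ a₂ : k[X], b ≠ 0 ∧ expand k q b * g = expand k q a₁ * n₁ + expand k q a₂ * n₂ := by
  obtain ⟨b, a₁, a₂, hb, e⟩ := hg
  obtain ⟨b', a₁', a₂', hb', e'⟩ := h₁
  obtain ⟨b'', a₁'', a₂'', hb'', e''⟩ := h₂
  by_cases hD : a₁' * a₂'' - a₂' * a₁'' = 0
  · exfalso
    apply hn
    by_cases ha : a₁' = 0
    · have ha2 : a₂' ≠ 0 := by
        rintro rfl
        rw [ha, map_zero, zero_mul, zero_mul, add_zero] at e'
        exact mul_ne_zero (expand_ne_zero' hq hb') hn₁ e'
      refine ⟨a₂' * b'', a₂'' * b', mul_ne_zero ha2 hb'', ?_⟩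
      have hD' : a₂' * a₁'' = 0 := by rw [ha] at hD; linear_combination -hD
      have hD2 := congrArg (expand k q) hD'
      have ha' : expand k q a₁' = 0 := by rw [ha, map_zero]
      simp only [map_mul, map_zero] at hD2 ⊢
      linear_combination (expand k q a₂') * e'' - (expand k q a₂'') * e' + v₁ * hD2
        - (expand k q a₂'') * v₁ * ha'
    · refine ⟨a₁' * b'', a₁'' * b', mul_ne_zero ha hb'', ?_⟩
      have hD2 := congrArg (expand k q) hD
      simp only [map_mul, map_sub, map_zero] at hD2 ⊢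
      linear_combination (expand k q a₁') * e'' - (expand k q a₁'') * e' + v₂ * hD2
  · refine ⟨(a₁' * a₂'' - a₂' * a₁'') * b, (a₁ * a₂'' - a₂ * a₁'') * b',
      (a₁' * a₂ - a₂' * a₁) * b'', mul_ne_zero hD hb, ?_⟩
    simp only [map_mul, map_sub]
    linear_combination ((expand k q) a₁' * (expand k q) a₂'' - (expand k q) a₂' * (expand k q) a₁'')
      * e - ((expand k q) a₁ * (expand k q) a₂'' - (expand k q) a₂ * (expand k q) a₁'') * e'
      - ((expand k q) a₁' * (expand k q) a₂ - (expand k q) a₂' * (expand k q) a₁) * e''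

theorem modEq_of_relation {q : ℕ} (hq : 0 < q) {g n₁ n₂ b a₁ a₂ : k[X]} (hg : g ≠ 0)
    (hb : b ≠ 0) (hn₁ : n₁ ≠ 0) (hn₂ : n₂ ≠ 0) (hl : ¬ n₁.natDegree ≡ n₂.natDegree [MOD q])
    (e : expand k q b * g = expand k q a₁ * n₁ + expand k q a₂ * n₂) :
    g.natDegree ≡ n₁.natDegree [MOD q] ∨ g.natDegree ≡ n₂.natDegree [MOD q] := by
  have hL := natDegree_term hq hb hg
  have hmod : ∀ (x y : ℕ), q * b.natDegree + g.natDegree = q * x + y → g.natDegree ≡ y [MOD q] := by
    intro x y h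
    have h1 : (q * b.natDegree + g.natDegree) ≡ g.natDegree [MOD q] := by
      simp [Nat.ModEq, Nat.add_mod]
    have h2 : (q * x + y) ≡ y [MOD q] := by
      simp [Nat.ModEq, Nat.add_mod]
    exact h1.symm.trans (h ▸ h2)
  by_cases h1 : a₁ = 0
  · rw [h1, map_zero, zero_mul, zero_add] at e
    by_cases h2 : a₂ = 0
    · rw [h2, map_zero, zero_mul] at e
      exact absurd e (mul_ne_zero (expand_ne_zero' hq hb) hg)
    · right
      rw [e, natDegree_term hq h2 hn₂] at hL
      exact hmod _ _ hL.symm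
  · by_cases h2 : a₂ = 0
    · rw [h2, map_zero, zero_mul, add_zero] at e
      left
      rw [e, natDegree_term hq h1 hn₁] at hL
      exact hmod _ _ hL.symm
    · have d1 := natDegree_term hq h1 hn₁
      have d2 := natDegree_term hq h2 hn₂
      rcases lt_trichotomy (expand k q a₁ * n₁).natDegree (expand k q a₂ * n₂).natDegree with h | h | h
      · right
        rw [e, natDegree_add_eq_right_of_natDegree_lt h, d2] at hL
        exact hmod _ _ hL.symm
      · exfalso
        apply hl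
        rw [d1, d2] at h
        have h1 : (q * a₁.natDegree + n₁.natDegree) ≡ n₁.natDegree [MOD q] := by
          simp [Nat.ModEq, Nat.add_mod]
        have h2 : (q * a₂.natDegree + n₂.natDegree) ≡ n₂.natDegree [MOD q] := by
          simp [Nat.ModEq, Nat.add_mod]
        exact h1.symm.trans (h ▸ h2)
      · left
        rw [e, natDegree_add_eq_left_of_natDegree_lt h, d1] at hL
        exact hmod _ _ hL.symm

/-- subtracting a multiple to lower the degree -/
theorem exists_sub {q : ℕ} (hq : 0 < q) {g n : k[X]} (hg : g ≠ 0) (hn : n ≠ 0)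
    (hle : n.natDegree ≤ g.natDegree) (hmod : g.natDegree ≡ n.natDegree [MOD q]) :
    ∃ c : k[X], c ≠ 0 ∧ q * c.natDegree + n.natDegree = g.natDegree ∧
      (g - expand k q c * n = 0 ∨ (g - expand k q c * n).natDegree < g.natDegree) := by
  obtain ⟨m, hm⟩ : ∃ m, g.natDegree = n.natDegree + q * m := by
    have := (Nat.modEq_iff_dvd' hle).1 hmod.symm
    obtain ⟨m, hm⟩ := this
    exact ⟨m, by omega⟩
  have hc : g.leadingCoeff / n.leadingCoeff ≠ 0 :=
    div_ne_zero (leadingCoeff_ne_zero.2 hg) (leadingCoeff_ne_zero.2 hn)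
  refine ⟨C (g.leadingCoeff / n.leadingCoeff) * X ^ m, ?_, ?_, ?_⟩
  · exact mul_ne_zero (C_ne_zero.2 hc) (pow_ne_zero _ X_ne_zero)
  · rw [natDegree_C_mul_X_pow _ _ hc, hm]; ring
  · set c := C (g.leadingCoeff / n.leadingCoeff) * X ^ m with hcdef
    have hc0 : c ≠ 0 := mul_ne_zero (C_ne_zero.2 hc) (pow_ne_zero _ X_ne_zero)
    have hcd : c.natDegree = m := natDegree_C_mul_X_pow _ _ hc
    have hd : (expand k q c * n).natDegree = g.natDegree := by
      rw [natDegree_term hq hc0 hn, hcd, hm]; ring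
    by_cases h0 : g - expand k q c * n = 0
    · exact Or.inl h0
    · right
      have hlc : (expand k q c * n).leadingCoeff = g.leadingCoeff := by
        rw [leadingCoeff_mul, leadingCoeff_expand hq, hcdef, leadingCoeff_C_mul_X_pow]
        exact div_mul_cancel₀ _ (leadingCoeff_ne_zero.2 hn)
      have hne : expand k q c * n ≠ 0 := mul_ne_zero (expand_ne_zero' hq hc0) hn
      have := degree_sub_lt_left (by rw [degree_eq_natDegree hg, degree_eq_natDegree hne, hd]) hg
        hlc.symm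
      exact natDegree_lt_natDegree h0 this


/-- a reduced basis of the lattice -/
structure Reduced (q : ℕ) (v₁ v₂ n₁ n₂ : k[X]) : Prop where
  s1 : InS q v₁ v₂ n₁
  s2 : InS q v₁ v₂ n₂
  h1 : n₁ ≠ 0
  h2 : n₂ ≠ 0
  le : n₁.natDegree ≤ n₂.natDegree
  min1 : ∀ g, InS q v₁ v₂ g → g ≠ 0 → n₁.natDegree ≤ g.natDegree
  nrel : ¬ Rel q n₂ n₁
  min2 : ∀ g, InS q v₁ v₂ g → ¬ Rel q g n₁ → n₂.natDegree ≤ g.natDegree

theorem rel_zero {q : ℕ} (n : k[X]) : Rel q 0 n := ⟨1, 0, one_ne_zero, by simp⟩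

theorem exists_reduced {q : ℕ} (hq : 0 < q) {v₁ v₂ : k[X]}
    (h : ∀ a b : k[X], expand k q a * v₁ + expand k q b * v₂ = 0 → a = 0 ∧ b = 0) :
    ∃ n₁ n₂ : k[X], Reduced q v₁ v₂ n₁ n₂ := by
  have hv1 : v₁ ≠ 0 := by
    rintro rfl
    have := (h 1 0 (by simp)).1
    exact one_ne_zero this
  obtain ⟨n₁, ⟨s1, h1⟩, hmin1⟩ := WellFounded.has_min (measure (fun g : k[X] => g.natDegree)).wf
    {g | InS q v₁ v₂ g ∧ g ≠ 0} ⟨v₁, inS_left v₁ v₂, hv1⟩
  have hex : ∃ g, InS q v₁ v₂ g ∧ ¬ Rel q g n₁ := by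
    by_contra hcon
    push Not at hcon
    obtain ⟨b, a, hb, e⟩ := hcon v₁ (inS_left _ _)
    obtain ⟨b', a', hb', e'⟩ := hcon v₂ (inS_right _ _)
    have := h (a' * b) (-(a * b')) (by
      simp only [map_mul, map_neg]
      linear_combination (expand k q a') * e - (expand k q a) * e')
    have ha : a = 0 := by
      have := this.2
      rw [neg_eq_zero] at this
      exact (mul_eq_zero.1 this).resolve_right hb'
    rw [ha, map_zero, zero_mul] at e
    exact mul_ne_zero (expand_ne_zero' hq hb) hv1 e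
  obtain ⟨n₂, ⟨s2, nrel⟩, hmin2⟩ := WellFounded.has_min (measure (fun g : k[X] => g.natDegree)).wf
    {g | InS q v₁ v₂ g ∧ ¬ Rel q g n₁} hex
  have h2 : n₂ ≠ 0 := by
    rintro rfl
    exact nrel (rel_zero _)
  have m1 : ∀ g, InS q v₁ v₂ g → g ≠ 0 → n₁.natDegree ≤ g.natDegree :=
    fun g hg hg0 => not_lt.1 (hmin1 g ⟨hg, hg0⟩)
  exact ⟨n₁, n₂, s1, s2, h1, h2, m1 _ s2 h2, m1, nrel,
    fun g hg hg0 => not_lt.1 (hmin2 g ⟨hg, hg0⟩)⟩

theorem Reduced.not_modEq {q : ℕ} (hq : 0 < q) {v₁ v₂ n₁ n₂ : k[X]}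
    (r : Reduced q v₁ v₂ n₁ n₂) : ¬ n₁.natDegree ≡ n₂.natDegree [MOD q] := by
  intro hmod
  obtain ⟨c, hc, hcd, hsub⟩ := exists_sub hq r.h2 r.h1 r.le hmod.symm
  have hs : InS q v₁ v₂ (n₂ - expand k q c * n₁) := r.s2.sub (r.s1.expand_mul c)
  have hr : ¬ Rel q (n₂ - expand k q c * n₁) n₁ := by
    rintro ⟨b, a, hb, e⟩
    apply r.nrel
    refine ⟨b, a + b * c, hb, ?_⟩
    simp only [map_add, map_mul]
    linear_combination e
  rcases hsub with h0 | hlt
  · exact hr (h0 ▸ rel_zero _)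
  · exact absurd (r.min2 _ hs hr) (not_le.2 hlt)

theorem Reduced.indep {q : ℕ} (hq : 0 < q) {v₁ v₂ n₁ n₂ : k[X]}
    (r : Reduced q v₁ v₂ n₁ n₂) {a b : k[X]}
    (e : expand k q a * n₁ + expand k q b * n₂ = 0) : a = 0 ∧ b = 0 := by
  have hb : b = 0 := by
    by_contra hb
    exact r.nrel ⟨b, -a, hb, by rw [map_neg]; linear_combination e⟩
  rw [hb, map_zero, zero_mul, add_zero] at e
  refine ⟨?_, hb⟩
  by_contra ha
  exact mul_ne_zero (expand_ne_zero' hq ha) r.h1 e

theorem Reduced.repr {q : ℕ} (hq : 0 < q) {v₁ v₂ n₁ n₂ : k[X]}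
    (r : Reduced q v₁ v₂ n₁ n₂) (g : k[X]) (hg : InS q v₁ v₂ g) :
    ∃ c₁ c₂ : k[X], g = expand k q c₁ * n₁ + expand k q c₂ * n₂ ∧
      (c₁ = 0 ∨ q * c₁.natDegree + n₁.natDegree ≤ g.natDegree) ∧
      (c₂ = 0 ∨ q * c₂.natDegree + n₂.natDegree ≤ g.natDegree) := by
  induction hd : g.natDegree using Nat.strong_induction_on generalizing g with
  | _ d ih =>
    subst hd
    by_cases hg0 : g = 0
    · exact ⟨0, 0, by simp [hg0], Or.inl rfl, Or.inl rfl⟩
    obtain ⟨b, a₁, a₂, hb, e⟩ := exists_relation hq hg r.s1 r.s2 r.h1 r.nrel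
    have hl := r.not_modEq hq
    have key : g.natDegree ≡ n₁.natDegree [MOD q] ∨
        (g.natDegree ≡ n₂.natDegree [MOD q] ∧ n₂.natDegree ≤ g.natDegree) := by
      rcases modEq_of_relation hq hg0 hb r.h1 r.h2 hl e with h | h
      · exact Or.inl h
      · right
        refine ⟨h, ?_⟩
        apply r.min2 _ hg
        rintro ⟨b', a', hb', e'⟩
        have ha' : a' ≠ 0 := by
          rintro rfl
          rw [map_zero, zero_mul] at e'
          exact mul_ne_zero (expand_ne_zero' hq hb') hg0 e'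
        have h3 := modEq_of_relation (a₁ := a') (a₂ := 0) hq hg0 hb' r.h1 r.h2 hl
          (by rw [map_zero, zero_mul, add_zero]; exact e')
        have h4 : (q * b'.natDegree + g.natDegree) = q * a'.natDegree + n₁.natDegree := by
          rw [← natDegree_term hq hb' hg0, e', natDegree_term hq ha' r.h1]
        have h5 : (q * b'.natDegree + g.natDegree) ≡ g.natDegree [MOD q] := by
          simp [Nat.ModEq, Nat.add_mod]
        have h6 : (q * a'.natDegree + n₁.natDegree) ≡ n₁.natDegree [MOD q] := by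
          simp [Nat.ModEq, Nat.add_mod]
        exact hl ((h6.symm.trans (h4 ▸ h5)).trans h)
    rcases key with h | ⟨h, hle⟩
    · obtain ⟨c, hc, hcd, hsub⟩ := exists_sub hq hg0 r.h1 (r.min1 _ hg hg0) h
      rcases hsub with h0 | hlt
      · exact ⟨c, 0, by rw [map_zero, zero_mul, add_zero]; exact sub_eq_zero.1 h0,
          Or.inr hcd.le, Or.inl rfl⟩
      · obtain ⟨c₁, c₂, hc12, hc1, hc2⟩ := ih _ hlt _ (hg.sub (r.s1.expand_mul c)) rfl
        refine ⟨c₁ + c, c₂, ?_, ?_, ?_⟩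
        · rw [map_add]
          linear_combination hc12
        · right
          have h7 := natDegree_add_le c₁ c
          have h8 : q * (c₁ + c).natDegree ≤ q * max c₁.natDegree c.natDegree :=
            Nat.mul_le_mul_left q h7
          rcases hc1 with rfl | hc1
          · rw [zero_add]; exact hcd.le
          · rcases le_total c₁.natDegree c.natDegree with h9 | h9
            · rw [max_eq_right h9] at h8
              omega
            · rw [max_eq_left h9] at h8
              omega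
        · rcases hc2 with hc2 | hc2
          · exact Or.inl hc2
          · exact Or.inr (by omega)
    · obtain ⟨c, hc, hcd, hsub⟩ := exists_sub hq hg0 r.h2 hle h
      rcases hsub with h0 | hlt
      · exact ⟨0, c, by rw [map_zero, zero_mul, zero_add]; exact sub_eq_zero.1 h0,
          Or.inl rfl, Or.inr hcd.le⟩
      · obtain ⟨c₁, c₂, hc12, hc1, hc2⟩ := ih _ hlt _ (hg.sub (r.s2.expand_mul c)) rfl
        refine ⟨c₁, c₂ + c, ?_, ?_, ?_⟩
        · rw [map_add]
          linear_combination hc12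
        · rcases hc1 with hc1 | hc1
          · exact Or.inl hc1
          · exact Or.inr (by omega)
        · right
          have h7 := natDegree_add_le c₂ c
          have h8 : q * (c₂ + c).natDegree ≤ q * max c₂.natDegree c.natDegree :=
            Nat.mul_le_mul_left q h7
          rcases hc2 with rfl | hc2
          · rw [zero_add]; exact hcd.le
          · rcases le_total c₂.natDegree c.natDegree with h9 | h9
            · rw [max_eq_right h9] at h8
              omega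
            · rw [max_eq_left h9] at h8
              omega

/-! ### Surjectivity of the Cartier map -/

/-- components of a polynomial -/
theorem sum_components {q : ℕ} (hq : 0 < q) (g : k[X]) :
    g = ∑ i ∈ Finset.range q, X ^ i * expand k q (cart q (X ^ (q - 1 - i) * g)) := by
  ext n
  rw [finsetSum_coeff]
  rw [Finset.sum_eq_single (n % q)]
  · rw [coeff_X_pow_mul', if_pos (Nat.mod_le n q)]
    have h1 : n - n % q = q * (n / q) := by
      have := Nat.div_add_mod n q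
      omega
    rw [h1, mul_comm q, coeff_expand_mul hq, coeff_cart hq, coeff_X_pow_mul']
    have h2 := Nat.mod_lt n hq
    rw [if_pos (by omega)]
    congr 1
    have := Nat.div_add_mod n q
    omega
  · intro i hi hne
    rw [Finset.mem_range] at hi
    rw [coeff_X_pow_mul']
    split_ifs with hle
    · rw [coeff_expand hq, if_neg]
      rintro ⟨m, hm⟩
      apply hne
      have : n = i + q * m := by omega
      rw [this, Nat.add_mul_mod_self_left, Nat.mod_eq_of_lt hi]
    · rfl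
  · intro h
    exact absurd (Finset.mem_range.2 (Nat.mod_lt n hq)) h

theorem dvd_of_dvd_cart {q : ℕ} (hq : 0 < q) {P g : k[X]} (h : ∀ D : k[X], P ∣ cart q (D * g)) :
    expand k q P ∣ g := by
  rw [sum_components hq g]
  apply Finset.dvd_sum
  intro i _
  apply Dvd.dvd.mul_left
  obtain ⟨y, hy⟩ := h (X ^ (q - 1 - i))
  rw [hy, map_mul]
  exact Dvd.intro _ rfl

/-- A proper submodule of the square of a polynomial ring lies in the kernel of a functional
modulo a prime. -/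
theorem exists_functional (I : Submodule k[X] (k[X] × k[X])) (hI : I ≠ ⊤) :
    ∃ P a₁ a₂ : k[X], P ≠ 0 ∧ ¬ (P ∣ a₁ ∧ P ∣ a₂) ∧ ∀ y ∈ I, P ∣ a₁ * y.1 + a₂ * y.2 := by
  obtain ⟨M, hM, hIM⟩ := (eq_top_or_exists_le_coatom I).resolve_left hI
  have : IsSimpleModule k[X] ((k[X] × k[X]) ⧸ M) := isSimpleModule_iff_isCoatom.2 hM
  obtain ⟨m, hm, ⟨e⟩⟩ := isSimpleModule_iff_quot_maximal.1 this
  obtain ⟨P, hP⟩ := (IsPrincipalIdealRing.principal m).principal
  have hP' : m = Ideal.span {P} := hP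
  let f : (k[X] × k[X]) →ₗ[k[X]] (k[X] ⧸ m) := e.toLinearMap ∘ₗ M.mkQ
  obtain ⟨a₁, ha₁⟩ := Ideal.Quotient.mk_surjective (f (1, 0))
  obtain ⟨a₂, ha₂⟩ := Ideal.Quotient.mk_surjective (f (0, 1))
  have hf : ∀ y : k[X] × k[X], f y = Ideal.Quotient.mk m (a₁ * y.1 + a₂ * y.2) := by
    intro y
    have hy : y = y.1 • ((1, 0) : k[X] × k[X]) + y.2 • ((0, 1) : k[X] × k[X]) := by
      ext <;> simp
    conv_lhs => rw [hy]
    rw [map_add, map_smul, map_smul, ← ha₁, ← ha₂, mul_comm a₁, mul_comm a₂]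
    rfl
  have hne : m ≠ ⊤ := hm.ne_top
  have hm0 : m ≠ ⊥ := by
    intro h0
    have := Polynomial.not_isField k
    apply this
    rw [h0] at hm
    exact Ring.isField_iff_maximal_bot.2 hm
  refine ⟨P, a₁, a₂, ?_, ?_, ?_⟩
  · rintro rfl
    apply hm0
    rw [hP', Ideal.span_singleton_eq_bot]
  · rintro ⟨h1, h2⟩
    have hz : ∀ y, f y = 0 := by
      intro y
      rw [hf, Ideal.Quotient.eq_zero_iff_mem, hP', Ideal.mem_span_singleton]
      exact dvd_add (h1.mul_right _) (h2.mul_right _)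
    have hsurj : Function.Surjective f := e.surjective.comp (Submodule.mkQ_surjective M)
    obtain ⟨y, hy⟩ := hsurj 1
    rw [hz y] at hy
    have : Nontrivial (k[X] ⧸ m) := Ideal.Quotient.nontrivial_iff.2 hne
    exact zero_ne_one hy
  · intro y hy
    have h0 : f y = 0 := by
      show e (M.mkQ y) = 0
      rw [Submodule.mkQ_apply, (Submodule.Quotient.mk_eq_zero M).2 (hIM hy), map_zero]
    rw [hf, Ideal.Quotient.eq_zero_iff_mem, hP', Ideal.mem_span_singleton] at h0
    exact h0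


theorem gam_surjective {q : ℕ} (hq : 0 < q) {v₁ v₂ n₁ n₂ : k[X]}
    (r : Reduced q v₁ v₂ n₁ n₂) (y₁ y₂ : k[X]) :
    ∃ D : k[X], cart q (D * n₁) = y₁ ∧ cart q (D * n₂) = y₂ := by
  let I : Submodule k[X] (k[X] × k[X]) :=
    { carrier := {y | ∃ D : k[X], cart q (D * n₁) = y.1 ∧ cart q (D * n₂) = y.2}
      add_mem' := by
        rintro x y ⟨D, h1, h2⟩ ⟨D', h1', h2'⟩
        refine ⟨D + D', ?_, ?_⟩
        · rw [add_mul, cart_add hq, h1, h1']; rfl
        · rw [add_mul, cart_add hq, h2, h2']; rfl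
      zero_mem' := ⟨0, by rw [zero_mul, cart_zero hq]; rfl, by rw [zero_mul, cart_zero hq]; rfl⟩
      smul_mem' := by
        rintro h x ⟨D, h1, h2⟩
        refine ⟨expand k q h * D, ?_, ?_⟩
        · rw [mul_assoc, cart_expand_mul hq, h1]; rfl
        · rw [mul_assoc, cart_expand_mul hq, h2]; rfl }
  have hI : I = ⊤ := by
    by_contra hI
    obtain ⟨P, a₁, a₂, hP, hnd, hall⟩ := exists_functional I hI
    apply hnd
    have h1 : expand k q P ∣ expand k q a₁ * n₁ + expand k q a₂ * n₂ := by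
      apply dvd_of_dvd_cart hq
      intro D
      have := hall (cart q (D * n₁), cart q (D * n₂)) ⟨D, rfl, rfl⟩
      have h2 : D * (expand k q a₁ * n₁ + expand k q a₂ * n₂) =
          expand k q a₁ * (D * n₁) + expand k q a₂ * (D * n₂) := by ring
      rw [h2, cart_add hq, cart_expand_mul hq, cart_expand_mul hq]
      exact this
    obtain ⟨g', hg'⟩ := h1
    have hS : InS q v₁ v₂ (expand k q a₁ * n₁ + expand k q a₂ * n₂) :=
      (r.s1.expand_mul a₁).add (r.s2.expand_mul a₂)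
    rw [hg'] at hS
    obtain ⟨c₁, c₂, hc, -, -⟩ := r.repr hq _ (hS.of_expand_mul hP)
    have h3 := r.indep hq (a := a₁ - P * c₁) (b := a₂ - P * c₂) (by
      simp only [map_sub, map_mul]
      linear_combination hg' + (expand k q P) * hc)
    exact ⟨⟨c₁, sub_eq_zero.1 h3.1⟩, ⟨c₂, sub_eq_zero.1 h3.2⟩⟩
  have : ((y₁, y₂) : k[X] × k[X]) ∈ I := hI ▸ Submodule.mem_top
  exact this

/-! ### Degrees -/

theorem cart_mul_mem {q : ℕ} (hq : 0 < q) {D n : k[X]} {N : ℕ} (hD : D.natDegree ≤ N) :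
    cart q (D * n) ∈ degreeLT k ((N + 1 + n.natDegree) / q) := by
  rw [mem_degreeLT, degree_lt_iff_coeff_zero]
  intro i hi
  rw [coeff_cart hq]
  apply coeff_eq_zero_of_natDegree_lt
  have h1 : (D * n).natDegree ≤ D.natDegree + n.natDegree := natDegree_mul_le
  have h2 : N + 1 + n.natDegree < (i + 1) * q :=
    (Nat.div_lt_iff_lt_mul hq).1 (Nat.lt_succ_of_le hi)
  have h3 : (i + 1) * q = q * i + q := by ring
  omega

theorem coeff_cart_top {q : ℕ} (hq : 0 < q) {D n : k[X]} (hD : D ≠ 0) (hn : n ≠ 0)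
    (h : q ∣ D.natDegree + n.natDegree + 1) :
    ∃ i, q * (i + 1) = D.natDegree + n.natDegree + 1 ∧ (cart q (D * n)).coeff i ≠ 0 := by
  obtain ⟨m, hm⟩ := h
  cases m with
  | zero => omega
  | succ i =>
    refine ⟨i, hm.symm, ?_⟩
    rw [coeff_cart hq]
    have h1 : q * i + (q - 1) = (D * n).natDegree := by
      rw [natDegree_mul hD hn]
      have : q * (i + 1) = q * i + q := by ring
      omega
    rw [h1]
    exact leadingCoeff_ne_zero.2 (mul_ne_zero hD hn)

/-- the common kernel -/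
def Ker (q : ℕ) (n₁ n₂ D : k[X]) : Prop := cart q (D * n₁) = 0 ∧ cart q (D * n₂) = 0

theorem Ker.not_dvd {q : ℕ} (hq : 0 < q) {n₁ n₂ D : k[X]} (hn₁ : n₁ ≠ 0) (hn₂ : n₂ ≠ 0)
    (hD : D ≠ 0) (h : Ker q n₁ n₂ D) :
    ¬ q ∣ D.natDegree + n₁.natDegree + 1 ∧ ¬ q ∣ D.natDegree + n₂.natDegree + 1 := by
  constructor
  · intro hd
    obtain ⟨i, -, hi⟩ := coeff_cart_top hq hD hn₁ hd
    rw [h.1, coeff_zero] at hi
    exact hi rfl
  · intro hd
    obtain ⟨i, -, hi⟩ := coeff_cart_top hq hD hn₂ hd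
    rw [h.2, coeff_zero] at hi
    exact hi rfl

/-- the Cartier map on polynomials of degree at most `N` -/
noncomputable def gamN (q : ℕ) (hq : 0 < q) (n₁ n₂ : k[X]) (N : ℕ) :
    degreeLT k (N + 1) →ₗ[k] degreeLT k ((N + 1 + n₁.natDegree) / q) ×
      degreeLT k ((N + 1 + n₂.natDegree) / q) where
  toFun D := (⟨cart q (D.1 * n₁), cart_mul_mem hq (by
      have := D.2
      rw [mem_degreeLT] at this
      by_cases h0 : D.1 = 0
      · rw [h0, natDegree_zero]; exact Nat.zero_le _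
      · exact Nat.lt_succ_iff.1 ((natDegree_lt_iff_degree_lt h0).2 this))⟩,
    ⟨cart q (D.1 * n₂), cart_mul_mem hq (by
      have := D.2
      rw [mem_degreeLT] at this
      by_cases h0 : D.1 = 0
      · rw [h0, natDegree_zero]; exact Nat.zero_le _
      · exact Nat.lt_succ_iff.1 ((natDegree_lt_iff_degree_lt h0).2 this))⟩)
  map_add' D D' := by
    ext1 <;> apply Subtype.ext <;> simp [add_mul, cart_add hq]
  map_smul' c D := by
    ext1 <;> apply Subtype.ext <;>
      simp only [SetLike.val_smul, smul_eq_C_mul, mul_assoc, cart_C_mul hq, RingHom.id_apply,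
        Prod.smul_fst, Prod.smul_snd]

theorem natDegree_le_of_mem {N : ℕ} {D : k[X]} (hD : D ∈ degreeLT k (N + 1)) :
    D.natDegree ≤ N := by
  rw [mem_degreeLT] at hD
  by_cases h0 : D = 0
  · rw [h0, natDegree_zero]; exact Nat.zero_le _
  · exact Nat.lt_succ_iff.1 ((natDegree_lt_iff_degree_lt h0).2 hD)

theorem mem_of_natDegree_le {N : ℕ} {D : k[X]} (hD : D.natDegree ≤ N) :
    D ∈ degreeLT k (N + 1) := by
  rw [mem_degreeLT]
  by_cases h0 : D = 0
  · rw [h0, degree_zero]; exact WithBot.bot_lt_coe _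
  · exact (natDegree_lt_iff_degree_lt h0).1 (Nat.lt_succ_iff.2 hD)

theorem card_degreeLT (n : ℕ) : Nat.card (degreeLT k n) = Nat.card k ^ n := by
  rw [Nat.card_congr (degreeLTEquiv k n).toEquiv, Nat.card_fun, Nat.card_fin]

/-- A space of polynomials has at most as many elements as functions on its set of degrees. -/
theorem card_le_degrees [Finite k] {V : Type} [AddCommGroup V] [Module k V] (f : V →ₗ[k] k[X])
    (hf : Function.Injective f) (T : Finset ℕ) (hT : ∀ x : V, x ≠ 0 → (f x).natDegree ∈ T) :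
    Nat.card V ≤ Nat.card k ^ T.card := by
  have h1 : Nat.card (T → k) = Nat.card k ^ T.card := by
    rw [Nat.card_fun, Nat.card_eq_fintype_card (α := T), Fintype.card_coe]
  rw [← h1]
  let g : V → (T → k) := fun x t => (f x).coeff t
  have hg : Function.Injective g := by
    intro x y hxy
    by_contra hne
    have h2 : x - y ≠ 0 := sub_ne_zero.2 hne
    have h3 := hT _ h2
    have h4 : (f (x - y)).coeff (f (x - y)).natDegree = 0 := by
      rw [map_sub, coeff_sub]
      have := congrFun hxy ⟨_, h3⟩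
      simp only [g] at this
      rw [map_sub] at this
      rw [this, sub_self]
    have h5 : f (x - y) = 0 := leadingCoeff_eq_zero.1 h4
    exact h2 (hf (by rw [h5, map_zero]))
  exact Nat.card_le_card_of_injective g hg


theorem exists_residue {q : ℕ} (hq : 0 < q) (l : ℕ) : ∃ r, r < q ∧ q ∣ r + l := by
  refine ⟨(q - l % q) % q, Nat.mod_lt _ hq, ?_⟩
  have h1 := Nat.mod_lt l hq
  have h2 : q ∣ (q - l % q) + l := by
    have := Nat.div_add_mod l q
    refine ⟨l / q + 1, ?_⟩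
    rw [Nat.mul_add, mul_one]
    omega
  rw [Nat.dvd_iff_mod_eq_zero] at h2 ⊢
  rw [Nat.mod_add_mod]
  exact h2

theorem card_class {q : ℕ} (hq : 0 < q) (r M : ℕ) :
    ((Finset.range M).image (fun j => r + q * j)).card = M := by
  rw [Finset.card_image_of_injective, Finset.card_range]
  intro x y hxy
  simp only [add_right_inj] at hxy
  exact Nat.eq_of_mul_eq_mul_left hq hxy

theorem disj_class {q : ℕ} (r r' M : ℕ) (hr : r < q) (hr' : r' < q) (h : r ≠ r') :
    Disjoint ((Finset.range M).image (fun j => r + q * j))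
      ((Finset.range M).image (fun j => r' + q * j)) := by
  rw [Finset.disjoint_left]
  intro x hx hx'
  rw [Finset.mem_image] at hx hx'
  obtain ⟨j, -, hj⟩ := hx
  obtain ⟨j', -, hj'⟩ := hx'
  apply h
  have h1 : x % q = r := by rw [← hj, Nat.add_mul_mod_self_left, Nat.mod_eq_of_lt hr]
  have h2 : x % q = r' := by rw [← hj', Nat.add_mul_mod_self_left, Nat.mod_eq_of_lt hr']
  rw [← h1, h2]

/-- a set of numbers up to `N` missing three classes -/
theorem card_miss {q N : ℕ} (hq : 0 < q) (T : Finset ℕ) (hT : ∀ x ∈ T, x ≤ N) (r₁ r₂ r₃ : ℕ)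
    (h1 : r₁ < q) (h2 : r₂ < q) (h3 : r₃ < q) (h12 : r₁ ≠ r₂) (h13 : r₁ ≠ r₃) (h23 : r₂ ≠ r₃)
    (hm : ∀ x ∈ T, x % q ≠ r₁ ∧ x % q ≠ r₂ ∧ x % q ≠ r₃) :
    T.card + 3 * ((N + 1) / q) ≤ N + 1 := by
  set M := (N + 1) / q with hM
  have hMq : q * M ≤ N + 1 := Nat.mul_div_le _ _
  have hle : ∀ r, r < q → ∀ x ∈ (Finset.range M).image (fun j => r + q * j), x ≤ N := by
    intro r hr x hx
    rw [Finset.mem_image] at hx
    obtain ⟨j, hj, rfl⟩ := hx
    rw [Finset.mem_range] at hj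
    have : q * (j + 1) ≤ q * M := Nat.mul_le_mul_left q hj
    rw [Nat.mul_add, mul_one] at this
    omega
  have hd : ∀ r, r < q → (∀ x ∈ T, x % q ≠ r) →
      Disjoint T ((Finset.range M).image (fun j => r + q * j)) := by
    intro r hr hx
    rw [Finset.disjoint_left]
    intro x hxT hx'
    rw [Finset.mem_image] at hx'
    obtain ⟨j, -, hj⟩ := hx'
    apply hx x hxT
    rw [← hj, Nat.add_mul_mod_self_left, Nat.mod_eq_of_lt hr]
  have hsub : T ∪ ((Finset.range M).image (fun j => r₁ + q * j) ∪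
      ((Finset.range M).image (fun j => r₂ + q * j) ∪
      (Finset.range M).image (fun j => r₃ + q * j))) ⊆ Finset.range (N + 1) := by
    intro x hx
    rw [Finset.mem_range, Nat.lt_succ_iff]
    simp only [Finset.mem_union] at hx
    rcases hx with hx | hx | hx | hx
    · exact hT x hx
    · exact hle _ h1 _ hx
    · exact hle _ h2 _ hx
    · exact hle _ h3 _ hx
  have hc := Finset.card_le_card hsub
  rw [Finset.card_range, Finset.card_union_of_disjoint, Finset.card_union_of_disjoint,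
    Finset.card_union_of_disjoint, card_class hq, card_class hq, card_class hq] at hc
  · omega
  · exact disj_class _ _ _ h2 h3 h23
  · rw [Finset.disjoint_union_right]
    exact ⟨disj_class _ _ _ h1 h2 h12, disj_class _ _ _ h1 h3 h13⟩
  · rw [Finset.disjoint_union_right, Finset.disjoint_union_right]
    exact ⟨hd _ h1 fun x hx => (hm x hx).1, hd _ h2 fun x hx => (hm x hx).2.1,
      hd _ h3 fun x hx => (hm x hx).2.2⟩

theorem dvd_iff_mod {q r l e : ℕ} (hr : r < q) (h : q ∣ r + l) : q ∣ e + l ↔ e % q = r := by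
  constructor
  · intro he
    have h1 : e ≡ r [MOD q] := by
      apply Nat.ModEq.add_right_cancel' l
      rw [Nat.ModEq, Nat.dvd_iff_mod_eq_zero.1 he, Nat.dvd_iff_mod_eq_zero.1 h]
    rw [Nat.ModEq, Nat.mod_eq_of_lt hr] at h1
    exact h1
  · intro he
    rw [Nat.dvd_iff_mod_eq_zero, ← Nat.mod_add_mod, he]
    exact Nat.dvd_iff_mod_eq_zero.1 h

/-- Every residue class allowed for degrees of the kernel occurs. -/
theorem exists_degree [Finite k] {q : ℕ} (hq : 0 < q) {n₁ n₂ : k[X]} (hn₁ : n₁ ≠ 0)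
    (hn₂ : n₂ ≠ 0) (hl : ¬ n₁.natDegree ≡ n₂.natDegree [MOD q]) {N : ℕ}
    (hN : (N + 1 + n₁.natDegree) / q + (N + 1 + n₂.natDegree) / q < 3 * ((N + 1) / q))
    (e : ℕ) (he₁ : ¬ q ∣ e + n₁.natDegree + 1) (he₂ : ¬ q ∣ e + n₂.natDegree + 1) :
    ∃ D : k[X], D ≠ 0 ∧ D.natDegree ≤ N ∧ Ker q n₁ n₂ D ∧ D.natDegree ≡ e [MOD q] := by
  by_contra hcon
  push Not at hcon
  obtain ⟨r₁, hr₁, hr₁'⟩ := exists_residue hq (n₁.natDegree + 1)
  obtain ⟨r₂, hr₂, hr₂'⟩ := exists_residue hq (n₂.natDegree + 1)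
  have hr12 : r₁ ≠ r₂ := by
    rintro rfl
    apply hl
    have h1 : r₁ + (n₁.natDegree + 1) ≡ r₁ + (n₂.natDegree + 1) [MOD q] := by
      rw [Nat.ModEq, Nat.dvd_iff_mod_eq_zero.1 hr₁', Nat.dvd_iff_mod_eq_zero.1 hr₂']
    exact Nat.ModEq.add_right_cancel' 1 (Nat.ModEq.add_left_cancel' r₁ h1)
  have he1 : r₁ ≠ e % q := by
    intro h
    apply he₁
    rw [add_assoc]
    exact (dvd_iff_mod hr₁ hr₁').2 h.symm
  have he2 : r₂ ≠ e % q := by
    intro h
    apply he₂
    rw [add_assoc]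
    exact (dvd_iff_mod hr₂ hr₂').2 h.symm
  obtain ⟨G, hG⟩ : ∃ G, G = gamN q hq n₁ n₂ N := ⟨_, rfl⟩
  obtain ⟨f, hf⟩ : ∃ f : LinearMap.ker G →ₗ[k] k[X],
    f = (degreeLT k (N + 1)).subtype ∘ₗ (LinearMap.ker G).subtype := ⟨_, rfl⟩
  have hfinj : Function.Injective f := by
    rw [hf]
    exact (Submodule.injective_subtype _).comp (Submodule.injective_subtype _)
  have hKer : ∀ x : LinearMap.ker G, Ker q n₁ n₂ (f x) := by
    intro x
    obtain ⟨D, hx⟩ := x
    rw [LinearMap.mem_ker, hG, Prod.ext_iff] at hx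
    rw [hf]
    exact ⟨congrArg Subtype.val hx.1, congrArg Subtype.val hx.2⟩
  have hle : ∀ x : LinearMap.ker G, (f x).natDegree ≤ N := by
    intro x
    rw [hf]
    exact natDegree_le_of_mem x.1.2
  obtain ⟨T, hTdef⟩ : ∃ T : Finset ℕ, T = (Finset.range (N + 1)).filter
    (fun t => t % q ≠ r₁ ∧ t % q ≠ r₂ ∧ t % q ≠ e % q) := ⟨_, rfl⟩
  have hT : ∀ x : LinearMap.ker G, x ≠ 0 → (f x).natDegree ∈ T := by
    intro x hx
    have hx0 : f x ≠ 0 := by
      intro h0
      exact hx (hfinj (by rw [h0, map_zero]))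
    rw [hTdef, Finset.mem_filter, Finset.mem_range, Nat.lt_succ_iff]
    obtain ⟨hd1, hd2⟩ := (hKer x).not_dvd hq hn₁ hn₂ hx0
    refine ⟨hle x, ?_, ?_, ?_⟩
    · intro h
      apply hd1
      rw [add_assoc]
      exact (dvd_iff_mod hr₁ hr₁').2 h
    · intro h
      apply hd2
      rw [add_assoc]
      exact (dvd_iff_mod hr₂ hr₂').2 h
    · exact hcon _ hx0 (hle x) (hKer x)
  have hfin : Finite (degreeLT k (N + 1)) :=
    Finite.of_equiv _ (degreeLTEquiv k (N + 1)).toEquiv.symm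
  have hfin1 : Finite (degreeLT k ((N + 1 + n₁.natDegree) / q)) :=
    Finite.of_equiv _ (degreeLTEquiv k _).toEquiv.symm
  have hfin2 : Finite (degreeLT k ((N + 1 + n₂.natDegree) / q)) :=
    Finite.of_equiv _ (degreeLTEquiv k _).toEquiv.symm
  have hk1 : 1 < Nat.card k := Finite.one_lt_card
  have hcard1 := card_le_degrees (V := LinearMap.ker G) f hfinj T hT
  have hcard2 := Submodule.card_eq_card_quotient_mul_card (LinearMap.ker G)
  rw [card_degreeLT] at hcard2
  have hcard3 : Nat.card (degreeLT k (N + 1) ⧸ LinearMap.ker G) ≤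
      Nat.card k ^ ((N + 1 + n₁.natDegree) / q + (N + 1 + n₂.natDegree) / q) := by
    rw [Nat.card_congr G.quotKerEquivRange.toEquiv, pow_add, ← card_degreeLT, ← card_degreeLT,
      ← Nat.card_prod]
    exact Nat.card_le_card_of_injective _ (Submodule.injective_subtype _)
  have hmiss := card_miss hq T (N := N) (by
    intro x hx
    rw [hTdef, Finset.mem_filter, Finset.mem_range, Nat.lt_succ_iff] at hx
    exact hx.1) r₁ r₂ (e % q) hr₁ hr₂ (Nat.mod_lt _ hq) hr12 he1 he2 (by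
    intro x hx
    rw [hTdef] at hx
    exact (Finset.mem_filter.1 hx).2)
  have hle2 : Nat.card k ^ (N + 1) ≤ Nat.card k ^
      (T.card + ((N + 1 + n₁.natDegree) / q + (N + 1 + n₂.natDegree) / q)) := by
    rw [hcard2, pow_add]
    exact Nat.mul_le_mul hcard1 hcard3
  have := (Nat.pow_le_pow_iff_right hk1).1 hle2
  omega


/-- The Cartier map is onto already on polynomials of degree at most `N`. -/
theorem gamN_surjective [Finite k] {q : ℕ} (hq : 0 < q) {v₁ v₂ n₁ n₂ : k[X]}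
    (r : Reduced q v₁ v₂ n₁ n₂) {N : ℕ}
    (hN : (N + 1 + n₁.natDegree) / q + (N + 1 + n₂.natDegree) / q < 3 * ((N + 1) / q)) :
    Function.Surjective (gamN q hq n₁ n₂ N) := by
  rintro ⟨⟨y₁, hy₁⟩, ⟨y₂, hy₂⟩⟩
  obtain ⟨D, ⟨hD1, hD2⟩, hmin⟩ := WellFounded.has_min
    (measure (fun g : k[X] => g.natDegree)).wf
    {D | cart q (D * n₁) = y₁ ∧ cart q (D * n₂) = y₂} (gam_surjective hq r y₁ y₂)
  have hle : D.natDegree ≤ N := by
    by_contra hgt
    rw [not_le] at hgt
    have hD0 : D ≠ 0 := by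
      rintro rfl
      rw [natDegree_zero] at hgt
      exact Nat.not_lt_zero _ hgt
    have hno : ∀ n y : k[X], n ≠ 0 → cart q (D * n) = y →
        y ∈ degreeLT k ((N + 1 + n.natDegree) / q) → ¬ q ∣ D.natDegree + n.natDegree + 1 := by
      intro n y hn hy hmem hd
      obtain ⟨i, hi, hi'⟩ := coeff_cart_top hq hD0 hn hd
      rw [hy] at hi'
      rw [mem_degreeLT, degree_lt_iff_coeff_zero] at hmem
      apply hi'
      apply hmem
      rw [← Nat.lt_succ_iff, Nat.div_lt_iff_lt_mul hq, Nat.succ_eq_add_one, mul_comm, hi]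
      omega
    obtain ⟨D', hD'0, hD'N, hK, hmod⟩ := exists_degree hq r.h1 r.h2 (r.not_modEq hq) hN
      D.natDegree (hno _ _ r.h1 hD1 hy₁) (hno _ _ r.h2 hD2 hy₂)
    obtain ⟨c, hc, hcd, hsub⟩ := exists_sub hq hD0 hD'0 (by omega) hmod.symm
    have hmem : (D - expand k q c * D') ∈
        {D | cart q (D * n₁) = y₁ ∧ cart q (D * n₂) = y₂} := by
      constructor
      · rw [sub_mul, cart_sub hq, mul_assoc, cart_expand_mul hq, hK.1, mul_zero, sub_zero, hD1]
      · rw [sub_mul, cart_sub hq, mul_assoc, cart_expand_mul hq, hK.2, mul_zero, sub_zero, hD2]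
    have hlt : (D - expand k q c * D').natDegree < D.natDegree := by
      rcases hsub with h0 | h
      · rw [h0, natDegree_zero]; omega
      · exact h
    exact hmin _ hmem hlt
  refine ⟨⟨D, mem_of_natDegree_le hle⟩, ?_⟩
  ext1
  · exact Subtype.ext hD1
  · exact Subtype.ext hD2

theorem card_kernel [Finite k] {q : ℕ} (hq : 0 < q) {v₁ v₂ n₁ n₂ : k[X]}
    (r : Reduced q v₁ v₂ n₁ n₂) {N : ℕ}
    (hN : (N + 1 + n₁.natDegree) / q + (N + 1 + n₂.natDegree) / q < 3 * ((N + 1) / q)) :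
    Nat.card (LinearMap.ker (gamN q hq n₁ n₂ N)) *
        Nat.card k ^ ((N + 1 + n₁.natDegree) / q + (N + 1 + n₂.natDegree) / q) =
        Nat.card k ^ (N + 1) := by
  have h1 := Submodule.card_eq_card_quotient_mul_card (LinearMap.ker (gamN q hq n₁ n₂ N))
  rw [card_degreeLT] at h1
  rw [h1]
  congr 1
  rw [Nat.card_congr ((gamN q hq n₁ n₂ N).quotKerEquivOfSurjective
    (gamN_surjective hq r hN)).toEquiv, pow_add, Nat.card_prod, card_degreeLT, card_degreeLT]

/-- part L1 -/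
theorem main [Finite k] {q : ℕ} (hq : 0 < q) (v₁ v₂ : k[X])
    (h : ∀ a b : k[X], expand k q a * v₁ + expand k q b * v₂ = 0 → a = 0 ∧ b = 0) :
    ∃ n₁ n₂ a b c d : k[X], n₁ ≠ 0 ∧ n₂ ≠ 0 ∧ n₁.natDegree ≤ n₂.natDegree ∧
    ¬ n₁.natDegree ≡ n₂.natDegree [MOD q] ∧
    v₁ = expand k q a * n₁ + expand k q b * n₂ ∧
    v₂ = expand k q c * n₁ + expand k q d * n₂ ∧
    (a = 0 ∨ q * a.natDegree + n₁.natDegree ≤ v₁.natDegree) ∧
    (b = 0 ∨ q * b.natDegree + n₂.natDegree ≤ v₁.natDegree) ∧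
    (c = 0 ∨ q * c.natDegree + n₁.natDegree ≤ v₂.natDegree) ∧
    (d = 0 ∨ q * d.natDegree + n₂.natDegree ≤ v₂.natDegree) ∧
    ∀ N : ℕ, (N + 1 + n₁.natDegree) / q + (N + 1 + n₂.natDegree) / q < 3 * ((N + 1) / q) →
      Nat.card {D : k[X] // D.natDegree ≤ N ∧ cart q (D * v₁) = 0 ∧ cart q (D * v₂) = 0} *
        Nat.card k ^ ((N + 1 + n₁.natDegree) / q + (N + 1 + n₂.natDegree) / q) =
        Nat.card k ^ (N + 1) := by
  obtain ⟨n₁, n₂, r⟩ := exists_reduced hq h
  obtain ⟨a, b, hab, ha, hb⟩ := r.repr hq v₁ (inS_left _ _)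
  obtain ⟨c, d, hcd, hc, hd⟩ := r.repr hq v₂ (inS_right _ _)
  refine ⟨n₁, n₂, a, b, c, d, r.h1, r.h2, r.le, r.not_modEq hq, hab, hcd, ha, hb, hc, hd, ?_⟩
  intro N hN
  rw [← card_kernel hq r hN]
  congr 1
  refine Nat.card_congr ⟨fun D => ⟨⟨D.1, mem_of_natDegree_le D.2.1⟩, ?_⟩,
    fun D => ⟨D.1.1, natDegree_le_of_mem D.1.2, ?_, ?_⟩, ?_, ?_⟩
  · obtain ⟨D, hD, h1, h2⟩ := D
    have hz : ∀ n, InS q v₁ v₂ n → cart q (D * n) = 0 := by
      rintro n ⟨x, a₁, a₂, hx, e⟩
      have h3 : expand k q x * (D * n) = expand k q a₁ * (D * v₁) + expand k q a₂ * (D * v₂) := by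
        linear_combination D * e
      have h4 := congrArg (cart q) h3
      rw [cart_expand_mul hq, cart_add hq, cart_expand_mul hq, cart_expand_mul hq, h1, h2,
        mul_zero, mul_zero, add_zero] at h4
      exact (mul_eq_zero.1 h4).resolve_left hx
    rw [LinearMap.mem_ker, Prod.ext_iff]
    exact ⟨Subtype.ext (hz _ r.s1), Subtype.ext (hz _ r.s2)⟩
  · have hx := D.2
    rw [LinearMap.mem_ker, Prod.ext_iff] at hx
    have h1 : cart q (D.1.1 * n₁) = 0 := congrArg Subtype.val hx.1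
    have h2 : cart q (D.1.1 * n₂) = 0 := congrArg Subtype.val hx.2
    have h3 : D.1.1 * v₁ = expand k q a * (D.1.1 * n₁) + expand k q b * (D.1.1 * n₂) := by
      linear_combination D.1.1 * hab
    rw [h3, cart_add hq, cart_expand_mul hq, cart_expand_mul hq, h1, h2, mul_zero, mul_zero,
      add_zero]
  · have hx := D.2
    rw [LinearMap.mem_ker, Prod.ext_iff] at hx
    have h1 : cart q (D.1.1 * n₁) = 0 := congrArg Subtype.val hx.1
    have h2 : cart q (D.1.1 * n₂) = 0 := congrArg Subtype.val hx.2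
    have h3 : D.1.1 * v₂ = expand k q c * (D.1.1 * n₁) + expand k q d * (D.1.1 * n₂) := by
      linear_combination D.1.1 * hcd
    rw [h3, cart_add hq, cart_expand_mul hq, cart_expand_mul hq, h1, h2, mul_zero, mul_zero,
      add_zero]
  · intro D
    rfl
  · intro D
    rfl

end Pool.Agent.Y68.Lat
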