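import Pool.Agent.Y68.Grd3

/-!
Ordered fields: the valuation ring of finite elements, and the weighted-nondegenerate plane model.
-/

set_option autoImplicit false

open Finset

namespace Pool.Agent.Y68

section

variable {Ω : Type*} [Field Ω] [LinearOrder Ω] [IsStrictOrderedRing Ω]

/-- the finite elements over a subfield -/
def finRing (k : Subfield Ω) : ValuationSubring Ω where
  carrier := {x | ∃ c ∈ k, |x| ≤ c}
  mul_mem' := by
    rintro x y ⟨c, hc, hx⟩ ⟨d, hd, hy⟩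
    refine ⟨c * d, k.mul_mem hc hd, ?_⟩
    rw [abs_mul]
    exact mul_le_mul hx hy (abs_nonneg _) ((abs_nonneg _).trans hx)
  one_mem' := ⟨1, k.one_mem, by rw [abs_one]⟩
  add_mem' := by
    rintro x y ⟨c, hc, hx⟩ ⟨d, hd, hy⟩
    exact ⟨c + d, k.add_mem hc hd, (abs_add_le x y).trans (add_le_add hx hy)⟩
  zero_mem' := ⟨0, k.zero_mem, by rw [abs_zero]⟩
  neg_mem' := by
    rintro x ⟨c, hc, hx⟩
    exact ⟨c, hc, by rwa [abs_neg]⟩
  mem_or_inv_mem' := by
    intro x
    rcases le_total |x| 1 with h | h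
    · exact Or.inl ⟨1, k.one_mem, h⟩
    · exact Or.inr ⟨1, k.one_mem, by rw [abs_inv]; exact inv_le_one_of_one_le₀ h⟩

theorem mem_finRing {k : Subfield Ω} {x : Ω} : x ∈ finRing k ↔ ∃ c ∈ k, |x| ≤ c := Iff.rfl

theorem abs_mem {k : Subfield Ω} {x : Ω} (hx : x ∈ k) : |x| ∈ k := by
  rcases abs_choice x with h | h
  · rw [h]; exact hx
  · rw [h]; exact k.neg_mem hx

theorem finRing_of_mem {k : Subfield Ω} {x : Ω} (hx : x ∈ k) : x ∈ finRing k :=
  ⟨|x|, abs_mem hx, le_rfl⟩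

theorem small_iff (k : Subfield Ω) (x : Ω) :
    (finRing k).valuation x < 1 ↔ ∀ c ∈ k, 0 < c → |x| < c := by
  by_cases hx : x = 0
  · rw [hx, map_zero, abs_zero]
    exact ⟨fun _ c _ hc => hc, fun _ => zero_lt_one⟩
  have hpos : 0 < |x| := abs_pos.2 hx
  have hν : 0 < (finRing k).valuation x := zero_lt_iff.2 ((Valuation.ne_zero_iff _).2 hx)
  constructor
  · intro h c hc hc0
    by_contra hcon
    rw [not_lt] at hcon
    have h1 : x⁻¹ ∈ finRing k := ⟨c⁻¹, k.inv_mem hc, by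
      rw [abs_inv]
      exact inv_anti₀ hc0 hcon⟩
    rw [← ValuationSubring.valuation_le_one_iff, map_inv₀, inv_le_one₀ hν] at h1
    exact absurd h (not_lt.2 h1)
  · intro h
    by_contra hcon
    rw [not_lt] at hcon
    have h1 : x⁻¹ ∈ finRing k := by
      rw [← ValuationSubring.valuation_le_one_iff, map_inv₀, inv_le_one₀ hν]
      exact hcon
    obtain ⟨c, hc, hxc⟩ := h1
    rw [abs_inv] at hxc
    have hc0 : 0 < c := (inv_pos.2 hpos).trans_le hxc
    have h2 := h c⁻¹ (k.inv_mem hc) (inv_pos.2 hc0)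
    exact absurd h2 (not_lt.2 ((inv_le_comm₀ hpos hc0).1 hxc))

theorem finRing_hk (k : Subfield Ω) (x : k) (hx : x ≠ 0) :
    (finRing k).valuation (algebraMap k Ω x) = 1 := by
  have hx' : (x : Ω) ≠ 0 := fun h => hx (Subtype.ext h)
  have hν : 0 < (finRing k).valuation (x : Ω) := zero_lt_iff.2 ((Valuation.ne_zero_iff _).2 hx')
  apply le_antisymm
  · exact (ValuationSubring.valuation_le_one_iff _ _).2 (finRing_of_mem x.2)
  · have h1 := (ValuationSubring.valuation_le_one_iff _ _).2 (finRing_of_mem (k.inv_mem x.2))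
    rw [map_inv₀, inv_le_one₀ hν] at h1
    exact h1

end

open Grd in
theorem alg_part2 {Ω : Type*} [Field Ω] [LinearOrder Ω] [IsStrictOrderedRing Ω] (k : Subfield Ω)
    (a b : Ω) (ha : ∀ x ∈ k, x < |a|) (hb : IsIntegral (Algebra.adjoin k {a}) b)
    (s τ : Ω) (r : ℕ) (g : Polynomial k) (hs0 : s ≠ 0) (hs : ∀ x ∈ k, 0 < x → |s| < x)
    (hτ : ∃ x ∈ k, |τ| < x) (hr : 1 ≤ r) (hgm : g.Monic) (hgr : g.natDegree = r)
    (hgi : Irreducible g) (hg0 : g.coeff 0 ≠ 0)
    (hgτ : ∀ x ∈ k, 0 < x → |Polynomial.aeval τ g| < x)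
    (h1 : ∀ f ∈ Algebra.adjoin k {a, b}, f ≠ 0 → ∃ (W : ℕ) (p : Polynomial k), p ≠ 0 ∧
        p.natDegree < r ∧ ∀ x ∈ k, 0 < x → |f * s ^ W - Polynomial.aeval τ p| < x)
    (W0 : ℕ) (h2 : ∀ W ≥ W0, ∀ p : Polynomial k, p.natDegree < r →
      ∃ f ∈ Algebra.adjoin k {a, b},
        ∀ x ∈ k, 0 < x → |f * s ^ W - Polynomial.aeval τ p| < x) :
    ∃ (N : ℕ) (u v : Ω) (c : ℕ → ℕ → k),
      1 ≤ N ∧ u ∈ Algebra.adjoin k {a, b} ∧ v ∈ Algebra.adjoin k {a, b} ∧
      (∀ x ∈ k, x < |u|) ∧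
      (∀ i j, c i j ≠ 0 → j < N * r ∧ N * i + (N + 1) * j ≤ N * (N + 1) * r) ∧
      v ^ (N * r) + ∑ j ∈ range (N * r), ∑ i ∈ range ((N + 1) * r + 1),
        (c i j : Ω) * u ^ i * v ^ j = 0 ∧
      (∀ l < r, g.coeff l = c ((N + 1) * (r - l)) (N * l)) ∧
      IsIntegral (Algebra.adjoin k {u}) a ∧ IsIntegral (Algebra.adjoin k {u}) b ∧
      ∃ h ∈ Algebra.adjoin k {u}, h ≠ 0 ∧ h * a ∈ Algebra.adjoin k {u, v} ∧
        h * b ∈ Algebra.adjoin k {u, v} := by
  have haR : a ∈ Algebra.adjoin k {a, b} := Algebra.subset_adjoin (Or.inl rfl)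
  have hbR : b ∈ Algebra.adjoin k {a, b} := Algebra.subset_adjoin (Or.inr rfl)
  have d : Data (finRing k).valuation (Algebra.adjoin k {a, b}) s τ r g W0 :=
    { hk := finRing_hk k
      hs0 := hs0
      hs := (small_iff k s).2 hs
      hτ := by
        obtain ⟨x, hx, hx'⟩ := hτ
        exact (ValuationSubring.valuation_le_one_iff _ _).2 ⟨x, hx, hx'.le⟩
      hr := hr
      hgm := hgm
      hgr := hgr
      hgi := hgi
      hg0 := hg0
      hgτ := (small_iff k _).2 hgτ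
      h1 := by
        intro f hf hf0
        obtain ⟨W, p, hp, hpd, hc⟩ := h1 f hf hf0
        exact ⟨W, p, hp, hpd, (small_iff k _).2 hc⟩
      h2 := by
        intro W hW p hp
        obtain ⟨f, hf, hc⟩ := h2 W hW p hp
        exact ⟨f, hf, (small_iff k _).2 hc⟩ }
  obtain ⟨u, v, h⟩ := d.exists_uv (max W0 1) (le_max_left _ _)
  have hN : 1 ≤ max W0 1 := le_max_right _ _
  obtain ⟨c, hc1, hc2, hc3⟩ := d.equation h hN
  have hu1 := d.one_lt_u h hN
  have hint : ∀ x ∈ Algebra.adjoin k {a, b}, IsIntegral (Algebra.adjoin k {u}) x := by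
    intro x hx
    have h3 := d.integral h hN x hx
    let f : Polynomial k →ₐ[k] Algebra.adjoin k {u} :=
      (Polynomial.aeval u : Polynomial k →ₐ[k] Ω).codRestrict (Algebra.adjoin k {u})
        (fun p => Polynomial.aeval_mem_adjoin_singleton k u)
    exact RingHom.IsIntegralElem.of_comp (f := f.toRingHom)
      (g := algebraMap (Algebra.adjoin k {u}) Ω) h3
  have hS : ∀ x ∈ S k u v (max W0 1 * r), x ∈ Algebra.adjoin k {u, v} :=
    S_le (Algebra.subset_adjoin (Or.inl rfl)) (Algebra.subset_adjoin (Or.inr rfl))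
  refine ⟨max W0 1, u, v, c, hN, h.hu, h.hv, ?_, hc1, hc2, hc3, hint a haR, hint b hbR, ?_⟩
  · intro x hx
    by_contra hcon
    rw [not_lt] at hcon
    have : (finRing k).valuation u ≤ 1 :=
      (ValuationSubring.valuation_le_one_iff _ _).2 ⟨x, hx, hcon⟩
    exact absurd hu1 (not_lt.2 this)
  · obtain ⟨pa, hpa, hpa'⟩ := d.exists_kill h hN a haR
    obtain ⟨pb, hpb, hpb'⟩ := d.exists_kill h hN b hbR
    refine ⟨Polynomial.aeval u (pa * pb), Polynomial.aeval_mem_adjoin_singleton k u,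
      aeval_ne_zero d.hk hu1 (mul_ne_zero hpa hpb), hS _ ?_, hS _ ?_⟩
    · have e : Polynomial.aeval u (pa * pb) * a =
          Polynomial.aeval u pb * (Polynomial.aeval u pa * a) := by rw [map_mul]; ring
      rw [e]
      exact S_mul _ _ hpa'
    · have e : Polynomial.aeval u (pa * pb) * b =
          Polynomial.aeval u pa * (Polynomial.aeval u pb * b) := by rw [map_mul]; ring
      rw [e]
      exact S_mul _ _ hpb'

end Pool.Agent.Y68
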