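import Pool.Agent.Y68.Unif
import Pool.Agent.Y68.Part2

/-!
Graded data at infinity of a curve over an ordered field.
-/

set_option autoImplicit false

open Finset

namespace Pool.Agent.Y68

open Grd Polynomial in
theorem val_aeval {k F Γ : Type*} [Field k] [Field F] [Algebra k F]
    [LinearOrderedCommGroupWithZero Γ] {ν : Valuation F Γ}
    (hk : ∀ x : k, x ≠ 0 → ν (algebraMap k F x) = 1) {u : F} (hu : 1 < ν u)
    {p : k[X]} (hp : p ≠ 0) : ν (aeval u p) = ν u ^ p.natDegree := by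
  have hu0 : ν u ≠ 0 := (zero_lt_one.trans hu).ne'
  have h0 : ν (p.coeff p.natDegree • u ^ p.natDegree) = ν u ^ p.natDegree := by
    rw [coeff_natDegree, Algebra.smul_def, map_mul, hk _ (leadingCoeff_ne_zero.2 hp), one_mul,
      map_pow]
  rw [aeval_eq_sum_range, sum_range_succ]
  have h1 : ν (∑ i ∈ range p.natDegree, p.coeff i • u ^ i) <
      ν (p.coeff p.natDegree • u ^ p.natDegree) := by
    rw [h0]
    apply Valuation.map_sum_lt _ (pow_ne_zero _ hu0)
    intro i hi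
    rw [Algebra.smul_def, map_mul, map_pow]
    exact (mul_le_of_le_one_left' (val_le hk _)).trans_lt (pow_lt_pow_right₀ hu (mem_range.1 hi))
  rw [Valuation.map_add_eq_of_lt_right _ h1, h0]

section

open Grd Polynomial

variable {k K F Γ : Type*} [Field k] [Field K] [Field F] [Algebra k F] [Algebra K F]
  [LinearOrderedCommGroupWithZero Γ]
variable {ν : Valuation F Γ}

/-- polynomial part of a rational function -/
theorem exists_polyPart (hk : ∀ x : k, x ≠ 0 → ν (algebraMap k F x) = 1) {a : F}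
    (ha : 1 < ν a) (hKa : ∀ x : K, ∃ p q : k[X], algebraMap K F x = aeval a p / aeval a q)
    (x : K) : ∃ q : k[X], ν (algebraMap K F x - aeval a q) < 1 := by
  obtain ⟨p, h, hph⟩ := hKa x
  by_cases hh : h = 0
  · refine ⟨0, ?_⟩
    rw [hph, hh, map_zero, div_zero, sub_zero, map_zero]
    exact zero_lt_one
  have hh0 : aeval a h ≠ 0 := by
    rw [← Valuation.ne_zero_iff ν, val_aeval hk ha hh]
    exact pow_ne_zero _ (zero_lt_one.trans ha).ne'
  refine ⟨p / h, ?_⟩
  have h1 : algebraMap K F x - aeval a (p / h) = aeval a (p % h) / aeval a h := by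
    rw [hph, eq_div_iff hh0, sub_mul, div_mul_cancel₀ _ hh0]
    have h2 := congrArg (aeval a) (EuclideanDomain.div_add_mod p h)
    rw [map_add, map_mul] at h2
    linear_combination -h2
  rw [h1]
  by_cases hm : p % h = 0
  · rw [hm, map_zero, zero_div, map_zero]
    exact zero_lt_one
  · have h3 : (p % h).natDegree < h.natDegree := natDegree_lt_natDegree hm (EuclideanDomain.mod_lt p hh)
    rw [map_div₀, val_aeval hk ha hm, val_aeval hk ha hh,
      div_lt_one₀ (pow_pos (zero_lt_one.trans ha) _)]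
    exact pow_lt_pow_right₀ ha h3

theorem exists_const (hk : ∀ x : k, x ≠ 0 → ν (algebraMap k F x) = 1) {a : F}
    (ha : 1 < ν a) (hKa : ∀ x : K, ∃ p q : k[X], algebraMap K F x = aeval a p / aeval a q)
    (x : K) (hx : ν (algebraMap K F x) ≤ 1) :
    ∃ δ : k, ν (algebraMap K F x - algebraMap k F δ) < 1 := by
  obtain ⟨q, hq⟩ := exists_polyPart hk ha hKa x
  have h1 : ν (aeval a q) ≤ 1 := by
    have e : aeval a q = algebraMap K F x - (algebraMap K F x - aeval a q) := by ring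
    rw [e]
    exact (Valuation.map_sub _ _ _).trans (max_le hx hq.le)
  have h2 : q.natDegree = 0 := by
    by_contra hne
    have hq0 : q ≠ 0 := by
      rintro rfl
      exact hne natDegree_zero
    rw [val_aeval hk ha hq0] at h1
    exact absurd h1 (not_le.2 (one_lt_pow₀ ha hne))
  refine ⟨q.coeff 0, ?_⟩
  rw [eq_C_of_natDegree_eq_zero h2, aeval_C] at hq
  exact hq

theorem exists_zpow (hk : ∀ x : k, x ≠ 0 → ν (algebraMap k F x) = 1) {a : F}
    (ha : 1 < ν a) (hKa : ∀ x : K, ∃ p q : k[X], algebraMap K F x = aeval a p / aeval a q)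
    (x : K) (hx : x ≠ 0) : ∃ e : ℤ, ν (algebraMap K F x) = ν a ^ e := by
  obtain ⟨p, q, h⟩ := hKa x
  have hx' : algebraMap K F x ≠ 0 := (_root_.map_ne_zero _).2 hx
  have hp : p ≠ 0 := by
    rintro rfl
    rw [map_zero, zero_div] at h
    exact hx' h
  have hq : q ≠ 0 := by
    rintro rfl
    rw [map_zero, div_zero] at h
    exact hx' h
  refine ⟨(p.natDegree : ℤ) - q.natDegree, ?_⟩
  rw [h, map_div₀, val_aeval hk ha hp, val_aeval hk ha hq,
    zpow_sub₀ (zero_lt_one.trans ha).ne', zpow_natCast, zpow_natCast]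

/-- approximation by elements of the coordinate ring -/
theorem exists_approx (hk : ∀ x : k, x ≠ 0 → ν (algebraMap k F x) = 1) {a b : F}
    (ha : 1 < ν a) (hKa : ∀ x : K, ∃ p q : k[X], algebraMap K F x = aeval a p / aeval a q)
    {m : ℕ} (y : F) (P : K[X]) (hP : P.natDegree < m) (hy : y = aeval b P) :
    ∃ f ∈ Algebra.adjoin k {a, b}, ν (y - f) < max 1 (ν b ^ m) := by
  choose q hq using exists_polyPart hk ha hKa
  have hβ : (0 : Γ) < max 1 (ν b ^ m) := zero_lt_one.trans_le (le_max_left _ _)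
  have haR : a ∈ Algebra.adjoin k {a, b} := Algebra.subset_adjoin (Or.inl rfl)
  have hbR : b ∈ Algebra.adjoin k {a, b} := Algebra.subset_adjoin (Or.inr rfl)
  refine ⟨∑ i ∈ range m, aeval a (q (P.coeff i)) * b ^ i, ?_, ?_⟩
  · apply Subalgebra.sum_mem
    intro i _
    apply Subalgebra.mul_mem _ _ (Subalgebra.pow_mem _ hbR _)
    have : Algebra.adjoin k {a} ≤ Algebra.adjoin k {a, b} := Algebra.adjoin_le (by
      rintro _ rfl
      exact haR)
    exact this (aeval_mem_adjoin_singleton k a)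
  · rw [hy, aeval_eq_sum_range' hP, ← sum_sub_distrib]
    apply Valuation.map_sum_lt' _ hβ
    intro i hi
    rw [mem_range] at hi
    rw [Algebra.smul_def, ← sub_mul, map_mul, map_pow]
    have h1 : ν b ^ i ≤ max 1 (ν b ^ m) := by
      rcases le_total (ν b) 1 with h | h
      · exact (pow_le_one₀ zero_le h).trans (le_max_left _ _)
      · exact (pow_le_pow_right₀ h hi.le).trans (le_max_right _ _)
    by_cases hb : ν b ^ i = 0
    · rw [hb, mul_zero]; exact hβ
    · calc ν (algebraMap K F (P.coeff i) - aeval a (q (P.coeff i))) * ν b ^ i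
          < 1 * ν b ^ i := mul_lt_mul_of_pos_right (hq _) (zero_lt_iff.2 hb)
        _ = ν b ^ i := one_mul _
        _ ≤ _ := h1

/-- Everything in the function field. -/
theorem core1 [CharZero k] [FiniteDimensional K F]
    (hk : ∀ x : k, x ≠ 0 → ν (algebraMap k F x) = 1) {a b : F}
    (ha : 1 < ν a) (hKa : ∀ x : K, ∃ p q : k[X], algebraMap K F x = aeval a p / aeval a q)
    {m : ℕ} (hb : ∀ y : F, ∃ P : K[X], P.natDegree < m ∧ y = aeval b P)
    (hR : ∀ f ∈ Algebra.adjoin k {a, b}, ν f < 1 → f = 0) :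
    ∃ (s τ : F) (r : ℕ) (g : k[X]), s ≠ 0 ∧ ν s < 1 ∧ ν τ ≤ 1 ∧ 1 ≤ r ∧ g.Monic ∧
      g.natDegree = r ∧ Irreducible g ∧ g.coeff 0 ≠ 0 ∧ ν (aeval τ g) < 1 ∧
      (∀ f ∈ Algebra.adjoin k {a, b}, f ≠ 0 → ∃ (W : ℕ) (p : k[X]), p ≠ 0 ∧ p.natDegree < r ∧
        ν (f * s ^ W - aeval τ p) < 1) ∧
      ∃ W0 : ℕ, ∀ W ≥ W0, ∀ p : k[X], p.natDegree < r → ∃ f ∈ Algebra.adjoin k {a, b},
        ν (f * s ^ W - aeval τ p) < 1 := by
  have ha0 : a ≠ 0 := by
    rintro rfl
    rw [map_zero] at ha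
    exact absurd ha (not_lt.2 zero_le_one)
  obtain ⟨s, hs0, hs1, hs⟩ := exists_unif (K := K) (ν := ν) ha (exists_zpow hk ha hKa)
    ⟨a⁻¹, inv_ne_zero ha0, by rw [map_inv₀]; exact inv_lt_one_of_one_lt₀ ha⟩
  obtain ⟨τ, r, g, hτ, hr, hgm, hgr, hgi, hg0, hgτ, hall⟩ :=
    exists_gen (K := K) hk (exists_const hk ha hKa)
  have hνs : 0 < ν s := zero_lt_iff.2 ((Valuation.ne_zero_iff _).2 hs0)
  refine ⟨s, τ, r, g, hs0, hs1, hτ, hr, hgm, hgr, hgi, hg0, hgτ, ?_, ?_⟩
  · intro f hf hf0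
    obtain ⟨j, hj⟩ := hs f hf0
    have hge : 1 ≤ ν f := by
      by_contra hcon
      exact hf0 (hR f hf (not_le.1 hcon))
    have hj0 : j ≤ 0 := by
      by_contra hcon
      rw [not_le] at hcon
      have := zpow_lt_one₀ hνs hs1 hcon
      rw [← hj] at this
      exact absurd this (not_lt.2 hge)
    obtain ⟨W, hW⟩ : ∃ W : ℕ, j = -(W : ℤ) := ⟨j.natAbs, by omega⟩
    have hone : ν (f * s ^ W) = 1 := by
      rw [map_mul, map_pow, hj, hW, zpow_neg, zpow_natCast, inv_mul_cancel₀]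
      exact pow_ne_zero _ hνs.ne'
    obtain ⟨p, hpd, hp⟩ := hall (f * s ^ W) hone.le
    refine ⟨W, p, ?_, hpd, hp⟩
    rintro rfl
    rw [map_zero] at hp
    exact (cg_zero.1 hp).ne hone
  · obtain ⟨j, hj⟩ : ∃ j : ℤ, max 1 (ν b ^ m) = ν s ^ j := by
      rcases le_total (ν b ^ m) 1 with h | h
      · exact ⟨0, by rw [max_eq_left h, zpow_zero]⟩
      · rw [max_eq_right h]
        have hb0 : b ^ m ≠ 0 := by
          intro h0
          have h1 : ν (b ^ m) = 0 := by rw [h0, map_zero]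
          rw [map_pow] at h1
          rw [h1] at h
          exact absurd h (not_le.2 zero_lt_one)
        obtain ⟨j, hj⟩ := hs (b ^ m) hb0
        exact ⟨j, by rw [← hj, map_pow]⟩
    refine ⟨(-j).toNat, ?_⟩
    intro W hW p _
    obtain ⟨P, hP, hy⟩ := hb (aeval τ p / s ^ W)
    obtain ⟨f, hf, hlt⟩ := exists_approx hk ha hKa _ P hP hy
    refine ⟨f, hf, ?_⟩
    have hsW : s ^ W ≠ 0 := pow_ne_zero _ hs0
    have e : f * s ^ W - aeval τ p = -((aeval τ p / s ^ W - f) * s ^ W) := by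
      rw [sub_mul, div_mul_cancel₀ _ hsW]
      ring
    rw [e, Valuation.map_neg, map_mul, map_pow]
    rw [hj] at hlt
    calc ν (aeval τ p / s ^ W - f) * ν s ^ W < ν s ^ j * ν s ^ W :=
          mul_lt_mul_of_pos_right hlt (pow_pos hνs _)
      _ = ν s ^ (j + W) := by rw [zpow_add₀ hνs.ne', zpow_natCast]
      _ ≤ 1 := zpow_le_one₀ hνs hs1.le (by omega)

end

open Grd in
theorem alg_part1 {Ω : Type*} [Field Ω] [LinearOrder Ω] [IsStrictOrderedRing Ω] (k : Subfield Ω)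
    (a b : Ω) (ha : ∀ x ∈ k, x < |a|) (hb : IsIntegral (Algebra.adjoin k {a}) b)
    (hR : ∀ φ ∈ Algebra.adjoin k {a, b}, (∀ x ∈ k, 0 < x → |φ| < x) → φ = 0) :
    ∃ (s τ : Ω) (r : ℕ) (g : Polynomial k), s ≠ 0 ∧ (∀ x ∈ k, 0 < x → |s| < x) ∧
      (∃ x ∈ k, |τ| < x) ∧ 1 ≤ r ∧ g.Monic ∧ g.natDegree = r ∧ Irreducible g ∧ g.coeff 0 ≠ 0 ∧
      (∀ x ∈ k, 0 < x → |Polynomial.aeval τ g| < x) ∧
      (∀ f ∈ Algebra.adjoin k {a, b}, f ≠ 0 → ∃ (W : ℕ) (p : Polynomial k), p ≠ 0 ∧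
        p.natDegree < r ∧ ∀ x ∈ k, 0 < x → |f * s ^ W - Polynomial.aeval τ p| < x) ∧
      ∃ W0 : ℕ, ∀ W ≥ W0, ∀ p : Polynomial k, p.natDegree < r → ∃ f ∈ Algebra.adjoin k {a, b},
        ∀ x ∈ k, 0 < x → |f * s ^ W - Polynomial.aeval τ p| < x := by
  let K : IntermediateField k Ω := IntermediateField.adjoin k {a}
  have hbK : IsIntegral K b := by
    have hle : Algebra.adjoin k {a} ≤ K.toSubalgebra := IntermediateField.algebra_adjoin_le_adjoin k _
    have : (algebraMap (Algebra.adjoin k {a}) Ω) =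
        (algebraMap K Ω).comp (Subalgebra.inclusion hle).toRingHom := rfl
    unfold IsIntegral at hb ⊢
    rw [this] at hb
    exact RingHom.IsIntegralElem.of_comp hb
  let F : IntermediateField K Ω := IntermediateField.adjoin K {b}
  have hfd : FiniteDimensional K F := IntermediateField.adjoin.finiteDimensional hbK
  have haK : a ∈ K := IntermediateField.mem_adjoin_simple_self k a
  have hbF : b ∈ F := IntermediateField.mem_adjoin_simple_self K b
  have haF : a ∈ F := F.algebraMap_mem ⟨a, haK⟩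
  let ι : F →ₐ[k] Ω := F.val.restrictScalars k
  have hι : ∀ x : F, ι x = (x : Ω) := fun x => rfl
  let ν : Valuation F (finRing k).ValueGroup := (finRing k).valuation.comap (ι : F →+* Ω)
  have hν : ∀ x : F, ν x = (finRing k).valuation (x : Ω) := fun x => rfl
  have hc0 : CharZero k := inferInstance
  have hk : ∀ x : k, x ≠ 0 → ν (algebraMap k F x) = 1 := fun x hx => finRing_hk k x hx
  have ha1 : 1 < ν ⟨a, haF⟩ := by
    rw [hν]
    by_contra hcon
    rw [not_lt] at hcon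
    obtain ⟨c, hc, hac⟩ := (ValuationSubring.valuation_le_one_iff _ _).1 hcon
    exact absurd (ha c hc) (not_lt.2 hac)
  have hKa : ∀ x : K, ∃ p q : Polynomial k, algebraMap K F x =
      Polynomial.aeval (⟨a, haF⟩ : F) p / Polynomial.aeval (⟨a, haF⟩ : F) q := by
    intro x
    obtain ⟨p, q, hpq⟩ := (IntermediateField.mem_adjoin_simple_iff k (x : Ω)).1 x.2
    refine ⟨p, q, ?_⟩
    apply Subtype.ext
    have h1 : ι (Polynomial.aeval (⟨a, haF⟩ : F) p / Polynomial.aeval (⟨a, haF⟩ : F) q) =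
        Polynomial.aeval a p / Polynomial.aeval a q := by
      rw [map_div₀, ← Polynomial.aeval_algHom_apply, ← Polynomial.aeval_algHom_apply]
      rfl
    rw [← hι, ← hι, h1, ← hpq]
    rfl
  have hpb : ∀ y : F, ∃ P : Polynomial K, P.natDegree <
      (IntermediateField.adjoin.powerBasis hbK).dim ∧ y = Polynomial.aeval (⟨b, hbF⟩ : F) P := by
    intro y
    obtain ⟨P, hP1, hP2⟩ := (IntermediateField.adjoin.powerBasis hbK).exists_eq_aeval y
    exact ⟨P, hP1, hP2⟩
  have hmem : ∀ f : F, f ∈ Algebra.adjoin k {(⟨a, haF⟩ : F), ⟨b, hbF⟩} ↔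
      (f : Ω) ∈ Algebra.adjoin k {a, b} := by
    intro f
    have h1 : (Algebra.adjoin k {(⟨a, haF⟩ : F), ⟨b, hbF⟩}).map ι = Algebra.adjoin k {a, b} := by
      rw [AlgHom.map_adjoin, Set.image_pair]
      rfl
    rw [← h1]
    constructor
    · intro hf
      exact ⟨f, hf, rfl⟩
    · rintro ⟨f', hf', h2⟩
      have : f' = f := Subtype.ext h2
      exact this ▸ hf'
  have hlift : ∀ f : Ω, f ∈ Algebra.adjoin k {a, b} → ∃ f' : F, (f' : Ω) = f := by
    intro f hf
    have hle : Algebra.adjoin k {a, b} ≤ ι.range := by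
      apply Algebra.adjoin_le
      rintro x (rfl | rfl)
      · exact ⟨⟨x, haF⟩, rfl⟩
      · exact ⟨⟨x, hbF⟩, rfl⟩
    obtain ⟨f', hf'⟩ := hle hf
    exact ⟨f', hf'⟩
  obtain ⟨s, τ, r, g, hs0, hs1, hτ, hr, hgm, hgr, hgi, hg0, hgτ, h1, W0, h2⟩ :=
    core1 (K := K) (ν := ν) hk ha1 hKa hpb (by
      intro f hf hlt
      have h3 := hR f ((hmem f).1 hf) ((small_iff k _).1 hlt)
      exact Subtype.ext h3)
  have hae : ∀ p : Polynomial k, ((Polynomial.aeval τ p : F) : Ω) = Polynomial.aeval (τ : Ω) p := by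
    intro p
    rw [← hι, ← Polynomial.aeval_algHom_apply]
    rfl
  refine ⟨(s : Ω), (τ : Ω), r, g, fun h => hs0 (Subtype.ext h), (small_iff k _).1 hs1, ?_, hr,
    hgm, hgr, hgi, hg0, ?_, ?_, W0, ?_⟩
  · obtain ⟨c, hc, hτc⟩ := (ValuationSubring.valuation_le_one_iff _ _).1 hτ
    exact ⟨c + 1, k.add_mem hc k.one_mem, hτc.trans_lt (lt_add_one _)⟩
  · rw [← hae]
    exact (small_iff k _).1 hgτ
  · intro f hf hf0
    obtain ⟨f', rfl⟩ := hlift f hf
    obtain ⟨W, p, hp, hpd, hlt⟩ := h1 f' ((hmem f').2 hf) (fun h => hf0 (by rw [h]; rfl))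
    refine ⟨W, p, hp, hpd, ?_⟩
    rw [← hae]
    exact (small_iff k _).1 hlt
  · intro W hW p hp
    obtain ⟨f', hf', hlt⟩ := h2 W hW p hp
    refine ⟨(f' : Ω), (hmem f').1 hf', ?_⟩
    rw [← hae]
    exact (small_iff k _).1 hlt

end Pool.Agent.Y68
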