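import Mathlib

/-!
The place at infinity of a weighted-nondegenerate curve.
-/

set_option autoImplicit false

open Finset

namespace Pool.Agent.Y68.Place

section Order

variable {Γ : Type*} [LinearOrderedCommGroupWithZero Γ]

theorem ord1 {a b : Γ} {N r i j : ℕ} (ha : 1 < a) (hab : a ^ (N + 1) < b ^ N)
    (hj : j < N * r) (hw : N * i + (N + 1) * j ≤ N * (N + 1) * r) :
    a ^ i * b ^ j < b ^ (N * r) := by
  have hb : 1 < b := by
    by_contra h
    have h1 : b ^ N ≤ 1 := pow_le_one₀ zero_le (not_lt.1 h)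
    have h2 : 1 < a ^ (N + 1) := one_lt_pow₀ ha (Nat.succ_ne_zero N)
    exact absurd (h2.trans hab) (not_lt.2 h1)
  have hb0 : 0 < b := zero_lt_one.trans hb
  rcases Nat.eq_zero_or_pos i with rfl | hi
  · rw [pow_zero, one_mul]
    exact pow_lt_pow_right₀ hb hj
  · by_contra hcon
    rw [not_lt] at hcon
    have h1 : (b ^ (N * r)) ^ (N + 1) ≤ (a ^ i * b ^ j) ^ (N + 1) :=
      pow_le_pow_left₀ zero_le hcon _
    have h2 : (a ^ i * b ^ j) ^ (N + 1) < b ^ (N * i + (N + 1) * j) := by
      have e1 : (a ^ i * b ^ j) ^ (N + 1) = (a ^ (N + 1)) ^ i * b ^ ((N + 1) * j) := by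
        rw [mul_pow, ← pow_mul, ← pow_mul, ← pow_mul, mul_comm i, mul_comm j]
      have e2 : b ^ (N * i + (N + 1) * j) = (b ^ N) ^ i * b ^ ((N + 1) * j) := by
        rw [pow_add, pow_mul]
      rw [e1, e2]
      apply mul_lt_mul_of_pos_right
      · exact pow_lt_pow_left₀ hab zero_le hi.ne'
      · exact pow_pos hb0 _
    have h3 : b ^ (N * i + (N + 1) * j) ≤ b ^ (N * (N + 1) * r) := pow_le_pow_right₀ hb.le hw
    have h4 : (b ^ (N * r)) ^ (N + 1) = b ^ (N * (N + 1) * r) := by
      rw [← pow_mul]; congr 1; ring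
    rw [h4] at h1
    exact absurd (h1.trans_lt h2) (not_lt.2 h3)

theorem ord2 {a b : Γ} {N r i j : ℕ} (hN : 1 ≤ N) (ha : 1 < a) (hab : b ^ N < a ^ (N + 1))
    (hne : ¬ (i = (N + 1) * r ∧ j = 0)) (hw : N * i + (N + 1) * j ≤ N * (N + 1) * r) :
    a ^ i * b ^ j < a ^ ((N + 1) * r) := by
  have ha0 : 0 < a := zero_lt_one.trans ha
  rcases Nat.eq_zero_or_pos j with rfl | hj
  · rw [pow_zero, mul_one]
    apply pow_lt_pow_right₀ ha
    have h1 : i ≤ (N + 1) * r := by
      rw [mul_zero, add_zero, mul_assoc] at hw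
      exact Nat.le_of_mul_le_mul_left hw hN
    exact lt_of_le_of_ne h1 fun h => hne ⟨h, rfl⟩
  · by_contra hcon
    rw [not_lt] at hcon
    have h1 : (a ^ ((N + 1) * r)) ^ N ≤ (a ^ i * b ^ j) ^ N := pow_le_pow_left₀ zero_le hcon _
    have h2 : (a ^ i * b ^ j) ^ N < a ^ (N * i + (N + 1) * j) := by
      have e1 : (a ^ i * b ^ j) ^ N = a ^ (N * i) * (b ^ N) ^ j := by
        rw [mul_pow, ← pow_mul, ← pow_mul, ← pow_mul, mul_comm i, mul_comm j]
      have e2 : a ^ (N * i + (N + 1) * j) = a ^ (N * i) * (a ^ (N + 1)) ^ j := by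
        rw [pow_add, pow_mul a (N + 1)]
      rw [e1, e2]
      apply mul_lt_mul_of_pos_left
      · exact pow_lt_pow_left₀ hab zero_le hj.ne'
      · exact pow_pos ha0 _
    have h3 : a ^ (N * i + (N + 1) * j) ≤ a ^ (N * (N + 1) * r) := pow_le_pow_right₀ ha.le hw
    have h4 : (a ^ ((N + 1) * r)) ^ N = a ^ (N * (N + 1) * r) := by
      rw [← pow_mul]; congr 1; ring
    rw [h4] at h1
    exact absurd (h1.trans_lt h2) (not_lt.2 h3)

theorem ord3 {a b : Γ} {N r i j : ℕ} (ha : 1 < a) (hab : b ^ N = a ^ (N + 1))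
    (hw : N * i + (N + 1) * j < N * (N + 1) * r) :
    a ^ i * b ^ j < a ^ ((N + 1) * r) := by
  by_contra hcon
  rw [not_lt] at hcon
  have h1 : (a ^ ((N + 1) * r)) ^ N ≤ (a ^ i * b ^ j) ^ N := pow_le_pow_left₀ zero_le hcon _
  have h2 : (a ^ i * b ^ j) ^ N = a ^ (N * i + (N + 1) * j) := by
    have e1 : (a ^ i * b ^ j) ^ N = a ^ (N * i) * (b ^ N) ^ j := by
      rw [mul_pow, ← pow_mul, ← pow_mul, ← pow_mul, mul_comm i, mul_comm j]
    rw [e1, hab, ← pow_mul, ← pow_add]
  have h3 : a ^ (N * i + (N + 1) * j) < a ^ (N * (N + 1) * r) := pow_lt_pow_right₀ ha hw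
  have h4 : (a ^ ((N + 1) * r)) ^ N = a ^ (N * (N + 1) * r) := by
    rw [← pow_mul]; congr 1; ring
  rw [h4, h2] at h1
  exact absurd h3 (not_lt.2 h1)

end Order

variable {L : Type*} [Field L] [Algebra ℚ L]

/-- valuation subrings containing the rationals with `u` not in it -/
def Good (u : L) (A : ValuationSubring L) : Prop :=
  (∀ x : ℚ, algebraMap ℚ L x ∈ A) ∧ u ∉ A

theorem Good.val_rat {u : L} {A : ValuationSubring L} (h : Good u A) {x : ℚ} (hx : x ≠ 0) :
    A.valuation (algebraMap ℚ L x) = 1 := by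
  apply le_antisymm
  · exact (A.valuation_le_one_iff _).2 (h.1 x)
  · have h1 := (A.valuation_le_one_iff _).2 (h.1 x⁻¹)
    rw [map_inv₀, map_inv₀] at h1
    have h2 : A.valuation (algebraMap ℚ L x) ≠ 0 := by
      rw [Valuation.ne_zero_iff]
      exact (map_ne_zero _).2 hx
    exact (inv_le_one₀ (zero_lt_iff.2 h2)).1 h1

theorem Good.one_lt {u : L} {A : ValuationSubring L} (h : Good u A) : 1 < A.valuation u := by
  rw [← not_le, A.valuation_le_one_iff]
  exact h.2

theorem exists_good {u : L} (hu : Transcendental ℚ u) : ∃ A : ValuationSubring L, Good u A := by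
  have h1 : u ∉ (integralClosure ℚ L).toSubring := by
    intro h
    exact hu (IsIntegral.isAlgebraic h)
  have : IsIntegrallyClosedIn (integralClosure ℚ L).toSubring L :=
    inferInstanceAs (IsIntegrallyClosedIn (integralClosure ℚ L) L)
  obtain ⟨V, hV, huV⟩ := Subring.exists_le_valuationSubring_of_isIntegrallyClosedIn h1
  exact ⟨V, fun x => hV (algebraMap_mem (integralClosure ℚ L) x), huV⟩

section

variable {u v : L} {N r : ℕ} {c : ℕ → ℕ → ℚ} {g : Polynomial ℚ}

theorem Good.val_term {A : ValuationSubring L} (h : Good u A) {x : ℚ} (hx : x ≠ 0) (i j : ℕ) :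
    A.valuation (algebraMap ℚ L x * u ^ i * v ^ j) = A.valuation u ^ i * A.valuation v ^ j := by
  rw [map_mul, map_mul, h.val_rat hx, one_mul, map_pow, map_pow]

theorem Good.pow_eq {A : ValuationSubring L} (h : Good u A) (hN : 1 ≤ N)
    (hr : 1 ≤ r)
    (hc : ∀ i j, c i j ≠ 0 → j < N * r ∧ N * i + (N + 1) * j ≤ N * (N + 1) * r)
    (hG : v ^ (N * r) + ∑ j ∈ range (N * r), ∑ i ∈ range ((N + 1) * r + 1),
        algebraMap ℚ L (c i j) * u ^ i * v ^ j = 0)
    (hc0 : c ((N + 1) * r) 0 ≠ 0) :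
    A.valuation v ^ N = A.valuation u ^ (N + 1) := by
  rcases lt_trichotomy (A.valuation v ^ N) (A.valuation u ^ (N + 1)) with hlt | heq | hgt
  · exfalso
    have ha := h.one_lt
    have ha0 : A.valuation u ≠ 0 := (zero_lt_one.trans ha).ne'
    have hmem : (0, (N + 1) * r) ∈ (range (N * r)) ×ˢ (range ((N + 1) * r + 1)) := by
      rw [mem_product, mem_range, mem_range]
      exact ⟨Nat.mul_pos hN hr, Nat.lt_succ_self _⟩
    rw [← sum_product', ← add_sum_erase _ _ hmem] at hG
    have h1 : A.valuation (v ^ (N * r) +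
        ∑ x ∈ ((range (N * r)) ×ˢ (range ((N + 1) * r + 1))).erase (0, (N + 1) * r),
        algebraMap ℚ L (c x.2 x.1) * u ^ x.2 * v ^ x.1) < A.valuation u ^ ((N + 1) * r) := by
      apply Valuation.map_add_lt
      · rw [map_pow]
        have := ord2 (i := 0) (j := N * r) (r := r) hN ha hlt (by
          rintro ⟨h1, h2⟩
          exact (Nat.mul_pos hN hr).ne' h2) (by
          rw [mul_zero, zero_add]
          exact le_of_eq (by ring))
        rwa [pow_zero, one_mul] at this
      · apply Valuation.map_sum_lt _ (pow_ne_zero _ ha0)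
        rintro ⟨j, i⟩ hji
        rw [mem_erase, mem_product, mem_range, mem_range] at hji
        by_cases hcz : c i j = 0
        · simp only [hcz, map_zero, zero_mul]
          exact zero_lt_iff.2 (pow_ne_zero _ ha0)
        · simp only
          rw [h.val_term hcz]
          exact ord2 hN ha hlt (fun hh => hji.1 (by rw [hh.1, hh.2])) (hc i j hcz).2
    have h2 : A.valuation (algebraMap ℚ L (c ((N + 1) * r) 0) * u ^ ((N + 1) * r) * v ^ 0) =
        A.valuation u ^ ((N + 1) * r) := by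
      rw [h.val_term hc0, pow_zero, mul_one]
    have h3 : algebraMap ℚ L (c ((N + 1) * r) 0) * u ^ ((N + 1) * r) * v ^ 0 =
        - (v ^ (N * r) +
        ∑ x ∈ ((range (N * r)) ×ˢ (range ((N + 1) * r + 1))).erase (0, (N + 1) * r),
        algebraMap ℚ L (c x.2 x.1) * u ^ x.2 * v ^ x.1) := by
      linear_combination hG
    rw [h3, Valuation.map_neg] at h2
    exact h1.ne h2
  · exact heq
  · exfalso
    have ha := h.one_lt
    have hv0 : A.valuation v ≠ 0 := by
      intro h0
      rw [h0, zero_pow (by omega)] at hgt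
      exact not_lt_zero hgt
    have h1 : A.valuation (∑ j ∈ range (N * r), ∑ i ∈ range ((N + 1) * r + 1),
        algebraMap ℚ L (c i j) * u ^ i * v ^ j) < A.valuation v ^ (N * r) := by
      apply Valuation.map_sum_lt _ (pow_ne_zero _ hv0)
      intro j _
      apply Valuation.map_sum_lt _ (pow_ne_zero _ hv0)
      intro i _
      by_cases hcz : c i j = 0
      · simp only [hcz, map_zero, zero_mul]
        exact zero_lt_iff.2 (pow_ne_zero _ hv0)
      · rw [h.val_term hcz]
        exact ord1 ha hgt (hc i j hcz).1 (hc i j hcz).2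
    have h2 : v ^ (N * r) = - ∑ j ∈ range (N * r), ∑ i ∈ range ((N + 1) * r + 1),
        algebraMap ℚ L (c i j) * u ^ i * v ^ j := by
      linear_combination hG
    rw [← map_pow, h2, Valuation.map_neg] at h1
    exact lt_irrefl _ h1


theorem Good.g_small {A : ValuationSubring L} (h : Good u A) (hN : 1 ≤ N) (hr : 1 ≤ r)
    (hc : ∀ i j, c i j ≠ 0 → j < N * r ∧ N * i + (N + 1) * j ≤ N * (N + 1) * r)
    (hG : v ^ (N * r) + ∑ j ∈ range (N * r), ∑ i ∈ range ((N + 1) * r + 1),
        algebraMap ℚ L (c i j) * u ^ i * v ^ j = 0)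
    (hgm : g.Monic) (hgr : g.natDegree = r)
    (hgc : ∀ l < r, g.coeff l = c ((N + 1) * (r - l)) (N * l))
    (hpow : A.valuation v ^ N = A.valuation u ^ (N + 1)) :
    A.valuation (Polynomial.aeval (v ^ N / u ^ (N + 1)) g) < 1 := by
  have ha := h.one_lt
  have ha0 : A.valuation u ≠ 0 := (zero_lt_one.trans ha).ne'
  have hu0 : u ≠ 0 := by
    rintro rfl
    exact ha0 (map_zero _)
  have key : u ^ ((N + 1) * r) * Polynomial.aeval (v ^ N / u ^ (N + 1)) g =
      - ∑ x ∈ ((range (N * r)) ×ˢ (range ((N + 1) * r + 1))).filter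
        (fun x => ¬ N * x.2 + (N + 1) * x.1 = N * (N + 1) * r),
        algebraMap ℚ L (c x.2 x.1) * u ^ x.2 * v ^ x.1 := by
    rw [Polynomial.aeval_eq_sum_range, hgr, sum_range_succ, ← hgr, hgm.coeff_natDegree, hgr,
      one_smul, mul_add, mul_sum]
    have e1 : u ^ ((N + 1) * r) * (v ^ N / u ^ (N + 1)) ^ r = v ^ (N * r) := by
      rw [div_pow, ← pow_mul, ← pow_mul, mul_div_cancel₀]
      exact pow_ne_zero _ hu0
    have e2 : ∑ l ∈ range r, u ^ ((N + 1) * r) * (g.coeff l • (v ^ N / u ^ (N + 1)) ^ l) =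
        ∑ x ∈ ((range (N * r)) ×ˢ (range ((N + 1) * r + 1))).filter
        (fun x => N * x.2 + (N + 1) * x.1 = N * (N + 1) * r),
        algebraMap ℚ L (c x.2 x.1) * u ^ x.2 * v ^ x.1 := by
      apply sum_of_injOn (fun l => (N * l, (N + 1) * (r - l)))
      · intro l _ l' _ hll
        simp only [Prod.mk.injEq] at hll
        exact Nat.eq_of_mul_eq_mul_left hN hll.1
      · intro l hl
        rw [mem_coe, mem_range] at hl
        rw [mem_coe, mem_filter, mem_product, mem_range, mem_range]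
        refine ⟨⟨Nat.mul_lt_mul_of_pos_left hl hN, ?_⟩, ?_⟩
        · apply Nat.lt_succ_of_le
          exact Nat.mul_le_mul_left _ (Nat.sub_le _ _)
        · obtain ⟨m, rfl⟩ := Nat.exists_eq_add_of_lt hl
          have : l + m + 1 - l = m + 1 := by omega
          simp only
          rw [this]
          ring
      · rintro ⟨j, i⟩ hx hnot
        rw [mem_filter, mem_product, mem_range, mem_range] at hx
        simp only
        by_contra hne
        have hcne : c i j ≠ 0 := by
          intro h0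
          rw [h0, map_zero, zero_mul, zero_mul] at hne
          exact hne rfl
        apply hnot
        have hdvd : N ∣ (N + 1) * j := by
          have : (N + 1) * j = N * ((N + 1) * r) - N * i := by
            have := hx.2
            simp only at this
            rw [← mul_assoc]; omega
          rw [this]
          exact Nat.dvd_sub (Dvd.intro _ rfl) (Dvd.intro _ rfl)
        have hcop : Nat.Coprime N (N + 1) := by simp
        obtain ⟨l, rfl⟩ := hcop.dvd_of_dvd_mul_left hdvd
        have hl : l < r := by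
          have := (hc i _ hcne).1
          exact Nat.lt_of_mul_lt_mul_left this
        refine ⟨l, mem_coe.2 (mem_range.2 hl), ?_⟩
        have h5 := hx.2
        simp only at h5
        have h6 : N * i = N * ((N + 1) * (r - l)) := by
          obtain ⟨m, rfl⟩ := Nat.exists_eq_add_of_lt hl
          have : l + m + 1 - l = m + 1 := by omega
          rw [this]
          have e : N * (N + 1) * (l + m + 1) = N * ((N + 1) * (m + 1)) + (N + 1) * (N * l) := by
            ring
          omega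
        simp only [Prod.mk.injEq, true_and]
        exact (Nat.eq_of_mul_eq_mul_left hN h6).symm
      · intro l hl
        rw [mem_range] at hl
        simp only
        rw [hgc l hl, Algebra.smul_def, div_pow, ← pow_mul, ← pow_mul]
        have e3 : u ^ ((N + 1) * r) = u ^ ((N + 1) * (r - l)) * u ^ ((N + 1) * l) := by
          rw [← pow_add, ← Nat.mul_add, Nat.sub_add_cancel hl.le]
        rw [e3]
        have : u ^ ((N + 1) * l) ≠ 0 := pow_ne_zero _ hu0
        field_simp
    rw [e1, e2]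
    rw [← sum_product', ← sum_filter_add_sum_filter_not _
      (fun x => N * x.2 + (N + 1) * x.1 = N * (N + 1) * r)] at hG
    linear_combination hG
  have h1 : A.valuation (u ^ ((N + 1) * r) * Polynomial.aeval (v ^ N / u ^ (N + 1)) g) <
      A.valuation u ^ ((N + 1) * r) := by
    rw [key, Valuation.map_neg]
    apply Valuation.map_sum_lt _ (pow_ne_zero _ ha0)
    rintro ⟨j, i⟩ hx
    rw [mem_filter] at hx
    by_cases hcz : c i j = 0
    · simp only [hcz, map_zero, zero_mul]
      exact zero_lt_iff.2 (pow_ne_zero _ ha0)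
    · simp only
      rw [h.val_term hcz]
      exact ord3 ha hpow (lt_of_le_of_ne (hc i j hcz).2 hx.2)
  rw [map_mul, map_pow] at h1
  have h2 : 0 < A.valuation u ^ ((N + 1) * r) := zero_lt_iff.2 (pow_ne_zero _ ha0)
  exact (mul_lt_iff_lt_one_right h2).1 h1

/-- polynomials in a unit have value at most one -/
theorem Good.aeval_le {A : ValuationSubring L} (h : Good u A) {t : L} (ht : A.valuation t ≤ 1)
    (p : Polynomial ℚ) : A.valuation (Polynomial.aeval t p) ≤ 1 := by
  rw [Polynomial.aeval_eq_sum_range]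
  apply Valuation.map_sum_le
  intro i _
  rw [Algebra.smul_def, map_mul, map_pow]
  exact mul_le_one' ((A.valuation_le_one_iff _).2 (h.1 _)) (pow_le_one₀ zero_le ht)

theorem Good.aeval_eq_one {A : ValuationSubring L} (h : Good u A) {t : L}
    (ht : A.valuation t ≤ 1) (hgi : Irreducible g) (hg : A.valuation (Polynomial.aeval t g) < 1)
    {p : Polynomial ℚ} (hp : p ≠ 0) (hpd : p.natDegree < g.natDegree) :
    A.valuation (Polynomial.aeval t p) = 1 := by
  apply le_antisymm (h.aeval_le ht p)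
  have hnd : ¬ g ∣ p := fun hd => absurd (Polynomial.natDegree_le_of_dvd hd hp) (not_le.2 hpd)
  obtain ⟨x, y, hxy⟩ := (EuclideanDomain.dvd_or_coprime g p hgi).resolve_left hnd
  by_contra hlt
  rw [not_le] at hlt
  have h1 := congrArg (Polynomial.aeval t) hxy
  rw [map_add, map_mul, map_mul, map_one] at h1
  have h2 : A.valuation (Polynomial.aeval t x * Polynomial.aeval t g +
      Polynomial.aeval t y * Polynomial.aeval t p) < 1 := by
    apply Valuation.map_add_lt
    · rw [map_mul]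
      exact (mul_le_of_le_one_left' (h.aeval_le ht x)).trans_lt hg
    · rw [map_mul]
      exact (mul_le_of_le_one_left' (h.aeval_le ht y)).trans_lt hlt
  rw [h1, map_one] at h2
  exact lt_irrefl _ h2


/-- the monomials with bounded exponent of `v` span everything -/
theorem span_all (hN : 1 ≤ N) (hr : 1 ≤ r)
    (hG : v ^ (N * r) + ∑ j ∈ range (N * r), ∑ i ∈ range ((N + 1) * r + 1),
        algebraMap ℚ L (c i j) * u ^ i * v ^ j = 0) (z : L)
    (hz : z ∈ Algebra.adjoin ℚ {u, v}) :
    z ∈ Submodule.span ℚ (Set.range fun p : {p : ℕ × ℕ // p.2 < N * r} =>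
      u ^ p.1.1 * v ^ p.1.2) := by
  set M := Submodule.span ℚ (Set.range fun p : {p : ℕ × ℕ // p.2 < N * r} =>
      u ^ p.1.1 * v ^ p.1.2) with hM
  have hgen : ∀ i j, j < N * r → u ^ i * v ^ j ∈ M := fun i j hj =>
    Submodule.subset_span ⟨⟨(i, j), hj⟩, rfl⟩
  have hu : ∀ m ∈ M, u * m ∈ M := by
    intro m hm
    induction hm using Submodule.span_induction with
    | mem x hx =>
      obtain ⟨⟨⟨i, j⟩, hj⟩, rfl⟩ := hx
      have : u * (u ^ i * v ^ j) = u ^ (i + 1) * v ^ j := by ring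
      simp only
      rw [this]
      exact hgen _ _ hj
    | zero => rw [mul_zero]; exact M.zero_mem
    | add x y _ _ hx hy => rw [mul_add]; exact M.add_mem hx hy
    | smul a x _ hx => rw [mul_smul_comm]; exact M.smul_mem _ hx
  have hv : ∀ m ∈ M, v * m ∈ M := by
    intro m hm
    induction hm using Submodule.span_induction with
    | mem x hx =>
      obtain ⟨⟨⟨i, j⟩, hj⟩, rfl⟩ := hx
      simp only
      rcases Nat.lt_or_ge (j + 1) (N * r) with hj1 | hj1
      · have : v * (u ^ i * v ^ j) = u ^ i * v ^ (j + 1) := by ring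
        rw [this]
        exact hgen _ _ hj1
      · have hj2 : j + 1 = N * r := by simp only at hj; omega
        have : v * (u ^ i * v ^ j) = - ∑ j ∈ range (N * r), ∑ i' ∈ range ((N + 1) * r + 1),
            (c i' j) • (u ^ (i + i') * v ^ j) := by
          have e1 : v * (u ^ i * v ^ j) = u ^ i * v ^ (N * r) := by rw [← hj2]; ring
          have e2 : ∑ j ∈ range (N * r), ∑ i' ∈ range ((N + 1) * r + 1),
            (c i' j) • (u ^ (i + i') * v ^ j) = u ^ i * ∑ j ∈ range (N * r),
            ∑ i ∈ range ((N + 1) * r + 1), algebraMap ℚ L (c i j) * u ^ i * v ^ j := by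
            rw [mul_sum]
            apply sum_congr rfl
            intro j _
            rw [mul_sum]
            apply sum_congr rfl
            intro i' _
            rw [Algebra.smul_def]
            ring
          rw [e1, e2]
          linear_combination (u ^ i) * hG
        rw [this]
        apply M.neg_mem
        apply M.sum_mem
        intro j hj
        apply M.sum_mem
        intro i' _
        exact M.smul_mem _ (hgen _ _ (mem_range.1 hj))
    | zero => rw [mul_zero]; exact M.zero_mem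
    | add x y _ _ hx hy => rw [mul_add]; exact M.add_mem hx hy
    | smul a x _ hx => rw [mul_smul_comm]; exact M.smul_mem _ hx
  have hall : ∀ m ∈ M, z * m ∈ M := by
    induction hz using Algebra.adjoin_induction with
    | mem x hx =>
      rcases hx with rfl | hx
      · exact hu
      · rw [Set.mem_singleton_iff] at hx
        rw [hx]
        exact hv
    | algebraMap a =>
      intro m hm
      rw [← Algebra.smul_def]
      exact M.smul_mem _ hm
    | add x y _ _ hx hy =>
      intro m hm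
      rw [add_mul]
      exact M.add_mem (hx m hm) (hy m hm)
    | mul x y _ _ hx hy =>
      intro m hm
      rw [mul_assoc]
      exact hx _ (hy m hm)
  have h1 : (1 : L) ∈ M := by
    have := hgen 0 0 (Nat.mul_pos hN hr)
    rwa [pow_zero, pow_zero, mul_one] at this
  have := hall 1 h1
  rwa [mul_one] at this

theorem wt_lemma {i j i₁ j₁ : ℕ} (hN : 1 ≤ N)
    (h : N * i + (N + 1) * j = N * i₁ + (N + 1) * j₁) (hj : j₁ ≤ j) :
    ∃ l, j = j₁ + N * l ∧ i₁ = i + (N + 1) * l := by
  obtain ⟨d, rfl⟩ := Nat.exists_eq_add_of_le hj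
  have h1 : N * i₁ = N * i + (N + 1) * d := by
    have : (N + 1) * (j₁ + d) = (N + 1) * j₁ + (N + 1) * d := by ring
    omega
  have hdvd : N ∣ (N + 1) * d := by
    have : (N + 1) * d = N * i₁ - N * i := by omega
    rw [this]
    exact Nat.dvd_sub (Dvd.intro _ rfl) (Dvd.intro _ rfl)
  have hcop : Nat.Coprime N (N + 1) := by simp
  obtain ⟨l, rfl⟩ := hcop.dvd_of_dvd_mul_left hdvd
  refine ⟨l, rfl, ?_⟩
  have h2 : N * i₁ = N * (i + (N + 1) * l) := by rw [h1]; ring
  exact Nat.eq_of_mul_eq_mul_left hN h2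

omit [Algebra ℚ L] in
theorem mono_div (hv : v ≠ 0) (i j : ℕ) :
    u ^ i * v ^ j / (v / u) ^ (N * i + (N + 1) * j) = (u ^ (N + 1) / v ^ N) ^ (i + j) := by
  rw [div_pow, div_pow, div_div_eq_mul_div, div_eq_div_iff (pow_ne_zero _ hv)
    (pow_ne_zero _ (pow_ne_zero _ hv))]
  ring

/-- leading term of an element of the coordinate ring -/
theorem exists_lead (hu : u ≠ 0) (hv : v ≠ 0) (hN : 1 ≤ N) (hr : 1 ≤ r)
    (hG : v ^ (N * r) + ∑ j ∈ range (N * r), ∑ i ∈ range ((N + 1) * r + 1),
        algebraMap ℚ L (c i j) * u ^ i * v ^ j = 0) (z : L)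
    (hz : z ∈ Algebra.adjoin ℚ {u, v}) (hz0 : z ≠ 0) :
    ∃ (W n : ℕ) (P : Polynomial ℚ), P ≠ 0 ∧ P.natDegree < r ∧ ∀ A : ValuationSubring L,
      Good u A → A.valuation v ^ N = A.valuation u ^ (N + 1) →
      A.valuation (z / (v / u) ^ W - (u ^ (N + 1) / v ^ N) ^ n *
        Polynomial.aeval (v ^ N / u ^ (N + 1)) P) < 1 := by
  classical
  obtain ⟨a, ha⟩ := Finsupp.mem_span_range_iff_exists_finsupp.1 (span_all hN hr hG z hz)
  have hsupp : a.support.Nonempty := by
    rw [Finsupp.support_nonempty_iff]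
    rintro rfl
    rw [Finsupp.sum_zero_index] at ha
    exact hz0 ha.symm
  let wt : {p : ℕ × ℕ // p.2 < N * r} → ℕ := fun p => N * p.1.1 + (N + 1) * p.1.2
  obtain ⟨p0, hp0, hmax⟩ := Finset.exists_max_image a.support wt hsupp
  have hSne : (a.support.filter (fun p => wt p = wt p0)).Nonempty :=
    ⟨p0, mem_filter.2 ⟨hp0, rfl⟩⟩
  obtain ⟨p1, hp1, hmin⟩ := Finset.exists_min_image _
    (fun p : {p : ℕ × ℕ // p.2 < N * r} => p.1.2) hSne
  have hS : ∀ p ∈ a.support.filter (fun p => wt p = wt p0),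
      ∃ l, p.1.2 = p1.1.2 + N * l ∧ p1.1.1 = p.1.1 + (N + 1) * l := by
    intro p hp
    apply wt_lemma hN _ (hmin p hp)
    have h1 := (mem_filter.1 hp).2
    have h2 := (mem_filter.1 hp1).2
    exact h1.trans h2.symm
  refine ⟨wt p0, p1.1.1 + p1.1.2, ∑ p ∈ a.support.filter (fun p => wt p = wt p0),
    Polynomial.monomial ((p.1.2 - p1.1.2) / N) (a p), ?_, ?_, ?_⟩
  · intro h0
    have h1 := congrArg (fun q : Polynomial ℚ => q.coeff 0) h0
    simp only [Polynomial.finsetSum_coeff, Polynomial.coeff_monomial, Polynomial.coeff_zero] at h1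
    rw [Finset.sum_eq_single p1] at h1
    · rw [Nat.sub_self, Nat.zero_div, if_pos rfl] at h1
      exact Finsupp.mem_support_iff.1 (mem_filter.1 hp1).1 h1
    · intro p hp hne
      rw [if_neg]
      intro h2
      apply hne
      obtain ⟨l, hl1, hl2⟩ := hS p hp
      rw [hl1, Nat.add_sub_cancel_left, Nat.mul_div_cancel_left _ hN] at h2
      rw [h2, Nat.mul_zero, Nat.add_zero] at hl1 hl2
      exact Subtype.ext (Prod.ext hl2.symm hl1)
    · intro hp
      exact absurd hp1 hp
  · have h1 : ∑ p ∈ a.support.filter (fun p => wt p = wt p0),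
        Polynomial.monomial ((p.1.2 - p1.1.2) / N) (a p) ∈ Polynomial.degreeLT ℚ r := by
      apply Submodule.sum_mem
      intro p _
      rw [Polynomial.mem_degreeLT]
      refine lt_of_le_of_lt (Polynomial.degree_monomial_le _ _) ?_
      rw [Nat.cast_lt]
      apply Nat.div_lt_of_lt_mul
      exact lt_of_le_of_lt (Nat.sub_le _ _) p.2
    rw [Polynomial.mem_degreeLT] at h1
    by_cases h0 : ∑ p ∈ a.support.filter (fun p => wt p = wt p0),
        Polynomial.monomial ((p.1.2 - p1.1.2) / N) (a p) = 0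
    · rw [h0, Polynomial.natDegree_zero]
      exact hr
    · exact (Polynomial.natDegree_lt_iff_degree_lt h0).2 h1
  · intro A hA hpow
    have ha1 := hA.one_lt
    have hvu : A.valuation u ≠ 0 := (zero_lt_one.trans ha1).ne'
    have hvv : A.valuation v ≠ 0 := (Valuation.ne_zero_iff _).2 hv
    have hs : 1 < A.valuation (v / u) := by
      by_contra hcon
      rw [not_lt] at hcon
      have h1 : A.valuation (v / u) ^ N ≤ 1 := pow_le_one₀ zero_le hcon
      have h2 : A.valuation (v / u) ^ N = A.valuation u := by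
        rw [map_div₀, div_pow, hpow, pow_succ, mul_comm, mul_div_cancel_right₀ _ (pow_ne_zero _ hvu)]
      rw [h2] at h1
      exact absurd ha1 (not_lt.2 h1)
    have ht : A.valuation (u ^ (N + 1) / v ^ N) = 1 := by
      rw [map_div₀, map_pow, map_pow, hpow, div_self (pow_ne_zero _ hvu)]
    have key : z / (v / u) ^ (wt p0) - (u ^ (N + 1) / v ^ N) ^ (p1.1.1 + p1.1.2) *
        Polynomial.aeval (v ^ N / u ^ (N + 1)) (∑ p ∈ a.support.filter (fun p => wt p = wt p0),
        Polynomial.monomial ((p.1.2 - p1.1.2) / N) (a p)) =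
        ∑ p ∈ a.support.filter (fun p => ¬ wt p = wt p0),
          a p • (u ^ p.1.1 * v ^ p.1.2) / (v / u) ^ (wt p0) := by
      rw [← ha, Finsupp.sum, sum_div, ← sum_filter_add_sum_filter_not _ (fun p => wt p = wt p0),
        map_sum, mul_sum]
      rw [add_sub_right_comm, ← sum_sub_distrib, sum_eq_zero, zero_add]
      intro p hp
      obtain ⟨l, hl1, hl2⟩ := hS p hp
      have hw := (mem_filter.1 hp).2
      rw [← hw, Polynomial.aeval_monomial, Algebra.smul_def, mul_div_assoc]
      have e1 : u ^ p.1.1 * v ^ p.1.2 / (v / u) ^ (wt p) =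
          (u ^ (N + 1) / v ^ N) ^ (p.1.1 + p.1.2) := mono_div hv _ _
      rw [e1, hl1, Nat.add_sub_cancel_left, Nat.mul_div_cancel_left _ hN, hl2]
      have e2 : (u ^ (N + 1) / v ^ N) ^ (p.1.1 + (N + 1) * l + p1.1.2) =
          (u ^ (N + 1) / v ^ N) ^ (p.1.1 + (p1.1.2 + N * l)) * (u ^ (N + 1) / v ^ N) ^ l := by
        rw [← pow_add]; congr 1; ring
      rw [e2]
      have e3 : (u ^ (N + 1) / v ^ N) ^ l * (v ^ N / u ^ (N + 1)) ^ l = 1 := by
        rw [← mul_pow, div_mul_div_comm, mul_comm, div_self, one_pow]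
        exact mul_ne_zero (pow_ne_zero _ hv) (pow_ne_zero _ hu)
      linear_combination (-(algebraMap ℚ L (a p) *
        (u ^ (N + 1) / v ^ N) ^ (p.1.1 + (p1.1.2 + N * l)))) * e3
    rw [key]
    apply Valuation.map_sum_lt' _ zero_lt_one
    intro p hp
    obtain ⟨hp1, hp2⟩ := mem_filter.1 hp
    have hlt : wt p < wt p0 := lt_of_le_of_ne (hmax p hp1) hp2
    have e1 : u ^ p.1.1 * v ^ p.1.2 =
        (u ^ (N + 1) / v ^ N) ^ (p.1.1 + p.1.2) * (v / u) ^ (wt p) := by
      have := mono_div (N := N) (u := u) hv p.1.1 p.1.2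
      rw [div_eq_iff (pow_ne_zero _ (div_ne_zero hv hu))] at this
      exact this
    rw [Algebra.smul_def, e1, map_div₀, map_mul, map_mul, map_pow, ht, one_pow, one_mul,
      hA.val_rat (Finsupp.mem_support_iff.1 hp1), one_mul, map_pow, map_pow]
    rw [div_lt_one₀ (pow_pos (zero_lt_one.trans hs) _)]
    exact pow_lt_pow_right₀ hs hlt


theorem Good.one_lt_s {A : ValuationSubring L} (hA : Good u A)
    (hpow : A.valuation v ^ N = A.valuation u ^ (N + 1)) : 1 < A.valuation (v / u) := by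
  have ha1 := hA.one_lt
  have hvu : A.valuation u ≠ 0 := (zero_lt_one.trans ha1).ne'
  by_contra hcon
  rw [not_lt] at hcon
  have h1 : A.valuation (v / u) ^ N ≤ 1 := pow_le_one₀ zero_le hcon
  have h2 : A.valuation (v / u) ^ N = A.valuation u := by
    rw [map_div₀, div_pow, hpow, pow_succ, mul_comm, mul_div_cancel_right₀ _ (pow_ne_zero _ hvu)]
  rw [h2] at h1
  exact absurd ha1 (not_lt.2 h1)

theorem Good.val_t {A : ValuationSubring L} (hA : Good u A)
    (hpow : A.valuation v ^ N = A.valuation u ^ (N + 1)) :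
    A.valuation (v ^ N / u ^ (N + 1)) = 1 := by
  have hvu : A.valuation u ≠ 0 := (zero_lt_one.trans hA.one_lt).ne'
  rw [map_div₀, map_pow, map_pow, hpow, div_self (pow_ne_zero _ hvu)]

theorem Good.val_t' {A : ValuationSubring L} (hA : Good u A)
    (hpow : A.valuation v ^ N = A.valuation u ^ (N + 1)) :
    A.valuation (u ^ (N + 1) / v ^ N) = 1 := by
  have hvu : A.valuation u ≠ 0 := (zero_lt_one.trans hA.one_lt).ne'
  rw [map_div₀, map_pow, map_pow, hpow, div_self (pow_ne_zero _ hvu)]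

theorem Good.lead_unit {A : ValuationSubring L} (hA : Good u A)
    (hpow : A.valuation v ^ N = A.valuation u ^ (N + 1)) (hgi : Irreducible g)
    (hgs : A.valuation (Polynomial.aeval (v ^ N / u ^ (N + 1)) g) < 1)
    {z : L} {W n : ℕ} {P : Polynomial ℚ} (hP : P ≠ 0) (hPd : P.natDegree < g.natDegree)
    (hlt : A.valuation (z / (v / u) ^ W - (u ^ (N + 1) / v ^ N) ^ n *
        Polynomial.aeval (v ^ N / u ^ (N + 1)) P) < 1) :
    A.valuation (z / (v / u) ^ W) = 1 := by
  have h1 : A.valuation ((u ^ (N + 1) / v ^ N) ^ n *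
        Polynomial.aeval (v ^ N / u ^ (N + 1)) P) = 1 := by
    rw [map_mul, map_pow, hA.val_t' hpow, one_pow, one_mul]
    exact hA.aeval_eq_one (hA.val_t hpow).le hgi hgs hP hPd
  have h2 : z / (v / u) ^ W = (z / (v / u) ^ W - (u ^ (N + 1) / v ^ N) ^ n *
        Polynomial.aeval (v ^ N / u ^ (N + 1)) P) + (u ^ (N + 1) / v ^ N) ^ n *
        Polynomial.aeval (v ^ N / u ^ (N + 1)) P := by ring
  rw [h2, Valuation.map_add_eq_of_lt_right _ (by rw [h1]; exact hlt), h1]

omit [Algebra ℚ L] in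
theorem Good.val_z {A : ValuationSubring L} (hv : v ≠ 0) (hu : u ≠ 0)
    {z : L} {W : ℕ} (h : A.valuation (z / (v / u) ^ W) = 1) :
    A.valuation z = A.valuation (v / u) ^ W := by
  have h1 : z = z / (v / u) ^ W * (v / u) ^ W :=
    (div_mul_cancel₀ _ (pow_ne_zero _ (div_ne_zero hv hu))).symm
  conv_lhs => rw [h1]
  rw [map_mul, h, one_mul, map_pow]

/-- the residue field -/
theorem residue_equiv {A : ValuationSubring L} (hA : Good u A) (hv : v ≠ 0) (hu : u ≠ 0)
    (hpow : A.valuation v ^ N = A.valuation u ^ (N + 1)) (hgi : Irreducible g)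
    (hgs : A.valuation (Polynomial.aeval (v ^ N / u ^ (N + 1)) g) < 1)
    (hlead : ∀ z ∈ Algebra.adjoin ℚ {u, v}, z ≠ 0 → ∃ (W n : ℕ) (P : Polynomial ℚ), P ≠ 0 ∧
      P.natDegree < g.natDegree ∧ A.valuation (z / (v / u) ^ W - (u ^ (N + 1) / v ^ N) ^ n *
        Polynomial.aeval (v ^ N / u ^ (N + 1)) P) < 1)
    (hL : ∀ z : L, ∃ q ∈ Algebra.adjoin ℚ {u, v}, q ≠ 0 ∧ q * z ∈ Algebra.adjoin ℚ {u, v}) :
    Nonempty (IsLocalRing.ResidueField A ≃+* AdjoinRoot g) := by
  have : Fact (Irreducible g) := ⟨hgi⟩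
  have ht : v ^ N / u ^ (N + 1) ∈ A := (A.valuation_le_one_iff _).1 (hA.val_t hpow).le
  have ht' : u ^ (N + 1) / v ^ N ∈ A := (A.valuation_le_one_iff _).1 (hA.val_t' hpow).le
  let T : A := ⟨v ^ N / u ^ (N + 1), ht⟩
  let T' : A := ⟨u ^ (N + 1) / v ^ N, ht'⟩
  let φ : ℚ →+* A := (algebraMap ℚ L).codRestrict A hA.1
  have hφ : ∀ p : Polynomial ℚ, ((Polynomial.eval₂ φ T p : A) : L) =
      Polynomial.aeval (v ^ N / u ^ (N + 1)) p := by
    intro p
    have := Polynomial.hom_eval₂ p φ A.subtype T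
    exact this
  let R := IsLocalRing.residue A
  have hR : ∀ x : A, R x = 0 ↔ A.valuation (x : L) < 1 := by
    intro x
    rw [← A.valuation_lt_one_iff, IsLocalRing.residue_eq_zero_iff]
  have hev : ∀ p : Polynomial ℚ, Polynomial.eval₂ (R.comp φ) (R T) p =
      R (Polynomial.eval₂ φ T p) := by
    intro p
    exact (Polynomial.hom_eval₂ p φ R T).symm
  have hroot : Polynomial.eval₂ (R.comp φ) (R T) g = 0 := by
    rw [hev, hR, hφ]
    exact hgs
  let ψ : AdjoinRoot g →+* IsLocalRing.ResidueField A := AdjoinRoot.lift (R.comp φ) (R T) hroot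
  have hψmk : ∀ p : Polynomial ℚ, ψ (AdjoinRoot.mk g p) = R (Polynomial.eval₂ φ T p) := by
    intro p
    rw [← hev]
    exact AdjoinRoot.lift_mk hroot p
  have hTT' : T' * T = 1 := by
    apply Subtype.ext
    show u ^ (N + 1) / v ^ N * (v ^ N / u ^ (N + 1)) = 1
    rw [div_mul_div_comm, mul_comm, div_self]
    exact mul_ne_zero (pow_ne_zero _ hv) (pow_ne_zero _ hu)
  have hψT' : ψ ((AdjoinRoot.root g)⁻¹) = R T' := by
    have h1 : ψ (AdjoinRoot.root g) = R T := AdjoinRoot.lift_root hroot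
    rw [map_inv₀, h1]
    have h2 : R T' * R T = 1 := by rw [← map_mul, hTT', map_one]
    exact inv_eq_of_mul_eq_one_left h2
  have hz : ∀ z ∈ Algebra.adjoin ℚ {u, v}, z ≠ 0 → ∃ (W : ℕ) (hm : z / (v / u) ^ W ∈ A)
      (α : AdjoinRoot g), A.valuation (z / (v / u) ^ W) = 1 ∧
      ψ α = R ⟨z / (v / u) ^ W, hm⟩ := by
    intro z hz hz0
    obtain ⟨W, n, P, hP, hPd, hlt⟩ := hlead z hz hz0
    have h1 := hA.lead_unit hpow hgi hgs hP hPd hlt
    refine ⟨W, (A.valuation_le_one_iff _).1 h1.le,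
      ((AdjoinRoot.root g)⁻¹) ^ n * AdjoinRoot.mk g P, h1, ?_⟩
    rw [map_mul, map_pow, hψT', hψmk, ← map_pow, ← map_mul, eq_comm, ← sub_eq_zero, ← map_sub, hR]
    have h2 : ((⟨z / (v / u) ^ W, (A.valuation_le_one_iff _).1 h1.le⟩ -
        T' ^ n * Polynomial.eval₂ φ T P : A) : L) = z / (v / u) ^ W -
        (u ^ (N + 1) / v ^ N) ^ n * Polynomial.aeval (v ^ N / u ^ (N + 1)) P := by
      rw [← hφ P]
      rfl
    rw [h2]
    exact hlt
  have hinj : Function.Injective ψ := ψ.injective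
  have hsurj : Function.Surjective ψ := by
    intro y
    obtain ⟨x, rfl⟩ := IsLocalRing.residue_surjective y
    by_cases hx : A.valuation (x : L) < 1
    · exact ⟨0, by rw [map_zero]; exact ((hR x).2 hx).symm⟩
    · have hx1 : A.valuation (x : L) = 1 :=
        le_antisymm ((A.valuation_le_one_iff _).2 x.2) (not_lt.1 hx)
      have hx0 : (x : L) ≠ 0 := by
        rw [← Valuation.ne_zero_iff A.valuation, hx1]
        exact one_ne_zero
      obtain ⟨q, hq, hq0, hp⟩ := hL x
      obtain ⟨Wq, hmq, αq, h1q, h2q⟩ := hz q hq hq0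
      obtain ⟨Wp, hmp, αp, h1p, h2p⟩ := hz (q * x) hp (mul_ne_zero hq0 hx0)
      have hW : Wp = Wq := by
        have e1 := Good.val_z hv hu h1q
        have e2 := Good.val_z hv hu h1p
        rw [map_mul, hx1, mul_one, e1] at e2
        exact (pow_right_injective₀ (zero_lt_one.trans (hA.one_lt_s hpow))
          (hA.one_lt_s hpow).ne' e2).symm
      subst hW
      have hmul : x * (⟨q / (v / u) ^ Wp, hmq⟩ : A) = ⟨q * x / (v / u) ^ Wp, hmp⟩ := by
        apply Subtype.ext
        show (x : L) * (q / (v / u) ^ Wp) = q * x / (v / u) ^ Wp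
        ring
      have hne : R ⟨q / (v / u) ^ Wp, hmq⟩ ≠ 0 := by
        intro h0
        rw [hR] at h0
        exact h0.ne h1q
      refine ⟨αp / αq, ?_⟩
      rw [map_div₀, h2p, h2q, ← hmul, map_mul]
      exact mul_div_cancel_right₀ _ hne
  exact ⟨(RingEquiv.ofBijective ψ ⟨hinj, hsurj⟩).symm⟩

end

end Pool.Agent.Y68.Place

namespace Pool.Agent.Y68

open Pool.Agent.Y68.Place

theorem place_unique {L : Type*} [Field L] [Algebra ℚ L] (u v : L) (N r : ℕ) (hN : 1 ≤ N)
    (hr : 1 ≤ r) (c : ℕ → ℕ → ℚ) (g : Polynomial ℚ) (hu : Transcendental ℚ u)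
    (hc : ∀ i j, c i j ≠ 0 → j < N * r ∧ N * i + (N + 1) * j ≤ N * (N + 1) * r)
    (hG : v ^ (N * r) + ∑ j ∈ range (N * r), ∑ i ∈ range ((N + 1) * r + 1),
        algebraMap ℚ L (c i j) * u ^ i * v ^ j = 0)
    (hgm : g.Monic) (hgr : g.natDegree = r) (hgi : Irreducible g) (hg0 : g.coeff 0 ≠ 0)
    (hgc : ∀ l < r, g.coeff l = c ((N + 1) * (r - l)) (N * l))
    (hL : ∀ z : L, ∃ q ∈ Algebra.adjoin ℚ {u, v}, q ≠ 0 ∧ q * z ∈ Algebra.adjoin ℚ {u, v}) :
    ∃ A : ValuationSubring L,
      (∀ A' : ValuationSubring L, ((∀ x : ℚ, algebraMap ℚ L x ∈ A') ∧ u ∉ A') ↔ A' = A) ∧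
      Nonempty (IsLocalRing.ResidueField A ≃+* AdjoinRoot g) := by
  have hc0 : c ((N + 1) * r) 0 ≠ 0 := by
    have := hgc 0 hr
    rw [Nat.sub_zero, Nat.mul_zero] at this
    rw [← this]
    exact hg0
  obtain ⟨A, hA⟩ := exists_good hu
  have hu0 : u ≠ 0 := by
    rintro rfl
    exact hA.2 A.zero_mem
  have hpow : ∀ B : ValuationSubring L, Good u B →
      B.valuation v ^ N = B.valuation u ^ (N + 1) := fun B hB => hB.pow_eq hN hr hc hG hc0
  have hv0 : v ≠ 0 := by
    rintro rfl
    have h1 := hpow A hA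
    rw [map_zero, zero_pow (by omega)] at h1
    exact pow_ne_zero _ (zero_lt_one.trans hA.one_lt).ne' h1.symm
  have hgs : ∀ B : ValuationSubring L, Good u B →
      B.valuation (Polynomial.aeval (v ^ N / u ^ (N + 1)) g) < 1 := fun B hB =>
    hB.g_small hN hr hc hG hgm hgr hgc (hpow B hB)
  have hlead := exists_lead hu0 hv0 hN hr hG
  have hle : ∀ B B' : ValuationSubring L, Good u B → Good u B' → ∀ x ∈ B, x ∈ B' := by
    intro B B' hB hB' x hx
    by_cases hx0 : x = 0
    · rw [hx0]; exact B'.zero_mem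
    obtain ⟨q, hq, hq0, hp⟩ := hL x
    obtain ⟨Wq, nq, Pq, hPq, hdq, hltq⟩ := hlead q hq hq0
    obtain ⟨Wp, np, Pp, hPp, hdp, hltp⟩ := hlead (q * x) hp (mul_ne_zero hq0 hx0)
    rw [← hgr] at hdq hdp
    have h1 := Good.val_z hv0 hu0
      (hB.lead_unit (hpow B hB) hgi (hgs B hB) hPq hdq (hltq B hB (hpow B hB)))
    have h2 := Good.val_z hv0 hu0
      (hB.lead_unit (hpow B hB) hgi (hgs B hB) hPp hdp (hltp B hB (hpow B hB)))
    have h3 := Good.val_z hv0 hu0
      (hB'.lead_unit (hpow B' hB') hgi (hgs B' hB') hPq hdq (hltq B' hB' (hpow B' hB')))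
    have h4 := Good.val_z hv0 hu0
      (hB'.lead_unit (hpow B' hB') hgi (hgs B' hB') hPp hdp (hltp B' hB' (hpow B' hB')))
    have hs := hB.one_lt_s (hpow B hB)
    have hs' := hB'.one_lt_s (hpow B' hB')
    have hle1 : Wp ≤ Wq := by
      have h5 : B.valuation (q * x) ≤ B.valuation q := by
        rw [map_mul]
        exact mul_le_of_le_one_right' ((B.valuation_le_one_iff _).2 hx)
      rw [h1, h2] at h5
      exact (pow_le_pow_iff_right₀ hs).1 h5
    rw [← B'.valuation_le_one_iff]
    have h6 : B'.valuation (q * x) ≤ B'.valuation q := by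
      rw [h3, h4]
      exact pow_le_pow_right₀ hs'.le hle1
    rw [map_mul] at h6
    have hq1 : 0 < B'.valuation q := zero_lt_iff.2 ((Valuation.ne_zero_iff _).2 hq0)
    exact (mul_le_iff_le_one_right hq1).1 h6
  refine ⟨A, fun A' => ⟨fun h => ?_, fun h => ?_⟩, ?_⟩
  · ext x
    exact ⟨hle A' A h hA x, hle A A' hA h x⟩
  · rw [h]
    exact hA
  · apply residue_equiv hA hv0 hu0 (hpow A hA) hgi (hgs A hA) _ hL
    intro z hz hz0
    obtain ⟨W, n, P, hP, hd, hlt⟩ := hlead z hz hz0
    exact ⟨W, n, P, hP, by rw [hgr]; exact hd, hlt A hA (hpow A hA)⟩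

end Pool.Agent.Y68
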