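import Pool.Agent.Y68.Grd

/-!
Uniformizer and residue field of a finite extension of a rational function field.
-/

set_option autoImplicit false

open Finset Polynomial

namespace Pool.Agent.Y68.Grd

section Disc

variable {K F Γ : Type*} [Field K] [Field F] [Algebra K F] [LinearOrderedCommGroupWithZero Γ]
variable {ν : Valuation F Γ}

theorem exists_pow_eq [FiniteDimensional K F] {α : Γ} (hα : 1 < α)
    (hK : ∀ x : K, x ≠ 0 → ∃ e : ℤ, ν (algebraMap K F x) = α ^ e) (f : F) (hf : f ≠ 0) :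
    ∃ m : ℕ, 1 ≤ m ∧ m ≤ Module.finrank K F ∧ ∃ e : ℤ, ν f ^ m = α ^ e := by
  classical
  have hint : IsIntegral K f := Algebra.IsIntegral.isIntegral f
  obtain ⟨p, hp⟩ : ∃ p, p = minpoly K f := ⟨_, rfl⟩
  have hp0 : p ≠ 0 := hp ▸ minpoly.ne_zero hint
  have hpd : p.natDegree ≤ Module.finrank K F := hp ▸ minpoly.natDegree_le f
  have hpf : ∑ i ∈ p.support, algebraMap K F (p.coeff i) * f ^ i = 0 := by
    have h1 : aeval f p = 0 := hp ▸ minpoly.aeval K f
    rw [aeval_def, eval₂_eq_sum, Polynomial.sum_def] at h1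
    exact h1
  have hνf : ν f ≠ 0 := (Valuation.ne_zero_iff _).2 hf
  have hα0 : α ≠ 0 := (zero_lt_one.trans hα).ne'
  have hcoef : ∀ i ∈ p.support, ∃ e : ℤ, ν (algebraMap K F (p.coeff i)) = α ^ e :=
    fun i hi => hK _ (mem_support_iff.1 hi)
  obtain ⟨i, hi, hmax⟩ := Finset.exists_max_image p.support
    (fun i => ν (algebraMap K F (p.coeff i) * f ^ i)) (support_nonempty.2 hp0)
  have hpos : ν (algebraMap K F (p.coeff i) * f ^ i) ≠ 0 := by
    rw [Valuation.ne_zero_iff]
    exact mul_ne_zero ((_root_.map_ne_zero _).2 (mem_support_iff.1 hi)) (pow_ne_zero _ hf)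
  obtain ⟨j, hj, hne, hle⟩ : ∃ j ∈ p.support, j ≠ i ∧
      ν (algebraMap K F (p.coeff i) * f ^ i) ≤ ν (algebraMap K F (p.coeff j) * f ^ j) := by
    by_contra hcon
    push Not at hcon
    have h1 := Valuation.map_sum_eq_of_lt (v := ν) (s := p.support)
      (f := fun i => algebraMap K F (p.coeff i) * f ^ i) (j := i) hi (by
        intro j hj
        rw [mem_sdiff, mem_singleton] at hj
        exact hcon j hj.1 hj.2)
    rw [hpf, map_zero] at h1
    exact hpos h1.symm
  have heq : ν (algebraMap K F (p.coeff i) * f ^ i) = ν (algebraMap K F (p.coeff j) * f ^ j) :=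
    le_antisymm hle (hmax j hj)
  -- symmetric statement
  have key : ∀ i j : ℕ, i ∈ p.support → j ∈ p.support → i < j →
      ν (algebraMap K F (p.coeff i) * f ^ i) = ν (algebraMap K F (p.coeff j) * f ^ j) →
      ∃ m : ℕ, 1 ≤ m ∧ m ≤ Module.finrank K F ∧ ∃ e : ℤ, ν f ^ m = α ^ e := by
    intro i j hi hj hij heq
    obtain ⟨ei, hei⟩ := hcoef i hi
    obtain ⟨ej, hej⟩ := hcoef j hj
    obtain ⟨d, rfl⟩ := Nat.exists_eq_add_of_lt hij
    refine ⟨d + 1, Nat.succ_pos d, ?_, ei - ej, ?_⟩
    · have := le_natDegree_of_mem_supp _ hj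
      omega
    · rw [map_mul, map_mul, map_pow, map_pow, hei, hej, add_assoc, pow_add] at heq
      have h2 : α ^ ei * ν f ^ i = (α ^ ej * ν f ^ (d + 1)) * ν f ^ i := by
        rw [heq]
        rw [mul_comm (ν f ^ i), mul_assoc]
      have h3 := mul_right_cancel₀ (pow_ne_zero _ hνf) h2
      rw [zpow_sub₀ hα0, eq_div_iff (zpow_ne_zero _ hα0), h3, mul_comm]
  rcases lt_or_gt_of_ne hne with h | h
  · exact key j i hj hi h heq.symm
  · exact key i j hi hj h heq

theorem exists_pow_eq' [FiniteDimensional K F] {α : Γ} (hα : 1 < α)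
    (hK : ∀ x : K, x ≠ 0 → ∃ e : ℤ, ν (algebraMap K F x) = α ^ e) (f : F) (hf : f ≠ 0) :
    ∃ e : ℤ, ν f ^ (Module.finrank K F).factorial = α ^ e := by
  obtain ⟨m, h1, h2, e, he⟩ := exists_pow_eq hα hK f hf
  obtain ⟨m', hm'⟩ := Nat.dvd_factorial h1 h2
  refine ⟨e * m', ?_⟩
  rw [hm', pow_mul, he, zpow_mul, zpow_natCast]

theorem exists_unif [FiniteDimensional K F] {α : Γ} (hα : 1 < α)
    (hK : ∀ x : K, x ≠ 0 → ∃ e : ℤ, ν (algebraMap K F x) = α ^ e)
    (hx : ∃ x : F, x ≠ 0 ∧ ν x < 1) :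
    ∃ s : F, s ≠ 0 ∧ ν s < 1 ∧ ∀ f : F, f ≠ 0 → ∃ j : ℤ, ν f = ν s ^ j := by
  classical
  obtain ⟨M, hM⟩ : ∃ M, M = (Module.finrank K F).factorial := ⟨_, rfl⟩
  have hM0 : M ≠ 0 := hM ▸ Nat.factorial_ne_zero _
  have hpow : ∀ f : F, f ≠ 0 → ∃ e : ℤ, ν f ^ M = α ^ e := fun f hf =>
    hM ▸ exists_pow_eq' hα hK f hf
  have hα0 : α ≠ 0 := (zero_lt_one.trans hα).ne'
  have hmono := zpow_right_strictMono₀ hα
  have hneg : ∀ f : F, f ≠ 0 → ν f < 1 → ∃ e : ℕ, 0 < e ∧ ν f ^ M = α ^ (-(e : ℤ)) := by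
    intro f hf hlt
    obtain ⟨e, he⟩ := hpow f hf
    have h1 : ν f ^ M < 1 := pow_lt_one₀ zero_le hlt hM0
    rw [he] at h1
    have h2 : e < 0 := by
      by_contra hcon
      rw [not_lt] at hcon
      have := hmono.monotone hcon
      simp only [zpow_zero] at this
      exact absurd h1 (not_lt.2 this)
    refine ⟨e.natAbs, Int.natAbs_pos.2 h2.ne, ?_⟩
    rw [he]
    congr 1
    omega
  have hex : ∃ e : ℕ, 0 < e ∧ ∃ f : F, f ≠ 0 ∧ ν f ^ M = α ^ (-(e : ℤ)) := by
    obtain ⟨x, hx0, hx1⟩ := hx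
    obtain ⟨e, he, he'⟩ := hneg x hx0 hx1
    exact ⟨e, he, x, hx0, he'⟩
  obtain ⟨hes, s, hs0, hs⟩ := Nat.find_spec hex
  have hmin : ∀ e : ℕ, 0 < e → (∃ f : F, f ≠ 0 ∧ ν f ^ M = α ^ (-(e : ℤ))) → Nat.find hex ≤ e :=
    fun e he hf => Nat.find_min' hex ⟨he, hf⟩
  obtain ⟨E, hE⟩ : ∃ E, E = Nat.find hex := ⟨_, rfl⟩
  rw [← hE] at hes hs hmin
  have hνs : ν s ≠ 0 := (Valuation.ne_zero_iff _).2 hs0
  refine ⟨s, hs0, ?_, ?_⟩
  · by_contra hcon
    rw [not_lt] at hcon
    have h1 : 1 ≤ ν s ^ M := one_le_pow₀ hcon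
    rw [hs] at h1
    have h2 : α ^ (-(E : ℤ)) < α ^ (0 : ℤ) := hmono (by omega)
    rw [zpow_zero] at h2
    exact absurd h2 (not_lt.2 h1)
  · intro f hf
    obtain ⟨e, he⟩ := hpow f hf
    have hEz : (0 : ℤ) < E := by exact_mod_cast hes
    have hdiv := Int.mul_ediv_add_emod (-e) E
    have hmod0 := Int.emod_nonneg (-e) hEz.ne'
    have hmodlt := Int.emod_lt_of_pos (-e) hEz
    obtain ⟨j, hj⟩ : ∃ j, j = (-e) / (E : ℤ) := ⟨_, rfl⟩
    obtain ⟨ρ, hρ⟩ : ∃ ρ : ℕ, (ρ : ℤ) = (-e) % (E : ℤ) := ⟨_, Int.toNat_of_nonneg hmod0⟩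
    rw [← hj, ← hρ] at hdiv
    rw [← hρ] at hmodlt
    refine ⟨j, ?_⟩
    have ht0 : f / s ^ j ≠ 0 := div_ne_zero hf (zpow_ne_zero _ hs0)
    have ht : ν (f / s ^ j) ^ M = α ^ (-(ρ : ℤ)) := by
      rw [map_div₀, map_zpow₀, div_pow, he]
      have h3 : (ν s ^ j) ^ M = α ^ (-(E : ℤ) * j) := by
        rw [← zpow_natCast, ← zpow_mul, mul_comm, zpow_mul, zpow_natCast, hs, ← zpow_mul]
      rw [h3, ← zpow_sub₀ hα0]
      congr 1
      linarith
    have hρ0 : ρ = 0 := by
      by_contra hne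
      have h4 := hmin ρ (Nat.pos_of_ne_zero hne) ⟨_, ht0, ht⟩
      omega
    rw [hρ0, Nat.cast_zero, neg_zero, zpow_zero] at ht
    have h5 : ν (f / s ^ j) = 1 := (pow_eq_one_iff_of_nonneg zero_le hM0).1 ht
    rw [map_div₀, map_zpow₀] at h5
    exact eq_of_div_eq_one h5

end Disc

section Res

variable {k K F Γ : Type*} [Field k] [Field K] [Field F] [Algebra k F] [Algebra K F]
  [LinearOrderedCommGroupWithZero Γ]
variable {ν : Valuation F Γ}

/-- constants in the valuation ring -/
def phi (ν : Valuation F Γ) (hk : ∀ x : k, x ≠ 0 → ν (algebraMap k F x) = 1) :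
    k →+* ν.valuationSubring :=
  (algebraMap k F).codRestrict ν.valuationSubring (fun x => val_le hk x)

/-- the residue field as an algebra over the constants -/
@[reducible] noncomputable def kapAlg (ν : Valuation F Γ)
    (hk : ∀ x : k, x ≠ 0 → ν (algebraMap k F x) = 1) :
    Algebra k (IsLocalRing.ResidueField ν.valuationSubring) :=
  ((IsLocalRing.residue ν.valuationSubring).comp (phi ν hk)).toAlgebra

theorem residue_eq_zero (x : ν.valuationSubring) :
    IsLocalRing.residue ν.valuationSubring x = 0 ↔ ν (x : F) < 1 := by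
  rw [IsLocalRing.residue_eq_zero_iff, Valuation.mem_maximalIdeal_iff]

theorem residue_finite [FiniteDimensional K F]
    (hk : ∀ x : k, x ≠ 0 → ν (algebraMap k F x) = 1)
    (hres : ∀ x : K, ν (algebraMap K F x) ≤ 1 → ∃ δ : k,
      ν (algebraMap K F x - algebraMap k F δ) < 1) :
    @Module.Finite k (IsLocalRing.ResidueField ν.valuationSubring) _ _
      (kapAlg ν hk).toModule := by
  let _ := kapAlg ν hk
  have hsmul : ∀ (c : k) (y : IsLocalRing.ResidueField ν.valuationSubring),
    c • y = IsLocalRing.residue ν.valuationSubring (phi ν hk c) * y := fun c y => rfl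
  have hrank : Module.rank k (IsLocalRing.ResidueField ν.valuationSubring) ≤
      (Module.finrank K F : ℕ) := by
    apply rank_le
    intro S hS
    choose t ht using fun i : S => IsLocalRing.residue_surjective (i : IsLocalRing.ResidueField
      ν.valuationSubring)
    have hind : LinearIndependent K (fun i : S => ((t i : ν.valuationSubring) : F)) := by
      rw [Fintype.linearIndependent_iff]
      intro c hc
      by_contra hne
      push Not at hne
      obtain ⟨i1, hi1⟩ := hne
      obtain ⟨i0, -, hmax⟩ := Finset.exists_max_image (Finset.univ : Finset S)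
        (fun i => ν (algebraMap K F (c i))) ⟨i1, Finset.mem_univ _⟩
      have hpos : 0 < ν (algebraMap K F (c i0)) := by
        refine lt_of_lt_of_le (zero_lt_iff.2 ?_) (hmax i1 (Finset.mem_univ _))
        rw [Valuation.ne_zero_iff]
        exact (_root_.map_ne_zero _).2 hi1
      have hc0 : c i0 ≠ 0 := by
        intro h0
        rw [h0, map_zero, map_zero] at hpos
        exact lt_irrefl _ hpos
      have hle : ∀ i, ν (algebraMap K F (c i / c i0)) ≤ 1 := by
        intro i
        rw [map_div₀, map_div₀]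
        exact (div_le_one₀ hpos).2 (hmax i (Finset.mem_univ _))
      choose δ hδ using fun i => hres _ (hle i)
      have hsum : ∑ i, algebraMap K F (c i / c i0) * ((t i : ν.valuationSubring) : F) = 0 := by
        have h1 : ∑ i, algebraMap K F (c i / c i0) * ((t i : ν.valuationSubring) : F) =
            (algebraMap K F (c i0))⁻¹ * ∑ i, c i • ((t i : ν.valuationSubring) : F) := by
          rw [mul_sum]
          apply sum_congr rfl
          intro i _
          rw [Algebra.smul_def, map_div₀]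
          ring
        rw [h1, hc, mul_zero]
      have hsmall : ν (∑ i, algebraMap k F (δ i) * ((t i : ν.valuationSubring) : F)) < 1 := by
        have h1 : ∑ i, algebraMap k F (δ i) * ((t i : ν.valuationSubring) : F) =
            ∑ i, -((algebraMap K F (c i / c i0) - algebraMap k F (δ i)) *
              ((t i : ν.valuationSubring) : F)) := by
          rw [← sub_zero (∑ i, algebraMap k F (δ i) * ((t i : ν.valuationSubring) : F)), ← hsum,
            ← sum_sub_distrib]
          apply sum_congr rfl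
          intro i _
          ring
        rw [h1]
        apply Valuation.map_sum_lt' _ zero_lt_one
        intro i _
        rw [Valuation.map_neg, map_mul]
        exact (mul_le_of_le_one_right' (t i).2).trans_lt (hδ i)
      have hres0 : ∑ i : S, δ i • (i : IsLocalRing.ResidueField ν.valuationSubring) = 0 := by
        have h1 : ∑ i : S, δ i • (i : IsLocalRing.ResidueField ν.valuationSubring) =
            IsLocalRing.residue ν.valuationSubring (∑ i, phi ν hk (δ i) * t i) := by
          rw [map_sum]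
          apply sum_congr rfl
          intro i _
          rw [hsmul, map_mul, ht]
        rw [h1, residue_eq_zero]
        have h2 : ((∑ i, phi ν hk (δ i) * t i : ν.valuationSubring) : F) =
            ∑ i, algebraMap k F (δ i) * ((t i : ν.valuationSubring) : F) := by
          have := map_sum (ν.valuationSubring.subtype) (fun i => phi ν hk (δ i) * t i) univ
          exact this
        rw [h2]
        exact hsmall
      have hδ0 := (Fintype.linearIndependent_iff.1 hS) δ hres0 i0
      have h3 := hδ i0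
      rw [hδ0, map_zero, sub_zero, div_self hc0, map_one, map_one] at h3
      exact lt_irrefl _ h3
    have := hind.fintype_card_le_finrank
    rwa [Fintype.card_coe] at this
  have hlt : Module.rank k (IsLocalRing.ResidueField ν.valuationSubring) < Cardinal.aleph0 :=
    hrank.trans_lt (Cardinal.natCast_lt_aleph0)
  exact Module.rank_lt_aleph0_iff.1 hlt

/-- a generator of the residue field -/
theorem exists_gen [CharZero k] [FiniteDimensional K F]
    (hk : ∀ x : k, x ≠ 0 → ν (algebraMap k F x) = 1)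
    (hres : ∀ x : K, ν (algebraMap K F x) ≤ 1 → ∃ δ : k,
      ν (algebraMap K F x - algebraMap k F δ) < 1) :
    ∃ (τ : F) (r : ℕ) (g : k[X]), ν τ ≤ 1 ∧ 1 ≤ r ∧ g.Monic ∧ g.natDegree = r ∧ Irreducible g ∧
      g.coeff 0 ≠ 0 ∧ ν (aeval τ g) < 1 ∧
      ∀ f : F, ν f ≤ 1 → ∃ p : k[X], p.natDegree < r ∧ Cg ν f (aeval τ p) := by
  let _ := kapAlg ν hk
  have hfin : Module.Finite k (IsLocalRing.ResidueField ν.valuationSubring) :=
    residue_finite hk hres
  obtain ⟨θ, hθ⟩ : ∃ θ : IsLocalRing.ResidueField ν.valuationSubring, θ ≠ 0 ∧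
      IntermediateField.adjoin k {θ} = ⊤ := by
    obtain ⟨θ, hθ⟩ := Field.exists_primitive_element k
      (IsLocalRing.ResidueField ν.valuationSubring)
    by_cases h0 : θ = 0
    · refine ⟨1, one_ne_zero, ?_⟩
      rw [eq_top_iff, ← hθ, h0, IntermediateField.adjoin_zero]
      exact bot_le
    · exact ⟨θ, h0, hθ⟩
  obtain ⟨hθ0, hθt⟩ := hθ
  have hint : IsIntegral k θ := Algebra.IsIntegral.isIntegral θ
  obtain ⟨T, hT⟩ := IsLocalRing.residue_surjective θ
  have hev : ∀ p : k[X], ∃ hm : aeval (T : F) p ∈ ν.valuationSubring,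
      aeval θ p = IsLocalRing.residue ν.valuationSubring ⟨aeval (T : F) p, hm⟩ := by
    intro p
    have h1 : ((Polynomial.eval₂ (phi ν hk) T p : ν.valuationSubring) : F) = aeval (T : F) p := by
      have := Polynomial.hom_eval₂ p (phi ν hk) ν.valuationSubring.subtype T
      exact this
    have h2 : aeval θ p = IsLocalRing.residue ν.valuationSubring
        (Polynomial.eval₂ (phi ν hk) T p) := by
      rw [Polynomial.hom_eval₂, hT]
      rfl
    have h3 : aeval (T : F) p ∈ ν.valuationSubring := by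
      rw [← h1]
      exact (Polynomial.eval₂ (phi ν hk) T p).2
    refine ⟨h3, ?_⟩
    rw [h2]
    congr 1
    exact Subtype.ext h1
  obtain ⟨g, hg⟩ : ∃ g, g = minpoly k θ := ⟨_, rfl⟩
  have hgm : g.Monic := hg ▸ minpoly.monic hint
  have hgi : Irreducible g := hg ▸ minpoly.irreducible hint
  have hg0 : g.coeff 0 ≠ 0 := hg ▸ minpoly.coeff_zero_ne_zero hint hθ0
  have hgθ : aeval θ g = 0 := hg ▸ minpoly.aeval k θ
  refine ⟨(T : F), g.natDegree, g, T.2, hgi.natDegree_pos, hgm, rfl, hgi, hg0, ?_, ?_⟩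
  · obtain ⟨hm, h1⟩ := hev g
    rw [hgθ] at h1
    exact (residue_eq_zero _).1 h1.symm
  · intro f hf
    have h1 : IsLocalRing.residue ν.valuationSubring ⟨f, hf⟩ ∈
        (IntermediateField.adjoin k {θ}).toSubalgebra := by
      rw [hθt]; trivial
    rw [IntermediateField.adjoin_simple_toSubalgebra_of_isAlgebraic hint.isAlgebraic,
      Algebra.adjoin_singleton_eq_range_aeval] at h1
    obtain ⟨p, hp⟩ := h1
    have hp' : aeval θ p = IsLocalRing.residue ν.valuationSubring ⟨f, hf⟩ := hp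
    refine ⟨p %ₘ g, natDegree_modByMonic_lt p hgm ?_, ?_⟩
    · intro h
      exact hgi.not_isUnit (h ▸ isUnit_one)
    · have h2 : aeval θ (p %ₘ g) = IsLocalRing.residue ν.valuationSubring ⟨f, hf⟩ := by
        rw [← hp']
        conv_rhs => rw [← modByMonic_add_div p g, map_add, map_mul, hgθ, zero_mul, add_zero]
      obtain ⟨hm, h3⟩ := hev (p %ₘ g)
      rw [h2, ← sub_eq_zero, ← map_sub, residue_eq_zero] at h3
      exact h3

end Res

end Pool.Agent.Y68.Grd
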